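import Pool.Agent.H43.UP.Defs

/-!
# THEOREM UP, module Kob: second order distortion

PROOF (`C = 4 (KK + 2)`). `distort` (H80/AJ/Distort): `‖deriv G w‖ ≤ KK ‖deriv G c‖` on `closedBall c (R / 2)`; so `deriv G` maps `ball c (R / 2)` to `ball (deriv G c) ((KK + 2) ‖deriv G c‖)` (`deriv_ne`: `‖deriv G c‖ > 0`), Schwarz (`Complex.dist_le_div_mul_dist_of_mapsTo_ball`):
`‖deriv G w - deriv G c‖ ≤ (KK + 2) ‖deriv G c‖ / (R / 2) * ‖w - c‖`. Second part: `Convex.norm_image_sub_le_of_norm_deriv_le` for `w ↦ G w - deriv G c * w` on the ball.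
-/

set_option autoImplicit false

open Filter Topology Polynomial Metric Set MeasureTheory

namespace Pool.Agent.H43.UP

open Pool.Agent.H80.AJ

/-- the constant of the second order distortion -/
noncomputable def CK : ℝ := 4 * (KK + 2)

theorem one_le_CK : 1 ≤ CK := by
  have := one_le_KK
  unfold CK
  linarith

theorem kob1 {G : ℂ → ℂ} {c : ℂ} {R s : ℝ} (hR : 0 < R) (hs : s ≤ R / 2) (hG : DifferentiableOn ℂ G (ball c R))
    (hi : InjOn G (ball c R)) {w : ℂ} (hw : w ∈ ball c s) : ‖deriv G w - deriv G c‖ ≤ CK * (s / R) * ‖deriv G c‖ := by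
  have hs0 : 0 < s := lt_of_le_of_lt dist_nonneg (mem_ball.1 hw)
  have hD : DifferentiableOn ℂ (deriv G) (ball c (R / 2)) :=
    (hG.deriv isOpen_ball).mono (ball_subset_ball (by linarith))
  have hM : MapsTo (deriv G) (ball c (R / 2)) (closedBall (deriv G c) ((KK + 2) * ‖deriv G c‖)) := by
    intro u hu
    rw [mem_closedBall, dist_eq_norm]
    have h1 := distort hR hG hi (ball_subset_closedBall hu) (mem_closedBall_self (by positivity) : c ∈ closedBall c (R / 2))
    have h2 := norm_sub_le (deriv G u) (deriv G c)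
    have h3 := norm_nonneg (deriv G c)
    nlinarith
  have h := Complex.dist_le_div_mul_dist_of_mapsTo_ball hD hM (ball_subset_ball hs hw)
  rw [dist_eq_norm] at h
  refine h.trans ?_
  have h1 : dist w c ≤ s := (mem_ball.1 hw).le
  have h2 : 0 ≤ (KK + 2) * ‖deriv G c‖ / (R / 2) := by
    have := KK_pos
    positivity
  refine (mul_le_mul_of_nonneg_left h1 h2).trans ?_
  have h3 : CK * (s / R) * ‖deriv G c‖ = 2 * ((KK + 2) * ‖deriv G c‖ / (R / 2) * s) := by
    unfold CK
    field_simp
    ring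
  rw [h3]
  have h4 := mul_nonneg h2 hs0.le
  linarith

theorem kob2 {G : ℂ → ℂ} {c : ℂ} {R s : ℝ} (hR : 0 < R) (hs : s ≤ R / 2) (hG : DifferentiableOn ℂ G (ball c R))
    (hi : InjOn G (ball c R)) {w w' : ℂ} (hw : w ∈ ball c s) (hw' : w' ∈ ball c s) :
    ‖G w - G w' - deriv G c * (w - w')‖ ≤ CK * (s / R) * ‖deriv G c‖ * ‖w - w'‖ := by
  have hsub : ball c s ⊆ ball c R := ball_subset_ball (by linarith)
  have hd : ∀ u ∈ ball c s, DifferentiableAt ℂ G u := fun u hu => hG.differentiableAt (isOpen_ball.mem_nhds (hsub hu))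
  have h := Convex.norm_image_sub_le_of_norm_deriv_le (𝕜 := ℂ) (f := fun u => G u - deriv G c * u) (s := ball c s)
    (C := CK * (s / R) * ‖deriv G c‖) (fun u hu => (hd u hu).sub (differentiableAt_id.const_mul _)) (fun u hu => by
      have e : deriv (fun u => G u - deriv G c * u) u = deriv G u - deriv G c := by
        have h1 : HasDerivAt (fun u => G u - deriv G c * u) (deriv G u - deriv G c * 1) u :=
          (hd u hu).hasDerivAt.sub ((hasDerivAt_id u).const_mul _)
        rw [h1.deriv, mul_one]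
      rw [e]
      exact kob1 hR hs hG hi hu) (convex_ball c s) hw' hw
  have e : G w - G w' - deriv G c * (w - w') = (G w - deriv G c * w) - (G w' - deriv G c * w') := by ring
  rw [e]
  exact h

/-- plane branches are injective -/
theorem pbr_inj {a b : Polynomial ℂ} {n : ℕ} {y : ℂ} {R : ℝ} {G : ℂ → ℂ} (h : PBr a b n y R G) : InjOn G (ball y R) := by
  intro w hw w' hw' he
  rw [← h.inv w hw, ← h.inv w' hw', he]

end Pool.Agent.H43.UP
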