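import Pool.Agent.H43.UP.TP
import Pool.Agent.H43.UP.Kob

/-!
# THEOREM UP, module PfS: the push forward of functions on sets where an iterate is injective

`fs_iff`: `fib a b x ≠ 0` (else `a = x b`, by `cop` both constant, against `deg`, `hd`).
`pf_one`: the only element of `S` in the fibre over `gg z` is `z`; the other terms of the finite sum vanish.
`pf_iter`: induction on `n` (`Function.iterate_succ_apply`): `pf (1_S φ) = 1_(gg '' S) φ1` with `φ1 (gg z) = φ z / dg z ^ 2` (`pf_one`; choose `φ1 = pf (1_S φ)`), `gg^[n]` is injective on `gg '' S`, `tD (n+1) z = dg z * tD n (gg z)` (`Finset.prod_range_succ'`).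
`pf_br`: `gg^[n]` is injective on `G '' U`, `tD n (G w) * deriv G w = 1` (chain rule: `deriv` of `gg^[n] ∘ G = id` near `w`; `hasStrictDerivAt_gg` of H61/TT/Area).
-/

set_option autoImplicit false

open Filter Topology Polynomial Metric Set MeasureTheory

namespace Pool.Agent.H43.UP

open Pool.Agent.H61.TT Pool.Agent.H57.CP Pool.Agent.H78.NS

variable {d : ℕ} {a b : Polynomial ℂ}

theorem fs_iff (h : RatD d a b) {x y : ℂ} : y ∈ fs a b x ↔ b.eval y ≠ 0 ∧ gg a b y = x := by
  have hne : fib a b x ≠ 0 := by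
    intro h0
    have h1 : a = C x * b := by
      unfold fib at h0
      exact sub_eq_zero.1 h0
    have h2 : b ∣ a := ⟨C x, by rw [h1, mul_comm]⟩
    have h3 : IsUnit b := (h.cop.symm.isUnit_of_dvd' dvd_rfl h2)
    have h4 : b.natDegree = 0 := natDegree_eq_zero_of_isUnit h3
    have h5 : a.natDegree = 0 := by
      have h6 : a.natDegree ≤ (C x).natDegree + b.natDegree := by
        conv_lhs => rw [h1]
        exact natDegree_mul_le
      rw [natDegree_C, h4] at h6
      omega
    have h6 := h.deg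
    have h7 := h.hd
    rw [h4, h5] at h6
    simp at h6
    omega
  have h1 : y ∈ fs a b x ↔ a.eval y - x * b.eval y = 0 := by
    unfold fs
    rw [Multiset.mem_toFinset, mem_roots hne, IsRoot.def]
    simp [fib]
  rw [h1]
  constructor
  · intro h2
    have hb : b.eval y ≠ 0 := by
      intro h3
      rw [h3, mul_zero, sub_zero] at h2
      obtain ⟨u, v, huv⟩ := h.cop
      have h4 := congrArg (Polynomial.eval y) huv
      rw [eval_add, eval_mul, eval_mul, h2, h3, eval_one] at h4
      simp at h4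
    refine ⟨hb, ?_⟩
    unfold gg
    rw [div_eq_iff hb]
    exact sub_eq_zero.1 h2
  · rintro ⟨hb, h2⟩
    unfold gg at h2
    rw [div_eq_iff hb] at h2
    rw [h2, sub_self]

theorem pf_one (h : RatD d a b) {S : Set ℂ} (hS : ∀ z ∈ S, b.eval z ≠ 0) (hi : InjOn (gg a b) S) (φ : ℂ → ℂ) :
    (∀ z ∈ S, pf a b (S.indicator φ) (gg a b z) = φ z / dg a b z ^ 2) ∧
      ∀ x, x ∉ gg a b '' S → pf a b (S.indicator φ) x = 0 := by
  constructor
  · intro z hz
    unfold pf
    rw [Finset.sum_eq_single z]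
    · rw [indicator_of_mem hz]
    · intro y hy hyz
      have h1 := (fs_iff h).1 hy
      by_cases hyS : y ∈ S
      · exact absurd (hi hyS hz h1.2) hyz
      · rw [indicator_of_notMem hyS, zero_div]
    · intro h1
      exact absurd ((fs_iff h).2 ⟨hS z hz, rfl⟩) h1
  · intro x hx
    unfold pf
    refine Finset.sum_eq_zero fun y hy => ?_
    have h1 := (fs_iff h).1 hy
    have hyS : y ∉ S := fun hyS => hx ⟨y, hyS, h1.2⟩
    rw [indicator_of_notMem hyS, zero_div]

theorem pf_iter (h : RatD d a b) (n : ℕ) {S : Set ℂ} (hS : ∀ z ∈ S, ∀ j < n, b.eval ((gg a b)^[j] z) ≠ 0)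
    (hi : InjOn (gg a b)^[n] S) (φ : ℂ → ℂ) :
    (∀ z ∈ S, (pf a b)^[n] (S.indicator φ) ((gg a b)^[n] z) = φ z / tD a b n z ^ 2) ∧
      ∀ x, x ∉ (gg a b)^[n] '' S → (pf a b)^[n] (S.indicator φ) x = 0 := by
  induction n generalizing S φ with
  | zero =>
    constructor
    · intro z hz
      simp [tD, indicator_of_mem hz]
    · intro x hx
      have hx' : x ∉ S := fun h1 => hx ⟨x, h1, rfl⟩
      simp [indicator_of_notMem hx']
  | succ n ih =>
    have hi1 : InjOn (gg a b) S := by
      intro z hz w hw hzw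
      refine hi hz hw ?_
      rw [Function.iterate_succ_apply, Function.iterate_succ_apply, hzw]
    obtain ⟨h1, h2⟩ := pf_one h (fun z hz => hS z hz 0 (Nat.succ_pos n)) hi1 φ
    obtain ⟨φ1, hφ1⟩ : ∃ φ1, φ1 = pf a b (S.indicator φ) := ⟨_, rfl⟩
    have h3 : pf a b (S.indicator φ) = (gg a b '' S).indicator φ1 := by
      funext x
      by_cases hx : x ∈ gg a b '' S
      · rw [indicator_of_mem hx, hφ1]
      · rw [indicator_of_notMem hx, h2 x hx]
    obtain ⟨h4, h5⟩ := ih (S := gg a b '' S) (fun z hz j hj => by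
        obtain ⟨u, hu, rfl⟩ := hz
        rw [← Function.iterate_succ_apply]
        exact hS u hu (j + 1) (by omega)) (by
        rintro _ ⟨u, hu, rfl⟩ _ ⟨v, hv, rfl⟩ huv
        rw [← Function.iterate_succ_apply, ← Function.iterate_succ_apply] at huv
        rw [hi hu hv huv]) φ1
    rw [Function.iterate_succ_apply, h3]
    constructor
    · intro z hz
      have h6 : tD a b (n + 1) z = dg a b z * tD a b n (gg a b z) := by
        unfold tD
        rw [Finset.prod_range_succ', mul_comm]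
        rfl
      rw [Function.iterate_succ_apply, h4 _ ⟨z, hz, rfl⟩, hφ1, h1 z hz, h6, mul_pow, div_div]
    · intro x hx
      refine h5 x fun hx1 => hx ?_
      obtain ⟨_, ⟨u, hu, rfl⟩, rfl⟩ := hx1
      exact ⟨u, hu, rfl⟩

private theorem der_it {n : ℕ} {z : ℂ} (hb : ∀ j < n, b.eval ((gg a b)^[j] z) ≠ 0) :
    HasDerivAt ((gg a b)^[n]) (tD a b n z) z := by
  induction n with
  | zero =>
    have h1 : tD a b 0 z = 1 := by simp [tD]
    rw [h1]
    exact hasDerivAt_id z
  | succ n ih =>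
    have h1 := ih fun j hj => hb j (by omega)
    have h2 : HasDerivAt (gg a b) (dg a b ((gg a b)^[n] z)) ((gg a b)^[n] z) :=
      (hasStrictDerivAt_gg (hb n (Nat.lt_succ_self n))).hasDerivAt
    have h3 := h2.comp z h1
    have h4 : tD a b (n + 1) z = dg a b ((gg a b)^[n] z) * tD a b n z := by
      unfold tD
      rw [Finset.prod_range_succ, mul_comm]
    rw [h4, Function.iterate_succ']
    exact h3

theorem td_br {n : ℕ} {y : ℂ} {R : ℝ} {G : ℂ → ℂ} (hG : PBr a b n y R G) {w : ℂ} (hw : w ∈ ball y R) :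
    tD a b n (G w) * deriv G w = 1 := by
  have h1 : HasDerivAt ((gg a b)^[n]) (tD a b n (G w)) (G w) := der_it (hG.fin w hw)
  have h2 : HasDerivAt G (deriv G w) w := (hG.diff.differentiableAt (isOpen_ball.mem_nhds hw)).hasDerivAt
  have h3 := h1.comp w h2
  have h4 : ((gg a b)^[n] ∘ G) =ᶠ[𝓝 w] id := by
    filter_upwards [isOpen_ball.mem_nhds hw] with u hu
    exact hG.inv u hu
  exact (h3.congr_of_eventuallyEq h4.symm).unique (hasDerivAt_id w)

theorem pf_br (h : RatD d a b) {n : ℕ} {y : ℂ} {R : ℝ} {G : ℂ → ℂ} (hG : PBr a b n y R G) {U : Set ℂ} (hU : U ⊆ ball y R)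
    (φ : ℂ → ℂ) : (pf a b)^[n] ((G '' U).indicator φ) = U.indicator fun w => φ (G w) * deriv G w ^ 2 := by
  obtain ⟨h1, h2⟩ := pf_iter h n (S := G '' U) (fun z hz j hj => by
      obtain ⟨w, hw, rfl⟩ := hz
      exact hG.fin w (hU hw) j hj) (by
      rintro _ ⟨u, hu, rfl⟩ _ ⟨v, hv, rfl⟩ huv
      rw [hG.inv u (hU hu), hG.inv v (hU hv)] at huv
      rw [huv]) φ
  funext w
  by_cases hw : w ∈ U
  · have h3 := h1 _ ⟨w, hw, rfl⟩
    have h4 := td_br hG (hU hw)
    have h5 : tD a b n (G w) ≠ 0 := fun h6 => by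
      rw [h6, zero_mul] at h4
      exact zero_ne_one h4
    rw [hG.inv w (hU hw)] at h3
    rw [indicator_of_mem hw, h3, div_eq_iff (pow_ne_zero 2 h5)]
    have h6 : deriv G w ^ 2 * tD a b n (G w) ^ 2 = 1 := by
      rw [← mul_pow, mul_comm (deriv G w), h4, one_pow]
    rw [mul_assoc, h6, mul_one]
  · rw [indicator_of_notMem hw]
    refine h2 w fun h3 => hw ?_
    obtain ⟨_, ⟨u, hu, rfl⟩, hu2⟩ := h3
    rw [hG.inv u (hU hu)] at hu2
    rwa [← hu2]

end Pool.Agent.H43.UP
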