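import Pool.Agent.H31.NS.PFI

/-!
# THEOREM UP, sections III and IV: definitions (the interface)

`pf a b` is the push forward (H78/NS/Defs). `PBr`: a branch in the plane of the inverse of `g^n`. `SqC`: a square root chart at a critical point `c`.
`Unf`, `Fld`: unfolded and folded return domains. `Dat`: the set `Z` (backward invariant; the plane if the Julia set is the sphere), the nice set `V`, the return domains `W i` with the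
(first) return times `m i`, the return domain `W i0` of the critical point `c0`. `DD`: the function `D` of section II, `P` its holomorphic part on `V`.
`TO F g`: `F` is a transfer operator (contraction of `L ^ 1`) of `g`.
GOAL (module Fin): for every `K ≥ 1` there is `η > 0` with `Dat .. K η .. → DD .. η .. → False`.
-/

set_option autoImplicit false

open Filter Topology Polynomial Metric Set MeasureTheory

namespace Pool.Agent.H43.UP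

open Pool.Agent.H61.TT Pool.Agent.H57.CP Pool.Agent.H78.NS

/-- a branch in the plane of the inverse of `g^n` on `ball y R` -/
structure PBr (a b : Polynomial ℂ) (n : ℕ) (y : ℂ) (R : ℝ) (G : ℂ → ℂ) : Prop where
  diff : DifferentiableOn ℂ G (ball y R)
  fin : ∀ w ∈ ball y R, ∀ j < n, b.eval ((gg a b)^[j] (G w)) ≠ 0
  inv : ∀ w ∈ ball y R, (gg a b)^[n] (G w) = w

/-- a square root chart at the critical point `c` -/
structure SqC (a b : Polynomial ℂ) (c : ℂ) (r : ℝ) (χ : ℂ → ℂ) : Prop where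
  hr : 0 < r
  diff : DifferentiableOn ℂ χ (ball c r)
  inj : InjOn χ (ball c r)
  zero : χ c = 0
  fin : ∀ z ∈ ball c r, b.eval z ≠ 0
  sq : ∀ z ∈ ball c r, gg a b z = gg a b c + χ z ^ 2

/-- an unfolded return domain: `W = G '' V`, `G` a branch on `ball c0 R`, `2 ρ ≤ η R` -/
def Unf (a b : Polynomial ℂ) (V : Set ℂ) (c0 : ℂ) (ρ η : ℝ) (m : ℕ) (W : Set ℂ) : Prop :=
  ∃ (R : ℝ) (G : ℂ → ℂ), 2 * ρ ≤ η * R ∧ PBr a b m c0 R G ∧ W = G '' V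

/-- the data of a folded return domain `W`: first fold at the time `k1` at `c1`, next fold (or the root, then `W2 = V`) at the time `k1 + 1 + n2` at `c2`:
`W = ψ '' W1`, `ψ` a branch of `g^(-k1)` on `ball c1 r1`, `gg '' W1 = G '' W2`, `G` a branch of `g^(-n2)` on `ball c2 r2`, `G y = gg c1` -/
structure FldD (a b : Polynomial ℂ) (K η : ℝ) (m : ℕ) (W : Set ℂ) (k1 n2 : ℕ) (c1 c2 y : ℂ) (r1 s1 r2 s2 σ2 : ℝ)
    (ψ G χ1 χ2 : ℂ → ℂ) (W1 W2 : Set ℂ) : Prop where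
  km : k1 + 1 + n2 ≤ m
  hs1 : s1 ≤ η * r1
  hs2 : s2 ≤ η * r2
  hσ : 0 < σ2
  hK : s2 ≤ K * σ2
  psi : PBr a b k1 c1 r1 ψ
  sq1 : SqC a b c1 r1 χ1
  hW : W = ψ '' W1
  W1s : W1 ⊆ ball c1 s1
  br : PBr a b n2 c2 r2 G
  hy : ‖y - c2‖ ≤ η * σ2
  gy : G y = gg a b c1
  fW : gg a b '' W1 = G '' W2
  sat : ∀ u ∈ ball c1 r1, gg a b u ∈ G '' W2 → u ∈ W1
  W2o : IsOpen W2
  W2s : W2 ⊆ ball c2 s2
  W2b : ball c2 σ2 ⊆ W2
  sq2 : SqC a b c2 r2 χ2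

/-- a folded return domain -/
def Fld (a b : Polynomial ℂ) (K η : ℝ) (m : ℕ) (W : Set ℂ) : Prop :=
  ∃ (k1 n2 : ℕ) (c1 c2 y : ℂ) (r1 s1 r2 s2 σ2 : ℝ) (ψ G χ1 χ2 : ℂ → ℂ) (W1 W2 : Set ℂ),
    FldD a b K η m W k1 n2 c1 c2 y r1 s1 r2 s2 σ2 ψ G χ1 χ2 W1 W2

/-- the nice set and its return domains -/
structure Dat (d : ℕ) (a b : Polynomial ℂ) (Z V : Set ℂ) (c0 : ℂ) (ρ K η : ℝ) (ι : Type) (W : ι → Set ℂ) (m : ι → ℕ)
    (i0 : ι) : Prop where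
  rt : RatD d a b
  Zm : MeasurableSet Z
  Zi : ∀ y, b.eval y ≠ 0 → gg a b y ∈ Z → y ∈ Z
  Vo : IsOpen V
  VZ : V ⊆ Z
  hρ : 0 < ρ
  Vb : ball c0 ρ ⊆ V
  Vs : V ⊆ ball c0 (2 * ρ)
  Wo : ∀ i, IsOpen (W i)
  WV : ∀ i, W i ⊆ V
  Wd : ∀ i j, i ≠ j → Disjoint (W i) (W j)
  m0 : ∀ i, 0 < m i
  fin : ∀ i, ∀ z ∈ W i, ∀ j < m i, b.eval ((gg a b)^[j] z) ≠ 0
  nr : ∀ i, ∀ z ∈ W i, ∀ j, 0 < j → j < m i → (gg a b)^[j] z ∉ V
  ret : ∀ i, ∀ z ∈ W i, (gg a b)^[m i] z ∈ V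
  cov : ∀ z ∈ V, ∀ n, 0 < n → (∀ j < n, b.eval ((gg a b)^[j] z) ≠ 0) → (gg a b)^[n] z ∈ V → ∃ i, z ∈ W i
  sm : ∀ i, ∀ z ∈ W i, ∀ z' ∈ W i, ‖z' - z‖ < η * infDist z Vᶜ
  uf : ∀ i, Unf a b V c0 ρ η (m i) (W i) ∨ Fld a b K η (m i) (W i)
  f0 : Fld a b K η (m i0) (W i0)
  c0W : c0 ∈ W i0
  W0s : W i0 ⊆ ball c0 (ρ / 2)

/-- the function `D` of section II and its holomorphic part `P` on `V`; `C0` is the return domain of `c0` -/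
structure DD (a b : Polynomial ℂ) (Z V C0 : Set ℂ) (c0 : ℂ) (ρ η : ℝ) (D P : ℂ → ℂ) : Prop where
  Di : IntegrableOn D Z
  Pd : DifferentiableOn ℂ P V
  Pn : P c0 ≠ 0
  hV : ∫⁻ w in V, ‖D w - P w‖ₑ ≤ ENNReal.ofReal (η * ‖P c0‖ * ρ ^ 2)
  hC : ∫⁻ w in C0, ‖D w - P w‖ₑ ≤ ENNReal.ofReal (η * ‖P c0‖) * volume C0
  he : ∫⁻ w in Z, ‖D w - pf a b D w‖ₑ ≤ ENNReal.ofReal (η * ‖P c0‖) * volume C0

/-- `F` is a transfer operator of `g` -/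
structure TO (F : (ℂ → ℂ) → ℂ → ℂ) (b : Polynomial ℂ) (g : ℂ → ℂ) : Prop where
  add : ∀ φ ψ : ℂ → ℂ, F (fun z => φ z + ψ z) = fun z => F φ z + F ψ z
  smul : ∀ (c : ℂ) (φ : ℂ → ℂ), F (fun z => c * φ z) = fun z => c * F φ z
  int : ∀ φ : ℂ → ℂ, Integrable φ → Integrable (F φ)
  le : ∀ φ : ℂ → ℂ, Integrable φ → ∫ x, ‖F φ x‖ ≤ ∫ x, ‖φ x‖
  supp : ∀ (φ : ℂ → ℂ) (x : ℂ), F φ x ≠ 0 → ∃ y, φ y ≠ 0 ∧ b.eval y ≠ 0 ∧ g y = x

end Pool.Agent.H43.UP
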