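import Pool.Agent.H43.UP.Defs

/-!
# THEOREM UP, module Smo: a holomorphic function is almost constant on most small sets

PROOF. `δ z = infDist z Vᶜ`. For `i ∈ I` with `W i ≠ ∅` choose `z i ∈ W i` (if `W i = ∅` the index is good with `c = 0`), `d i = δ (z i) > 0`, `B i = ball (z i) (d i / 2) ⊆ V`, `W i ⊆ ball (z i) (η d i)`.
OVERLAP: for `w ∈ V`: `∑_(i : w ∈ B i) vol (W i) / (d i) ^ 2 ≤ 9 π`: `w ∈ B i` gives `|δ w - d i| ≤ d i / 2` (`δ` is 1-Lipschitz), so `(2/3) δ w ≤ d i ≤ 2 δ w`, `W i ⊆ ball w ((1/2 + η) d i) ⊆ ball w (2 (1/2+η) δ w) ⊆ ball w (4/3 * δ w)`, the `W i` are disjoint, so `∑ vol (W i) ≤ π (16/9) (δ w) ^ 2`, divide by `(d i) ^ 2 ≥ (4/9) (δ w) ^ 2`.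
So `∑_i vol (W i) / (d i) ^ 2 ∫_(B i) ‖P‖ = ∫_V ‖P w‖ ∑_(i : w ∈ B i) vol (W i) / (d i)^2 ≤ 9 π ∫_V ‖P‖`. BAD: `Λ ∫_(W i) ‖P‖ < vol (W i) / (d i)^2 ∫_(B i) ‖P‖`; the sum over the bad `i` of `∫_(W i) ‖P‖` is at most `(9 π / Λ) ∫_V ‖P‖`.
GOOD (not bad): `M = 16 / (π (d i)^2) ∫_(B i) ‖P‖` bounds `‖P‖` on `ball (z i) (d i / 4)` (mean value, `area_mean`), so for `w ∈ ball (z i) (η d i)`: `‖P w - P (z i)‖ ≤ 2 M * (η d i) / (d i / 4) = 8 η M` (Schwarz: `Complex.dist_le_div_mul_dist_of_mapsTo_ball`), so `∫_(W i) ‖P - P (z i)‖ ≤ vol (W i) * 8 η M ≤ (128 η Λ / π) ∫_(W i) ‖P‖`, and `128 / π ≤ 41`.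
`c i = P (z i)`: `‖c i‖ vol (W i) ≤ ∫_(W i) ‖P‖ + ∫_(W i) ‖P - c i‖ ≤ 2 ∫_(W i) ‖P‖`.
-/

set_option autoImplicit false

open Filter Topology Polynomial Metric Set MeasureTheory

namespace Pool.Agent.H43.UP

/-- Area mean value inequality. -/
private theorem smo_amv {F : ℂ → ℂ} {x : ℂ} {r : ℝ} (hF : DifferentiableOn ℂ F (ball x r)) :
    volume (ball (0 : ℂ) r) * ‖F x‖ₑ ≤ ∫⁻ z in ball x r, ‖F z‖ₑ := by
  obtain ⟨G, hG⟩ : ∃ G : ℂ → ENNReal, G = (ball (0 : ℂ) r).indicator (fun w => ‖F (x + w)‖ₑ) :=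
    ⟨_, rfl⟩
  have hsub : ∀ w ∈ ball (0 : ℂ) r, x + w ∈ ball x r := by
    intro w hw
    rw [mem_ball_zero_iff] at hw
    rw [mem_ball, dist_eq_norm, add_sub_cancel_left]
    exact hw
  have hcont : ContinuousOn (fun w => F (x + w)) (ball (0 : ℂ) r) :=
    hF.continuousOn.comp (by fun_prop) hsub
  have hGm : Measurable G := by
    have h1 : ContinuousOn (fun w => ‖F (x + w)‖ₑ) (ball (0 : ℂ) r) := hcont.enorm
    classical
    have h2 : G = (ball (0 : ℂ) r).piecewise (fun w => ‖F (x + w)‖ₑ) (fun _ => 0) := by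
      rw [hG]
      exact (Set.piecewise_eq_indicator).symm
    rw [h2]
    exact h1.measurable_piecewise continuousOn_const measurableSet_ball
  have hI : ∫⁻ z in ball x r, ‖F z‖ₑ = ∫⁻ w, G w := by
    rw [← lintegral_indicator measurableSet_ball,
      ← lintegral_add_left_eq_self (μ := (volume : Measure ℂ))
        ((ball x r).indicator fun z => ‖F z‖ₑ) x]
    refine lintegral_congr fun w => ?_
    rw [hG]
    by_cases h : w ∈ ball (0 : ℂ) r
    · rw [indicator_of_mem (hsub w h), indicator_of_mem h]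
    · have h' : x + w ∉ ball x r := by
        intro h1
        apply h
        rw [mem_ball, dist_eq_norm, add_sub_cancel_left] at h1
        rwa [mem_ball_zero_iff]
      rw [indicator_of_notMem h', indicator_of_notMem h]
  have hrot : ∀ θ : ℝ, ∫⁻ w, G (Complex.exp (θ * Complex.I) * w) = ∫⁻ w, G w := by
    intro θ
    have hom : ‖Complex.exp (θ * Complex.I)‖ = 1 := Complex.norm_exp_ofReal_mul_I θ
    have h1 : MeasurePreserving (fun w : ℂ => Complex.exp (θ * Complex.I) * w) volume volume := by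
      let a : Circle := ⟨Complex.exp (θ * Complex.I), mem_sphere_zero_iff_norm.mpr hom⟩
      exact (rotation a).measurePreserving
    exact h1.lintegral_comp hGm
  have hpt : ∀ w ∈ ball (0 : ℂ) r, ENNReal.ofReal (2 * Real.pi) * ‖F x‖ₑ ≤
      ∫⁻ θ in Ioc 0 (2 * Real.pi), G (Complex.exp ((θ : ℝ) * Complex.I) * w) := by
    intro w hw
    rw [mem_ball_zero_iff] at hw
    have habs : |‖w‖| = ‖w‖ := abs_of_nonneg (norm_nonneg w)
    have hcl : DiffContOnCl ℂ F (ball x |‖w‖|) := by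
      rw [habs]
      refine (hF.mono ?_).diffContOnCl
      refine closure_ball_subset_closedBall.trans ?_
      exact closedBall_subset_ball hw
    have h1 : Real.circleAverage F x ‖w‖ = F x := hcl.circleAverage
    rw [Real.circleAverage_eq_integral_add (Complex.arg w)] at h1
    have h2 : (∫ θ in (0 : ℝ)..2 * Real.pi, F (circleMap x ‖w‖ (θ + Complex.arg w))) =
        (2 * Real.pi) • F x := by
      rw [← h1, smul_smul, mul_inv_cancel₀ (by positivity), one_smul]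
    have h3 : ∀ θ : ℝ, circleMap x ‖w‖ (θ + Complex.arg w) = x + Complex.exp (θ * Complex.I) * w := by
      intro θ
      rw [circleMap]
      congr 1
      have h4 : (w : ℂ) = ‖w‖ * Complex.exp (Complex.arg w * Complex.I) :=
        (Complex.norm_mul_exp_arg_mul_I w).symm
      conv_rhs => rw [h4]
      push_cast
      rw [add_mul, Complex.exp_add]
      ring
    have h5 : ∀ θ : ℝ, G (Complex.exp (θ * Complex.I) * w) =
        ‖F (circleMap x ‖w‖ (θ + Complex.arg w))‖ₑ := by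
      intro θ
      rw [h3, hG, indicator_of_mem]
      rw [mem_ball_zero_iff, norm_mul, Complex.norm_exp_ofReal_mul_I, one_mul]
      exact hw
    calc ENNReal.ofReal (2 * Real.pi) * ‖F x‖ₑ = ‖(2 * Real.pi) • F x‖ₑ := by
          rw [enorm_smul, Real.enorm_eq_ofReal (by positivity)]
      _ = ‖∫ θ in (0 : ℝ)..2 * Real.pi, F (circleMap x ‖w‖ (θ + Complex.arg w))‖ₑ := by rw [h2]
      _ = ‖∫ θ in Ioc 0 (2 * Real.pi), F (circleMap x ‖w‖ (θ + Complex.arg w))‖ₑ := by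
          rw [intervalIntegral.integral_of_le (by positivity)]
      _ ≤ ∫⁻ θ in Ioc 0 (2 * Real.pi), ‖F (circleMap x ‖w‖ (θ + Complex.arg w))‖ₑ :=
          enorm_integral_le_lintegral_enorm _
      _ = _ := by
          refine lintegral_congr fun θ => ?_
          rw [h5]
  have hmeas : Measurable (Function.uncurry fun (θ : ℝ) (w : ℂ) =>
      G (Complex.exp ((θ : ℝ) * Complex.I) * w)) := by
    refine hGm.comp ?_
    have : Continuous (fun q : ℝ × ℂ => Complex.exp ((q.1 : ℝ) * Complex.I) * q.2) := by fun_prop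
    exact this.measurable
  have hpi : (0 : ℝ) < 2 * Real.pi := by positivity
  have hfub : ENNReal.ofReal (2 * Real.pi) * ∫⁻ w, G w =
      ∫⁻ w, ∫⁻ θ in Ioc 0 (2 * Real.pi), G (Complex.exp ((θ : ℝ) * Complex.I) * w) := by
    rw [← lintegral_lintegral_swap hmeas.aemeasurable]
    simp only [hrot]
    rw [lintegral_const, Measure.restrict_apply_univ, Real.volume_Ioc, sub_zero, mul_comm]
  have hkey : ENNReal.ofReal (2 * Real.pi) * (volume (ball (0 : ℂ) r) * ‖F x‖ₑ) ≤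
      ENNReal.ofReal (2 * Real.pi) * ∫⁻ w, G w := by
    rw [hfub]
    calc ENNReal.ofReal (2 * Real.pi) * (volume (ball (0 : ℂ) r) * ‖F x‖ₑ)
        = ∫⁻ _w in ball (0 : ℂ) r, ENNReal.ofReal (2 * Real.pi) * ‖F x‖ₑ := by
          rw [lintegral_const, Measure.restrict_apply_univ]
          ring
      _ ≤ ∫⁻ w in ball (0 : ℂ) r, ∫⁻ θ in Ioc 0 (2 * Real.pi),
            G (Complex.exp ((θ : ℝ) * Complex.I) * w) :=
          setLIntegral_mono' measurableSet_ball hpt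
      _ ≤ _ := setLIntegral_le_lintegral _ _
  rw [hI]
  exact (ENNReal.mul_le_mul_iff_right (by simpa using hpi) ENNReal.ofReal_ne_top).mp hkey

/-- mean value inequality for holomorphic functions -/
theorem area_mean {P : ℂ → ℂ} {z : ℂ} {r : ℝ} (hr : 0 < r) (hP : DifferentiableOn ℂ P (ball z r)) (hi : IntegrableOn P (ball z r)) :
    ‖P z‖ * (Real.pi * r ^ 2) ≤ ∫ w in ball z r, ‖P w‖ := by
  have h1 := smo_amv hP
  rw [← ofReal_integral_norm_eq_lintegral_enorm hi] at h1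
  have h2 : volume (ball (0 : ℂ) r) = ENNReal.ofReal (Real.pi * r ^ 2) := by
    rw [Complex.volume_ball, mul_comm, ENNReal.ofReal_mul Real.pi_pos.le, ENNReal.ofReal_pow hr.le]
    congr 1
    rw [ENNReal.ofReal, Real.toNNReal_of_nonneg Real.pi_pos.le]
    rfl
  rw [h2, ← ofReal_norm, ← ENNReal.ofReal_mul (by positivity),
    ENNReal.ofReal_le_ofReal_iff (integral_nonneg fun _ => norm_nonneg _)] at h1
  linarith

/-- the volume of a ball, as a real number -/
private theorem smo_vol (z : ℂ) {r : ℝ} (hr : 0 ≤ r) : volume.real (ball z r) = Real.pi * r ^ 2 := by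
  rw [Measure.real, Complex.volume_ball, ENNReal.toReal_mul, ENNReal.toReal_pow, ENNReal.toReal_ofReal hr, mul_comm]
  rfl

open Classical in
/-- the overlap of the balls -/
private theorem smo_ov {ι : Type} [DecidableEq ι] {V : Set ℂ} (hVo : IsOpen V) (hne : (Vᶜ).Nonempty) {η : ℝ}
    (hη1 : η ≤ 1 / 8) (J : Finset ι) {W : ι → Set ℂ} (Wm : ∀ i, MeasurableSet (W i))
    (Wd : ∀ i j, i ≠ j → Disjoint (W i) (W j)) (z : ι → ℂ) (hzV : ∀ i ∈ J, z i ∈ V)
    (hWb : ∀ i ∈ J, W i ⊆ ball (z i) (η * infDist (z i) Vᶜ)) {w : ℂ} (hw : w ∈ V) :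
    ∑ i ∈ J.filter (fun i => w ∈ ball (z i) (infDist (z i) Vᶜ / 2)), volume.real (W i) / (infDist (z i) Vᶜ) ^ 2 ≤
      9 * Real.pi := by
  have hcl : IsClosed Vᶜ := hVo.isClosed_compl
  have hpos : ∀ u ∈ V, 0 < infDist u Vᶜ := fun u hu => (hcl.notMem_iff_infDist_pos hne).1 (by simpa using hu)
  obtain ⟨δ, hδ⟩ : ∃ δ, δ = infDist w Vᶜ := ⟨_, rfl⟩
  have hδ0 : 0 < δ := hδ ▸ hpos w hw
  obtain ⟨J', hJ'⟩ : ∃ J', J' = J.filter (fun i => w ∈ ball (z i) (infDist (z i) Vᶜ / 2)) := ⟨_, rfl⟩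
  rw [← hJ']
  have hd : ∀ i ∈ J', 2 / 3 * δ ≤ infDist (z i) Vᶜ ∧ infDist (z i) Vᶜ ≤ 2 * δ ∧ dist w (z i) < infDist (z i) Vᶜ / 2 := by
    intro i hi
    rw [hJ', Finset.mem_filter, mem_ball] at hi
    have h1 : infDist w Vᶜ ≤ infDist (z i) Vᶜ + dist w (z i) := infDist_le_infDist_add_dist
    have h2 : infDist (z i) Vᶜ ≤ infDist w Vᶜ + dist (z i) w := infDist_le_infDist_add_dist
    rw [dist_comm (z i) w] at h2
    rw [← hδ] at h1 h2
    have h3 := hi.2
    refine ⟨by linarith, by linarith, h3⟩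
  have hsub : (⋃ i ∈ J', W i) ⊆ ball w (5 / 4 * δ) := by
    intro u hu
    rw [mem_iUnion₂] at hu
    obtain ⟨i, hi, hu⟩ := hu
    obtain ⟨h1, h2, h3⟩ := hd i hi
    have hiJ : i ∈ J := by
      rw [hJ'] at hi
      exact (Finset.mem_filter.1 hi).1
    have h4 := hWb i hiJ hu
    rw [mem_ball] at h4 ⊢
    have h5 : dist u w ≤ dist u (z i) + dist w (z i) := by
      rw [dist_comm w (z i)]
      exact dist_triangle _ _ _
    have h6 : η * infDist (z i) Vᶜ ≤ 1 / 8 * infDist (z i) Vᶜ := mul_le_mul_of_nonneg_right hη1 infDist_nonneg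
    linarith
  have hvol : ∑ i ∈ J', volume.real (W i) ≤ Real.pi * (5 / 4 * δ) ^ 2 := by
    rw [← smo_vol w (by positivity : (0 : ℝ) ≤ 5 / 4 * δ)]
    have hfin : ∀ i ∈ J', volume (W i) ≠ ⊤ := by
      intro i hi
      have h1 : W i ⊆ ball w (5 / 4 * δ) := fun u hu => hsub (mem_iUnion₂.2 ⟨i, hi, hu⟩)
      exact ne_top_of_le_ne_top (measure_ball_lt_top.ne) (measure_mono h1)
    rw [← measureReal_biUnion_finset (fun i _ j _ hij => Wd i j hij) (fun i _ => Wm i) hfin]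
    exact measureReal_mono hsub measure_ball_lt_top.ne
  have hle : ∀ i ∈ J', volume.real (W i) / (infDist (z i) Vᶜ) ^ 2 ≤ 9 / 4 * (volume.real (W i) / δ ^ 2) := by
    intro i hi
    obtain ⟨h1, -, -⟩ := hd i hi
    have h2 : (2 / 3 * δ) ^ 2 ≤ (infDist (z i) Vᶜ) ^ 2 := pow_le_pow_left₀ (by positivity) h1 2
    have h3 : 0 ≤ volume.real (W i) := measureReal_nonneg
    calc volume.real (W i) / (infDist (z i) Vᶜ) ^ 2 ≤ volume.real (W i) / (2 / 3 * δ) ^ 2 :=
          div_le_div_of_nonneg_left h3 (by positivity) h2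
      _ = 9 / 4 * (volume.real (W i) / δ ^ 2) := by
          rw [mul_pow, div_mul_eq_div_div]
          ring
  refine (Finset.sum_le_sum hle).trans ?_
  rw [← Finset.mul_sum, ← Finset.sum_div]
  have h4 : (∑ i ∈ J', volume.real (W i)) / δ ^ 2 ≤ Real.pi * (5 / 4) ^ 2 := by
    rw [div_le_iff₀ (by positivity)]
    refine hvol.trans (le_of_eq (by ring))
  have := Real.pi_pos
  nlinarith

open Classical in
/-- the integral of the overlap -/
private theorem smo_int {ι : Type} [DecidableEq ι] {V : Set ℂ} (hVo : IsOpen V) (hne : (Vᶜ).Nonempty) {P : ℂ → ℂ}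
    (hi : IntegrableOn P V) {η : ℝ}
    (hη1 : η ≤ 1 / 8) (J : Finset ι) {W : ι → Set ℂ} (Wm : ∀ i, MeasurableSet (W i))
    (Wd : ∀ i j, i ≠ j → Disjoint (W i) (W j)) (z : ι → ℂ) (hzV : ∀ i ∈ J, z i ∈ V)
    (hWb : ∀ i ∈ J, W i ⊆ ball (z i) (η * infDist (z i) Vᶜ)) (hB : ∀ i ∈ J, ball (z i) (infDist (z i) Vᶜ / 2) ⊆ V) :
    ∑ i ∈ J, volume.real (W i) / (infDist (z i) Vᶜ) ^ 2 * ∫ w in ball (z i) (infDist (z i) Vᶜ / 2), ‖P w‖ ≤
      9 * Real.pi * ∫ w in V, ‖P w‖ := by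
  have hin : IntegrableOn (fun w => ‖P w‖) V := hi.norm
  have h1 : ∀ i ∈ J, volume.real (W i) / (infDist (z i) Vᶜ) ^ 2 * ∫ w in ball (z i) (infDist (z i) Vᶜ / 2), ‖P w‖ =
      ∫ w in V, (ball (z i) (infDist (z i) Vᶜ / 2)).indicator
        (fun w => volume.real (W i) / (infDist (z i) Vᶜ) ^ 2 * ‖P w‖) w := by
    intro i hi
    rw [setIntegral_indicator measurableSet_ball, inter_eq_self_of_subset_right (hB i hi), integral_const_mul]
  rw [Finset.sum_congr rfl h1, ← integral_finset_sum, ← integral_const_mul]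
  · refine setIntegral_mono_on ?_ (hin.const_mul _) hVo.measurableSet ?_
    · refine integrable_finset_sum _ fun i _ => ?_
      exact (hin.const_mul _).indicator measurableSet_ball
    · intro w hw
      have h2 := smo_ov hVo hne hη1 J Wm Wd z hzV hWb hw
      have h3 : ∑ i ∈ J, (ball (z i) (infDist (z i) Vᶜ / 2)).indicator
          (fun w => volume.real (W i) / (infDist (z i) Vᶜ) ^ 2 * ‖P w‖) w =
          (∑ i ∈ J.filter (fun i => w ∈ ball (z i) (infDist (z i) Vᶜ / 2)),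
            volume.real (W i) / (infDist (z i) Vᶜ) ^ 2) * ‖P w‖ := by
        rw [Finset.sum_filter, Finset.sum_mul]
        refine Finset.sum_congr rfl fun i _ => ?_
        by_cases h : w ∈ ball (z i) (infDist (z i) Vᶜ / 2)
        · rw [indicator_of_mem h, if_pos h]
        · rw [indicator_of_notMem h, if_neg h, zero_mul]
      rw [h3]
      exact mul_le_mul_of_nonneg_right h2 (norm_nonneg _)
  · intro i _
    exact (hin.const_mul _).indicator measurableSet_ball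

/-- a good set -/
private theorem smo_good {P : ℂ → ℂ} {z : ℂ} {D η Λ : ℝ} (hD : 0 < D) (hη : 0 < η) (hη1 : η ≤ 1 / 8) (hΛ : 0 < Λ)
    (hηΛ : 41 * Λ * η ≤ 1) (hP : DifferentiableOn ℂ P (ball z (D / 2))) (hi : IntegrableOn P (ball z (D / 2)))
    {W : Set ℂ} (Wm : MeasurableSet W) (hW : W ⊆ ball z (η * D))
    (hg : volume.real W / D ^ 2 * ∫ w in ball z (D / 2), ‖P w‖ ≤ Λ * ∫ w in W, ‖P w‖) :
    ∫ w in W, ‖P w - P z‖ ≤ 41 * Λ * η * ∫ w in W, ‖P w‖ ∧ ‖P z‖ * (volume W).toReal ≤ 2 * ∫ w in W, ‖P w‖ := by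
  have hpi := Real.pi_pos
  have hpi2 := Real.pi_gt_d2
  obtain ⟨Q, hQ⟩ : ∃ Q, Q = ∫ w in ball z (D / 2), ‖P w‖ := ⟨_, rfl⟩
  have hQ0 : 0 ≤ Q := by rw [hQ]; exact integral_nonneg fun _ => norm_nonneg _
  obtain ⟨v, hv⟩ : ∃ v, v = volume.real W := ⟨_, rfl⟩
  have hv0 : 0 ≤ v := by rw [hv]; exact measureReal_nonneg
  obtain ⟨T, hT⟩ : ∃ T, T = ∫ w in W, ‖P w‖ := ⟨_, rfl⟩
  have hT0 : 0 ≤ T := by rw [hT]; exact integral_nonneg fun _ => norm_nonneg _
  rw [← hQ, ← hv, ← hT] at hg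
  have hWB : W ⊆ ball z (D / 2) := hW.trans (ball_subset_ball (by nlinarith))
  have hWf : volume W ≠ ⊤ := ne_top_of_le_ne_top measure_ball_lt_top.ne (measure_mono hW)
  -- the bound
  have hM : ∀ u ∈ ball z (D / 4), ‖P u‖ ≤ 16 / (Real.pi * D ^ 2) * Q := by
    intro u hu
    have hsub : ball u (D / 4) ⊆ ball z (D / 2) := by
      intro y hy
      rw [mem_ball] at hu hy ⊢
      have := dist_triangle y u z
      linarith
    have h1 := area_mean (by positivity : 0 < D / 4) (hP.mono hsub) (hi.mono_set hsub)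
    have h2 : ∫ w in ball u (D / 4), ‖P w‖ ≤ Q := by
      rw [hQ]
      exact setIntegral_mono_set hi.norm (Filter.Eventually.of_forall fun _ => norm_nonneg _) hsub.eventuallyLE
    have h3 := h1.trans h2
    rw [div_mul_eq_mul_div, le_div_iff₀ (by positivity)]
    nlinarith
  obtain ⟨M, hMd⟩ : ∃ M, M = 16 / (Real.pi * D ^ 2) * Q := ⟨_, rfl⟩
  rw [← hMd] at hM
  have hM0 : 0 ≤ M := by rw [hMd]; positivity
  have hz4 : z ∈ ball z (D / 4) := mem_ball_self (by positivity)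
  have hosc : ∀ w ∈ W, ‖P w - P z‖ ≤ 8 * η * M := by
    intro w hw
    have hw1 := hW hw
    have hw2 : w ∈ ball z (D / 4) := by
      rw [mem_ball] at hw1 ⊢
      nlinarith
    have h1 := Complex.dist_le_div_mul_dist_of_mapsTo_ball (f := P) (c := z) (R₁ := D / 4) (R₂ := 2 * M)
      (hP.mono (ball_subset_ball (by linarith))) (by
        intro u hu
        rw [mem_closedBall, dist_eq_norm]
        have h2 := norm_sub_le (P u) (P z)
        have h3 := hM u hu
        have h4 := hM z hz4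
        linarith) hw2
    rw [dist_eq_norm] at h1
    rw [mem_ball] at hw1
    refine h1.trans ?_
    calc 2 * M / (D / 4) * dist w z ≤ 2 * M / (D / 4) * (η * D) :=
          mul_le_mul_of_nonneg_left hw1.le (by positivity)
      _ = 8 * η * M := by
          field_simp
          ring
  have hPi : IntegrableOn P W := hi.mono_set hWB
  have hci : IntegrableOn (fun _ : ℂ => P z) W := integrableOn_const hWf
  have hdi : IntegrableOn (fun w => ‖P w - P z‖) W := (hPi.sub hci).norm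
  have hint : ∫ w in W, ‖P w - P z‖ ≤ v * (8 * η * M) := by
    calc ∫ w in W, ‖P w - P z‖ ≤ ∫ _w in W, 8 * η * M :=
          setIntegral_mono_on hdi (integrableOn_const hWf) Wm hosc
      _ = v * (8 * η * M) := by rw [setIntegral_const, smul_eq_mul, hv]
  have hkey : v * (8 * η * M) ≤ 41 * Λ * η * T := by
    have e : v * (8 * η * M) = 128 / Real.pi * η * (v / D ^ 2 * Q) := by
      rw [hMd]
      field_simp
      ring
    rw [e]
    have h1 : 128 / Real.pi ≤ 41 := by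
      rw [div_le_iff₀ hpi]
      linarith
    have h2 : 0 ≤ v / D ^ 2 * Q := by positivity
    calc 128 / Real.pi * η * (v / D ^ 2 * Q) ≤ 41 * η * (v / D ^ 2 * Q) :=
          mul_le_mul_of_nonneg_right (mul_le_mul_of_nonneg_right h1 hη.le) h2
      _ ≤ 41 * η * (Λ * T) := mul_le_mul_of_nonneg_left hg (by positivity)
      _ = _ := by ring
  rw [← hT]
  refine ⟨hint.trans hkey, ?_⟩
  have h3 : ‖P z‖ * v ≤ T + ∫ w in W, ‖P w - P z‖ := by
    rw [hT, ← integral_add hPi.norm hdi]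
    calc ‖P z‖ * v = ∫ _w in W, ‖P z‖ := by rw [setIntegral_const, smul_eq_mul, hv, mul_comm]
      _ ≤ ∫ w in W, (‖P w‖ + ‖P w - P z‖) := by
          refine setIntegral_mono_on (integrableOn_const hWf) (hPi.norm.add hdi) Wm fun w _ => ?_
          have h4 : P z = P w - (P w - P z) := by ring
          conv_lhs => rw [h4]
          exact norm_sub_le _ _
  have h4 : 41 * Λ * η * T ≤ 1 * T := mul_le_mul_of_nonneg_right hηΛ hT0
  change ‖P z‖ * volume.real W ≤ 2 * T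
  rw [← hv]
  linarith [hint.trans hkey]

theorem smo {ι : Type} [DecidableEq ι] {V : Set ℂ} (hV : IsOpen V) (hVn : V ≠ univ) {P : ℂ → ℂ} (hP : DifferentiableOn ℂ P V) (hi : IntegrableOn P V)
    {η Λ : ℝ} (hη : 0 < η) (hη1 : η ≤ 1 / 8) (hΛ : 0 < Λ) (hηΛ : 41 * Λ * η ≤ 1) (I : Finset ι) {W : ι → Set ℂ}
    (Wm : ∀ i, MeasurableSet (W i)) (WV : ∀ i, W i ⊆ V) (Wd : ∀ i j, i ≠ j → Disjoint (W i) (W j))
    (sm : ∀ i, ∀ z ∈ W i, ∀ z' ∈ W i, ‖z' - z‖ < η * infDist z Vᶜ) :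
    ∃ (Gd : Finset ι) (c : ι → ℂ), Gd ⊆ I ∧ ∑ i ∈ I \ Gd, ∫ w in W i, ‖P w‖ ≤ 9 * Real.pi / Λ * ∫ w in V, ‖P w‖ ∧
      ∀ i ∈ Gd, ∫ w in W i, ‖P w - c i‖ ≤ 41 * Λ * η * ∫ w in W i, ‖P w‖ ∧
        ‖c i‖ * (volume (W i)).toReal ≤ 2 * ∫ w in W i, ‖P w‖ := by
  classical
  have hiP := hi
  have hne : (Vᶜ).Nonempty := nonempty_compl.2 hVn
  have hcl : IsClosed Vᶜ := hV.isClosed_compl
  have hpos : ∀ u ∈ V, 0 < infDist u Vᶜ := fun u hu => (hcl.notMem_iff_infDist_pos hne).1 (by simpa using hu)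
  have hball : ∀ u, ball u (infDist u Vᶜ / 2) ⊆ V := by
    intro u y hy
    by_contra hyV
    have h1 : infDist u Vᶜ ≤ dist u y := infDist_le_dist_of_mem hyV
    rw [mem_ball, dist_comm] at hy
    have h2 : 0 ≤ infDist u Vᶜ := infDist_nonneg
    linarith
  obtain ⟨z, hz⟩ : ∃ z : ι → ℂ, ∀ i, (W i).Nonempty → z i ∈ W i :=
    ⟨fun i => if h : (W i).Nonempty then h.choose else 0, fun i h => by
      simp only [dif_pos h]
      exact h.choose_spec⟩
  have hWb : ∀ i, (W i).Nonempty → W i ⊆ ball (z i) (η * infDist (z i) Vᶜ) := by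
    intro i hne w hw
    rw [mem_ball, dist_eq_norm]
    exact sm i _ (hz i hne) _ hw
  obtain ⟨J, hJ⟩ : ∃ J, J = I.filter (fun i => (W i).Nonempty) := ⟨_, rfl⟩
  have hJne : ∀ i ∈ J, (W i).Nonempty := fun i hi => by
    rw [hJ] at hi
    exact (Finset.mem_filter.1 hi).2
  have hov := smo_int hV hne hi hη1 J Wm Wd z (fun i hi => WV i (hz i (hJne i hi))) (fun i hi => hWb i (hJne i hi))
    (fun i _ => hball _)
  obtain ⟨Bad, hBad⟩ : ∃ Bad : ι → Prop, ∀ i, Bad i ↔ (W i).Nonempty ∧ Λ * (∫ w in W i, ‖P w‖) <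
      volume.real (W i) / (infDist (z i) Vᶜ) ^ 2 * ∫ w in ball (z i) (infDist (z i) Vᶜ / 2), ‖P w‖ := ⟨_, fun _ => Iff.rfl⟩
  refine ⟨I.filter (fun i => ¬ Bad i), fun i => if (W i).Nonempty then P (z i) else 0, Finset.filter_subset _ _, ?_, ?_⟩
  · have h1 : I \ I.filter (fun i => ¬ Bad i) ⊆ J := by
      intro i hi
      rw [Finset.mem_sdiff, Finset.mem_filter, not_and, not_not] at hi
      rw [hJ, Finset.mem_filter]
      exact ⟨hi.1, ((hBad i).1 (hi.2 hi.1)).1⟩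
    have h2 : ∀ i ∈ I \ I.filter (fun i => ¬ Bad i), ∫ w in W i, ‖P w‖ ≤ Λ⁻¹ *
        (volume.real (W i) / (infDist (z i) Vᶜ) ^ 2 * ∫ w in ball (z i) (infDist (z i) Vᶜ / 2), ‖P w‖) := by
      intro i hi
      rw [Finset.mem_sdiff, Finset.mem_filter, not_and, not_not] at hi
      have h3 := ((hBad i).1 (hi.2 hi.1)).2
      rw [inv_mul_eq_div, le_div_iff₀ hΛ, mul_comm]
      exact h3.le
    refine (Finset.sum_le_sum h2).trans ?_
    rw [← Finset.mul_sum]
    have h3 : ∑ i ∈ I \ I.filter (fun i => ¬ Bad i),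
        volume.real (W i) / (infDist (z i) Vᶜ) ^ 2 * ∫ w in ball (z i) (infDist (z i) Vᶜ / 2), ‖P w‖ ≤
        ∑ i ∈ J, volume.real (W i) / (infDist (z i) Vᶜ) ^ 2 * ∫ w in ball (z i) (infDist (z i) Vᶜ / 2), ‖P w‖ :=
      Finset.sum_le_sum_of_subset_of_nonneg h1 fun i _ _ =>
        mul_nonneg (div_nonneg measureReal_nonneg (sq_nonneg _)) (integral_nonneg fun _ => norm_nonneg _)
    calc Λ⁻¹ * _ ≤ Λ⁻¹ * (9 * Real.pi * ∫ w in V, ‖P w‖) :=
          mul_le_mul_of_nonneg_left (h3.trans hov) (by positivity)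
      _ = _ := by ring
  · intro i hi
    rw [Finset.mem_filter] at hi
    by_cases hn : (W i).Nonempty
    · simp only [if_pos hn]
      have h1 : volume.real (W i) / (infDist (z i) Vᶜ) ^ 2 * (∫ w in ball (z i) (infDist (z i) Vᶜ / 2), ‖P w‖) ≤
          Λ * ∫ w in W i, ‖P w‖ := by
        by_contra hcon
        exact hi.2 ((hBad i).2 ⟨hn, not_le.1 hcon⟩)
      exact smo_good (hpos _ (WV i (hz i hn))) hη hη1 hΛ hηΛ (hP.mono (hball _)) (hiP.mono_set (hball _)) (Wm i) (hWb i hn) h1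
    · rw [not_nonempty_iff_eq_empty] at hn
      rw [hn]
      simp

end Pool.Agent.H43.UP
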