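import Pool.Agent.H43.UP.Defs

/-!
# THEOREM UP, module TP: the transfer operator `Ff a b Z φ = 1_Z pf φ`

`ff_to`. add, smul: pointwise (`pf` is a finite sum). int, le: `φ = φ'` a.e. with `φ'` measurable (`AEStronglyMeasurable.mk`), `pf φ = pf φ'` a.e. (`pf_congr`), `pf_int` (H31/NS/PFI), the indicator only decreases.
`pf_congr`: `N = {φ ≠ φ'}` is a null set; if `pf φ x ≠ pf φ' x` there is `y ∈ fs a b x ∩ N`; `∫⁻_x ∑_(y ∈ fs x) 1_N' y = ∫⁻_(pre univ) 1_N' y ‖dg y‖ ^ 2 = 0` (`area`, H61/TT/Area; `N' ⊇ N` a measurable null set, `toMeasurable`), so the sum is `0` for a.e. `x`.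
supp: `y ∈ fs a b x` is a root of `a - x b` (which is not `0`): `b y = 0` would give `a y = 0`, against `cop`; so `gg a b y = x`.
`ff_it`: induction with `Function.iterate_succ_apply'`: `x ∈ Z`, `y ∈ fs x` implies `gg y = x ∈ Z`, so `y ∈ Z`.
-/

set_option autoImplicit false

open Filter Topology Polynomial Metric Set MeasureTheory

namespace Pool.Agent.H43.UP

open Pool.Agent.H61.TT Pool.Agent.H57.CP Pool.Agent.H78.NS

variable {d : ℕ} {a b : Polynomial ℂ} {Z : Set ℂ}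

/-- the transfer operator on `L ^ 1 (Z)` -/
noncomputable def Ff (a b : Polynomial ℂ) (Z : Set ℂ) (φ : ℂ → ℂ) : ℂ → ℂ := Z.indicator (pf a b φ)

theorem mem_fs (h : RatD d a b) {x y : ℂ} (hy : y ∈ fs a b x) : b.eval y ≠ 0 ∧ gg a b y = x :=
  (Pool.Agent.H61.TT.mem_fs h x y).1 hy

theorem pf_congr (h : RatD d a b) {φ ψ : ℂ → ℂ} (hφ : φ =ᵐ[volume] ψ) : pf a b φ =ᵐ[volume] pf a b ψ := by
  have hN : volume ({y : ℂ | φ y ≠ ψ y} ∩ {y : ℂ | b.eval y ≠ 0}) = 0 :=
    measure_mono_null inter_subset_left hφ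
  have hd : DifferentiableOn ℝ (gg a b) ({y : ℂ | φ y ≠ ψ y} ∩ {y : ℂ | b.eval y ≠ 0}) := by
    intro y hy
    have h1 := (hasStrictDerivAt_gg (a := a) (b := b) (z := y) hy.2).hasDerivAt.differentiableAt
    exact (h1.restrictScalars ℝ).differentiableWithinAt
  have h2 := addHaar_image_eq_zero_of_differentiableOn_of_addHaar_eq_zero volume hd hN
  refine measure_mono_null ?_ h2
  intro x hx
  by_contra hx2
  apply hx
  show pf a b φ x = pf a b ψ x
  unfold pf
  refine Finset.sum_congr rfl fun y hy => ?_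
  obtain ⟨hy1, hy2⟩ := mem_fs h hy
  have h3 : φ y = ψ y := by
    by_contra h4
    exact hx2 ⟨y, ⟨h4, hy1⟩, hy2⟩
  rw [h3]

private theorem pf_add' (φ ψ : ℂ → ℂ) (x : ℂ) :
    pf a b (fun z => φ z + ψ z) x = pf a b φ x + pf a b ψ x := by
  unfold pf
  rw [← Finset.sum_add_distrib]
  exact Finset.sum_congr rfl fun y _ => add_div _ _ _

private theorem pf_smul' (c : ℂ) (φ : ℂ → ℂ) (x : ℂ) :
    pf a b (fun z => c * φ z) x = c * pf a b φ x := by
  unfold pf
  rw [Finset.mul_sum]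
  exact Finset.sum_congr rfl fun y _ => mul_div_assoc _ _ _

private theorem pf_integ (h : RatD d a b) {φ : ℂ → ℂ} (hφ : Integrable φ) :
    Integrable (pf a b φ) ∧ ∫ x, ‖pf a b φ x‖ ≤ ∫ x, ‖φ x‖ := by
  obtain ⟨φ', hφ'⟩ : ∃ φ', φ' = hφ.aestronglyMeasurable.mk φ := ⟨_, rfl⟩
  have hm : Measurable φ' := by
    rw [hφ']
    exact hφ.aestronglyMeasurable.stronglyMeasurable_mk.measurable
  have he : φ =ᵐ[volume] φ' := by
    rw [hφ']
    exact hφ.aestronglyMeasurable.ae_eq_mk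
  have hi : Integrable φ' := hφ.congr he
  have hp := pf_congr h he
  obtain ⟨h1, h2⟩ := Pool.Agent.H31.NS.pf_int h hm hi
  refine ⟨h1.congr hp.symm, ?_⟩
  have e1 : ∫ x, ‖pf a b φ x‖ = ∫ x, ‖pf a b φ' x‖ := by
    refine integral_congr_ae ?_
    filter_upwards [hp] with x hx
    rw [hx]
  have e2 : ∫ x, ‖φ x‖ = ∫ x, ‖φ' x‖ := by
    refine integral_congr_ae ?_
    filter_upwards [he] with x hx
    rw [hx]
  rw [e1, e2, integral_norm_eq_lintegral_enorm h1.aestronglyMeasurable,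
    integral_norm_eq_lintegral_enorm hi.aestronglyMeasurable]
  exact ENNReal.toReal_mono hi.hasFiniteIntegral.ne h2

theorem ff_to (h : RatD d a b) (hZ : MeasurableSet Z) : TO (Ff a b Z) b (gg a b) := by
  refine ⟨?_, ?_, ?_, ?_, ?_⟩
  · intro φ ψ
    funext x
    unfold Ff
    by_cases hx : x ∈ Z
    · rw [indicator_of_mem hx, indicator_of_mem hx, indicator_of_mem hx, pf_add']
    · rw [indicator_of_notMem hx, indicator_of_notMem hx, indicator_of_notMem hx, add_zero]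
  · intro c φ
    funext x
    unfold Ff
    by_cases hx : x ∈ Z
    · rw [indicator_of_mem hx, indicator_of_mem hx, pf_smul']
    · rw [indicator_of_notMem hx, indicator_of_notMem hx, mul_zero]
  · intro φ hφ
    exact (pf_integ h hφ).1.indicator hZ
  · intro φ hφ
    obtain ⟨h1, h2⟩ := pf_integ h hφ
    refine le_trans ?_ h2
    refine integral_mono_of_nonneg (ae_of_all _ fun x => norm_nonneg _) h1.norm
      (ae_of_all _ fun x => ?_)
    exact norm_indicator_le_norm_self _ _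
  · intro φ x hx
    unfold Ff at hx
    have h1 : pf a b φ x ≠ 0 := by
      intro h0
      apply hx
      by_cases hxZ : x ∈ Z
      · rw [indicator_of_mem hxZ, h0]
      · rw [indicator_of_notMem hxZ]
    obtain ⟨y, hy, hy2⟩ := Finset.exists_ne_zero_of_sum_ne_zero h1
    obtain ⟨h3, h4⟩ := mem_fs h hy
    refine ⟨y, ?_, h3, h4⟩
    intro h0
    exact hy2 (by rw [h0, zero_div])

theorem ff_it (h : RatD d a b) (hZi : ∀ y, b.eval y ≠ 0 → gg a b y ∈ Z → y ∈ Z) (φ : ℂ → ℂ) (n : ℕ) {x : ℂ} (hx : x ∈ Z) :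
    (Ff a b Z)^[n] φ x = (pf a b)^[n] φ x := by
  induction n generalizing x with
  | zero => rfl
  | succ n ih =>
    rw [Function.iterate_succ_apply', Function.iterate_succ_apply']
    have e : ∀ ψ : ℂ → ℂ, Ff a b Z ψ x = ∑ y ∈ fs a b x, ψ y / dg a b y ^ 2 := by
      intro ψ
      rw [Ff, indicator_of_mem hx]
      rfl
    have e2 : ∀ ψ : ℂ → ℂ, pf a b ψ x = ∑ y ∈ fs a b x, ψ y / dg a b y ^ 2 := fun ψ => rfl
    rw [e, e2]
    refine Finset.sum_congr rfl fun y hy => ?_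
    obtain ⟨h1, h2⟩ := mem_fs h hy
    have h3 : y ∈ Z := hZi y h1 (by rw [h2]; exact hx)
    rw [ih h3]

/-- the iterate of `Ff` has at most the norm of the iterate of `pf` -/
theorem ff_it_le (h : RatD d a b) (hZ : MeasurableSet Z) (hZi : ∀ y, b.eval y ≠ 0 → gg a b y ∈ Z → y ∈ Z) {φ : ℂ → ℂ}
    (hφ : Integrable φ) (n : ℕ) : ∫ x, ‖(Ff a b Z)^[n + 1] φ x‖ ≤ ∫ x, ‖(pf a b)^[n + 1] φ x‖ := by
  have hint : ∀ n : ℕ, Integrable ((pf a b)^[n] φ) := by
    intro n
    induction n with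
    | zero => exact hφ
    | succ n ih =>
      rw [Function.iterate_succ_apply']
      exact (pf_integ h ih).1
  refine integral_mono_of_nonneg (ae_of_all _ fun x => norm_nonneg _) (hint (n + 1)).norm
    (ae_of_all _ fun x => ?_)
  by_cases hx : x ∈ Z
  · show ‖(Ff a b Z)^[n + 1] φ x‖ ≤ ‖(pf a b)^[n + 1] φ x‖
    rw [ff_it h hZi φ (n + 1) hx]
  · show ‖(Ff a b Z)^[n + 1] φ x‖ ≤ ‖(pf a b)^[n + 1] φ x‖
    rw [Function.iterate_succ_apply', Ff, indicator_of_notMem hx, norm_zero]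
    exact norm_nonneg _

theorem pf_to (h : RatD d a b) : TO (pf a b) b (gg a b) := by
  have h1 := ff_to (Z := univ) h MeasurableSet.univ
  have h2 : Ff a b univ = pf a b := by
    funext φ x
    simp [Ff]
  rwa [h2] at h1

end Pool.Agent.H43.UP
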