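import Pool.Agent.H43.UP.PfS

/-!
# THEOREM UP, module Los1: the push forward of `1_W`, `W` folded, at the time of the second fold

PROOF. `n = k1 + 1 + n2`, `pf^[n] = pf^[n2] ∘ pf ∘ pf^[k1]` (`Function.iterate_add_apply`). `pf^[k1] (1_W) = 1_(W1) α`, `α = (deriv ψ)^2` (`pf_br`; `hW`).
FOLD: for `u ∈ W1`, `u ≠ c1`, `x = gg u`: `χ1 u ≠ 0`, the partner `u' ∈ ball c1 r1` with `χ1 u' = - χ1 u` exists (`univ_cover`, H80/AJ/Cover: `ball 0 (r1 ‖deriv χ1 c1‖ / 16) ⊆ χ1 '' ball c1 r1`, and `‖χ1 u‖ ≤ 2 ‖deriv χ1 c1‖ s1`, `kob2` with `w' = c1`), `u' ∈ W1` (`sat`, `fW`), and `u, u'` are the only elements of `W1` in the fibre (`sq1`: `χ1 v ^ 2 = χ1 u ^ 2`, injectivity).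
So `α2 x := pf (1_(W1) α) x = α u / dg u ^ 2 + α u' / dg u' ^ 2`, `dg u = 2 χ1 u * deriv χ1 u` (derivative of `sq`), `dg u ^ 2 = 4 (x - gg c1) (deriv χ1 u)^2`. With `kob1` for `ψ` and `χ1` (`s1 / r1 ≤ η`): `‖α2 x - β1 / (x - gg c1)‖ ≤ C η ‖β1‖ / ‖x - gg c1‖`, `β1 = (deriv ψ c1)^2 / (2 (deriv χ1 c1)^2)`. Outside `gg '' W1 = G '' W2` the function `α2` is `0`.
BRANCH: `pf^[n2] (1_(G '' W2) α2) = 1_(W2) α2 (G w) (deriv G w)^2` (`pf_br`; `W2 ⊆ ball c2 s2 ⊆ ball c2 r2`), `G w - gg c1 = G w - G y`, `‖G w - G y - deriv G c2 (w - y)‖ ≤ CK η ‖deriv G c2‖ ‖w - y‖` (`kob2`; `y ∈ ball c2 σ2 ⊆ W2 ⊆ ball c2 s2`), `kob1` for `G`. `β = β1 * deriv G c2`. (`w ≠ y` gives `G w ≠ G y = gg c1`, so `G w = gg u` with `u ≠ c1`.)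
If `s1 ≤ 0` then `W1` is empty, impossible (`y ∈ W2`, `fW`).
-/

set_option autoImplicit false

open Filter Topology Polynomial Metric Set MeasureTheory

namespace Pool.Agent.H43.UP

open Pool.Agent.H61.TT Pool.Agent.H57.CP Pool.Agent.H78.NS Pool.Agent.H80.AJ

private theorem los1_rat {p p0 t t0 : ℂ} {ε : ℝ} (hε : 0 ≤ ε) (hε1 : ε ≤ 1 / 80) (ht0 : t0 ≠ 0)
    (hp : ‖p - p0‖ ≤ ε * ‖p0‖) (ht : ‖t - t0‖ ≤ ε * ‖t0‖) :
    t ≠ 0 ∧ ‖p ^ 2 / t ^ 2 - p0 ^ 2 / t0 ^ 2‖ ≤ 9 * ε * ‖p0 ^ 2 / t0 ^ 2‖ := by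
  have h0 : 0 < ‖t0‖ := norm_pos_iff.2 ht0
  have h1 : ‖t0‖ ≤ ‖t‖ + ε * ‖t0‖ := by
    calc ‖t0‖ = ‖t - (t - t0)‖ := by congr 1; ring
      _ ≤ ‖t‖ + ‖t - t0‖ := norm_sub_le _ _
      _ ≤ ‖t‖ + ε * ‖t0‖ := by linarith
  have h2 : (79 / 80) * ‖t0‖ ≤ ‖t‖ := by nlinarith
  have ht1 : 0 < ‖t‖ := by nlinarith
  have ht' : t ≠ 0 := norm_pos_iff.1 ht1
  refine ⟨ht', ?_⟩
  have h3 : ‖p / t - p0 / t0‖ ≤ 3 * ε * ‖p0 / t0‖ := by
    have e : p / t - p0 / t0 = ((p - p0) * t0 - p0 * (t - t0)) / (t * t0) := by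
      field_simp
      ring
    rw [e, norm_div, norm_mul t t0, norm_div, div_le_iff₀ (by positivity)]
    have h4 : ‖(p - p0) * t0 - p0 * (t - t0)‖ ≤ 2 * ε * ‖p0‖ * ‖t0‖ := by
      refine (norm_sub_le _ _).trans ?_
      rw [norm_mul, norm_mul]
      have e1 := mul_le_mul_of_nonneg_right hp h0.le
      have e2 := mul_le_mul_of_nonneg_left ht (norm_nonneg p0)
      nlinarith
    have h5 : 3 * ε * (‖p0‖ / ‖t0‖) * (‖t‖ * ‖t0‖) = 3 * (ε * ‖p0‖) * ‖t‖ := by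
      field_simp
    rw [h5]
    have h6 : 0 ≤ ε * ‖p0‖ := by positivity
    have h7 := mul_le_mul_of_nonneg_left h2 h6
    have h8 : 0 ≤ ε * ‖p0‖ * ‖t0‖ := by positivity
    nlinarith
  have e : p ^ 2 / t ^ 2 - p0 ^ 2 / t0 ^ 2 =
      (p / t - p0 / t0) * (2 * (p0 / t0) + (p / t - p0 / t0)) := by
    rw [← div_pow, ← div_pow]
    ring
  have h7 : ‖2 * (p0 / t0) + (p / t - p0 / t0)‖ ≤ 3 * ‖p0 / t0‖ := by
    refine (norm_add_le _ _).trans ?_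
    have h9 : ‖2 * (p0 / t0)‖ = 2 * ‖p0 / t0‖ := by
      rw [norm_mul]
      norm_num
    rw [h9]
    nlinarith [norm_nonneg (p0 / t0)]
  have h8 : ‖p0 ^ 2 / t0 ^ 2‖ = ‖p0 / t0‖ ^ 2 := by rw [← div_pow, norm_pow]
  rw [h8, e, norm_mul]
  calc ‖p / t - p0 / t0‖ * ‖2 * (p0 / t0) + (p / t - p0 / t0)‖
      ≤ (3 * ε * ‖p0 / t0‖) * (3 * ‖p0 / t0‖) :=
        mul_le_mul h3 h7 (norm_nonneg _) (by positivity)
    _ = 9 * ε * ‖p0 / t0‖ ^ 2 := by ring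

private theorem los1_fin {A x D D0 z β1 : ℂ} {ε : ℝ} (hε : 0 ≤ ε) (hε1 : ε ≤ 1 / 80)
    (hD0 : D0 ≠ 0) (hz : z ≠ 0)
    (hA : ‖A - β1 / x‖ ≤ 9 * ε * (‖β1‖ / ‖x‖)) (hx : ‖x - D0 * z‖ ≤ ε * ‖D0‖ * ‖z‖)
    (hD : ‖D - D0‖ ≤ ε * ‖D0‖) :
    ‖A * D ^ 2 - β1 * D0 / z‖ ≤ 15 * ε * (‖β1 * D0‖ / ‖z‖) := by
  have hΔ : 0 < ‖D0‖ := norm_pos_iff.2 hD0
  have hZ : 0 < ‖z‖ := norm_pos_iff.2 hz
  have hΔZ : 0 < ‖D0‖ * ‖z‖ := by positivity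
  have h1 : ‖D0 * z‖ ≤ ‖x‖ + ε * ‖D0‖ * ‖z‖ := by
    calc ‖D0 * z‖ = ‖x - (x - D0 * z)‖ := by congr 1; ring
      _ ≤ ‖x‖ + ‖x - D0 * z‖ := norm_sub_le _ _
      _ ≤ ‖x‖ + ε * ‖D0‖ * ‖z‖ := by linarith
  rw [norm_mul] at h1
  have h2 : (79 / 80) * (‖D0‖ * ‖z‖) ≤ ‖x‖ := by nlinarith
  have hX : 0 < ‖x‖ := by nlinarith
  have hx0 : x ≠ 0 := norm_pos_iff.1 hX
  have h3 : ‖D‖ ≤ (81 / 80) * ‖D0‖ := by
    have h4 : ‖D‖ ≤ ‖D - D0‖ + ‖D0‖ := by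
      calc ‖D‖ = ‖(D - D0) + D0‖ := by congr 1; ring
        _ ≤ ‖D - D0‖ + ‖D0‖ := norm_add_le _ _
    nlinarith
  have h4 : ‖D‖ ^ 2 ≤ (81 / 80) ^ 2 * ‖D0‖ ^ 2 := by
    rw [← mul_pow]
    exact pow_le_pow_left₀ (norm_nonneg _) h3 2
  have h5 : ‖β1‖ / ‖x‖ ≤ (80 / 79) * (‖β1‖ / (‖D0‖ * ‖z‖)) := by
    rw [div_le_iff₀ hX]
    have h6 : ‖β1‖ = ‖β1‖ / (‖D0‖ * ‖z‖) * (‖D0‖ * ‖z‖) := by field_simp
    have h7 : 0 ≤ ‖β1‖ / (‖D0‖ * ‖z‖) := by positivity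
    have h8 := mul_le_mul_of_nonneg_left h2 h7
    nlinarith
  set u : ℝ := ‖β1‖ / (‖D0‖ * ‖z‖) with hu
  have hu0 : 0 ≤ u := by positivity
  have hu2 : ‖β1 * D0‖ / ‖z‖ = u * ‖D0‖ ^ 2 := by
    rw [hu, norm_mul]
    field_simp
  have h6 : ‖(A - β1 / x) * D ^ 2‖ ≤ 10 * ε * (u * ‖D0‖ ^ 2) := by
    rw [norm_mul, norm_pow]
    have h7 : ‖A - β1 / x‖ ≤ 9 * ε * ((80 / 79) * u) :=
      hA.trans (mul_le_mul_of_nonneg_left h5 (by positivity))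
    calc ‖A - β1 / x‖ * ‖D‖ ^ 2
        ≤ (9 * ε * ((80 / 79) * u)) * ((81 / 80) ^ 2 * ‖D0‖ ^ 2) :=
          mul_le_mul h7 h4 (by positivity) (by positivity)
      _ = (9 * (80 / 79) * (81 / 80) ^ 2) * (ε * (u * ‖D0‖ ^ 2)) := by ring
      _ ≤ 10 * (ε * (u * ‖D0‖ ^ 2)) :=
          mul_le_mul_of_nonneg_right (by norm_num) (by positivity)
      _ = 10 * ε * (u * ‖D0‖ ^ 2) := by ring
  have h7 : ‖D ^ 2 * z - D0 * x‖ ≤ 4 * ε * ‖D0‖ ^ 2 * ‖z‖ := by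
    have e : D ^ 2 * z - D0 * x = (D - D0) * (D + D0) * z - D0 * (x - D0 * z) := by ring
    rw [e]
    refine (norm_sub_le _ _).trans ?_
    rw [norm_mul, norm_mul, norm_mul]
    have h8 : ‖D + D0‖ ≤ 3 * ‖D0‖ := by
      refine (norm_add_le _ _).trans ?_
      linarith
    have h9 : ‖D - D0‖ * ‖D + D0‖ ≤ (ε * ‖D0‖) * (3 * ‖D0‖) :=
      mul_le_mul hD h8 (norm_nonneg _) (by positivity)
    have h10 := mul_le_mul_of_nonneg_right h9 hZ.le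
    have h11 := mul_le_mul_of_nonneg_left hx hΔ.le
    nlinarith
  have h8 : ‖β1 * (D ^ 2 / x - D0 / z)‖ ≤ 5 * ε * (u * ‖D0‖ ^ 2) := by
    have e : D ^ 2 / x - D0 / z = (D ^ 2 * z - D0 * x) / (x * z) := by
      field_simp
    rw [e, norm_mul, norm_div, norm_mul]
    have h9 : ‖D ^ 2 * z - D0 * x‖ / (‖x‖ * ‖z‖) ≤ 5 * ε * (‖D0‖ / ‖z‖) := by
      rw [div_le_iff₀ (by positivity)]
      have h10 : 5 * ε * (‖D0‖ / ‖z‖) * (‖x‖ * ‖z‖) = 5 * (ε * ‖D0‖) * ‖x‖ := by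
        field_simp
      rw [h10]
      have h11 : 0 ≤ ε * ‖D0‖ := by positivity
      have h12 := mul_le_mul_of_nonneg_left h2 h11
      have h13 : 0 ≤ ε * ‖D0‖ * (‖D0‖ * ‖z‖) := by positivity
      nlinarith
    calc ‖β1‖ * (‖D ^ 2 * z - D0 * x‖ / (‖x‖ * ‖z‖))
        ≤ ‖β1‖ * (5 * ε * (‖D0‖ / ‖z‖)) := mul_le_mul_of_nonneg_left h9 (norm_nonneg _)
      _ = 5 * ε * (u * ‖D0‖ ^ 2) := by
        rw [hu]
        field_simp
  have e : A * D ^ 2 - β1 * D0 / z = (A - β1 / x) * D ^ 2 + β1 * (D ^ 2 / x - D0 / z) := by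
    ring
  rw [e, hu2]
  refine (norm_add_le _ _).trans ?_
  linarith

private theorem los1_dg {a b : Polynomial ℂ} {c : ℂ} {r : ℝ} {χ : ℂ → ℂ} (h : SqC a b c r χ)
    {z : ℂ} (hz : z ∈ ball c r) : dg a b z = 2 * χ z * deriv χ z := by
  have hχ : HasDerivAt χ (deriv χ z) z :=
    (h.diff.differentiableAt (isOpen_ball.mem_nhds hz)).hasDerivAt
  have h7 : HasDerivAt (fun z => gg a b c + χ z ^ 2) (2 * χ z * deriv χ z) z := by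
    have h6 := (hχ.pow 2).const_add (gg a b c)
    simpa using h6
  have h8 : (gg a b) =ᶠ[𝓝 z] fun z => gg a b c + χ z ^ 2 :=
    Filter.eventuallyEq_of_mem (isOpen_ball.mem_nhds hz) h.sq
  exact (hasStrictDerivAt_gg (h.fin z hz)).hasDerivAt.unique (h7.congr_of_eventuallyEq h8)

private theorem los1_key {d : ℕ} {a b : Polynomial ℂ} {ε : ℝ} {c1 : ℂ} {r1 s1 : ℝ}
    {ψ χ1 : ℂ → ℂ} {W1 V : Set ℂ} (hr : RatD d a b) (hε0 : 0 ≤ ε) (hε1 : ε ≤ 1 / 80)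
    (hr1 : 0 < r1) (hs1 : s1 ≤ r1 / 2) (hs32 : 33 * s1 ≤ r1)
    (hk : CK * (s1 / r1) ≤ ε)
    (psid : DifferentiableOn ℂ ψ (ball c1 r1)) (psii : InjOn ψ (ball c1 r1))
    (sq1 : SqC a b c1 r1 χ1) (W1s : W1 ⊆ ball c1 s1) (fW : gg a b '' W1 = V)
    (sat : ∀ u ∈ ball c1 r1, gg a b u ∈ V → u ∈ W1) {u : ℂ} (hu : u ∈ W1) (huc : u ≠ c1) :
    ‖pf a b (W1.indicator fun w => 1 * deriv ψ w ^ 2) (gg a b u) -
        (deriv ψ c1 ^ 2 / (2 * deriv χ1 c1 ^ 2)) / (gg a b u - gg a b c1)‖ ≤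
      9 * ε * (‖deriv ψ c1 ^ 2 / (2 * deriv χ1 c1 ^ 2)‖ / ‖gg a b u - gg a b c1‖) := by
  classical
  have hs0 : 0 < s1 := by
    have h1 := W1s hu
    rw [mem_ball_iff_norm] at h1
    exact lt_of_le_of_lt (norm_nonneg _) h1
  have hW1 : W1 ⊆ ball c1 r1 := W1s.trans (ball_subset_ball (by linarith))
  have hc1s : c1 ∈ ball c1 s1 := mem_ball_self hs0
  have hc1 : c1 ∈ ball c1 r1 := mem_ball_self hr1
  have hub : u ∈ ball c1 r1 := hW1 hu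
  have ht0 : deriv χ1 c1 ≠ 0 := by
    refine norm_pos_iff.1 (deriv_ne hr1 sq1.diff sq1.inj ?_)
    exact mem_closedBall_self (by linarith)
  have hχu : χ1 u ≠ 0 := by
    intro h0
    exact huc (sq1.inj hub hc1 (h0.trans sq1.zero.symm))
  -- the partner
  have hM : ‖χ1 u‖ ≤ 2 * ‖deriv χ1 c1‖ * s1 := by
    have h1 := kob2 hr1 hs1 sq1.diff sq1.inj (W1s hu) hc1s
    rw [sq1.zero, sub_zero] at h1
    have h2 : ‖u - c1‖ ≤ s1 := (mem_ball_iff_norm.1 (W1s hu)).le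
    have h3 : ‖χ1 u‖ ≤ ‖χ1 u - deriv χ1 c1 * (u - c1)‖ + ‖deriv χ1 c1‖ * ‖u - c1‖ := by
      rw [← norm_mul]
      calc ‖χ1 u‖ = ‖(χ1 u - deriv χ1 c1 * (u - c1)) + deriv χ1 c1 * (u - c1)‖ := by
            congr 1; ring
        _ ≤ _ := norm_add_le _ _
    have h4 : CK * (s1 / r1) * ‖deriv χ1 c1‖ * ‖u - c1‖ ≤ 1 * (‖deriv χ1 c1‖ * ‖u - c1‖) := by
      rw [mul_assoc]
      exact mul_le_mul_of_nonneg_right (by linarith) (by positivity)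
    have h5 : ‖deriv χ1 c1‖ * ‖u - c1‖ ≤ ‖deriv χ1 c1‖ * s1 :=
      mul_le_mul_of_nonneg_left h2 (norm_nonneg _)
    linarith
  obtain ⟨v, hvb, hv⟩ : ∃ v ∈ ball c1 r1, χ1 v = - χ1 u := by
    have h1 := univ_cover hr1 sq1.diff sq1.inj
    rw [sq1.zero] at h1
    have h2 : - χ1 u ∈ ball (0 : ℂ) (r1 * ‖deriv χ1 c1‖ / 16) := by
      rw [mem_ball_zero_iff, norm_neg]
      refine lt_of_le_of_lt hM ?_
      have h3 : 0 < ‖deriv χ1 c1‖ := norm_pos_iff.2 ht0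
      have h4 : 32 * s1 < r1 := by linarith
      nlinarith
    obtain ⟨v, hv, hv2⟩ := h1 h2
    exact ⟨v, hv, hv2⟩
  have hggv : gg a b v = gg a b u := by
    rw [sq1.sq v hvb, sq1.sq u hub, hv, neg_sq]
  have hvW : v ∈ W1 := by
    refine sat v hvb ?_
    rw [hggv, ← fW]
    exact mem_image_of_mem _ hu
  have huv : u ≠ v := by
    intro h0
    rw [← h0] at hv
    exact hχu (self_eq_neg.1 hv)
  have hE : gg a b u - gg a b c1 = χ1 u ^ 2 := by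
    rw [sq1.sq u hub]
    ring
  have hE0 : gg a b u - gg a b c1 ≠ 0 := by
    rw [hE]
    exact pow_ne_zero 2 hχu
  -- the sum over the fibre
  have hsum : pf a b (W1.indicator fun w => 1 * deriv ψ w ^ 2) (gg a b u) =
      (1 * deriv ψ u ^ 2) / dg a b u ^ 2 + (1 * deriv ψ v ^ 2) / dg a b v ^ 2 := by
    unfold pf
    have hsub : ({u, v} : Finset ℂ) ⊆ fs a b (gg a b u) := by
      intro z hz
      rw [Finset.mem_insert, Finset.mem_singleton] at hz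
      rw [fs_iff hr]
      rcases hz with rfl | rfl
      · exact ⟨sq1.fin _ hub, rfl⟩
      · exact ⟨sq1.fin _ hvb, hggv⟩
    rw [← Finset.sum_subset hsub, Finset.sum_pair huv, indicator_of_mem hu, indicator_of_mem hvW]
    intro z hz hzn
    rw [fs_iff hr] at hz
    have hzW : z ∉ W1 := by
      intro hzW
      have hzb := hW1 hzW
      have h1 : χ1 z ^ 2 = χ1 u ^ 2 := by
        have h2 := sq1.sq z hzb
        rw [hz.2] at h2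
        rw [← hE, h2]
        ring
      apply hzn
      rw [Finset.mem_insert, Finset.mem_singleton]
      rcases sq_eq_sq_iff_eq_or_eq_neg.1 h1 with h2 | h2
      · exact Or.inl (sq1.inj hzb hub h2)
      · exact Or.inr (sq1.inj hzb hvb (h2.trans hv.symm))
    rw [indicator_of_notMem hzW, zero_div]
  have hps : ∀ w ∈ ball c1 s1, ‖deriv ψ w - deriv ψ c1‖ ≤ ε * ‖deriv ψ c1‖ := fun w hw =>
    (kob1 hr1 hs1 psid psii hw).trans (mul_le_mul_of_nonneg_right hk (norm_nonneg _))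
  have hch : ∀ w ∈ ball c1 s1, ‖deriv χ1 w - deriv χ1 c1‖ ≤ ε * ‖deriv χ1 c1‖ := fun w hw =>
    (kob1 hr1 hs1 sq1.diff sq1.inj hw).trans (mul_le_mul_of_nonneg_right hk (norm_nonneg _))
  obtain ⟨hu1, hu2⟩ := los1_rat hε0 hε1 ht0 (hps u (W1s hu)) (hch u (W1s hu))
  obtain ⟨hv1, hv2⟩ := los1_rat hε0 hε1 ht0 (hps v (W1s hvW)) (hch v (W1s hvW))
  set q0 : ℂ := deriv ψ c1 ^ 2 / deriv χ1 c1 ^ 2 with hq0
  set E : ℂ := gg a b u - gg a b c1 with hEd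
  have hβ : deriv ψ c1 ^ 2 / (2 * deriv χ1 c1 ^ 2) = q0 / 2 := by
    rw [hq0]
    field_simp
  have hvE : χ1 v ^ 2 = E := by rw [hv, neg_sq, hE]
  have e : (1 * deriv ψ u ^ 2) / dg a b u ^ 2 + (1 * deriv ψ v ^ 2) / dg a b v ^ 2 -
      q0 / 2 / E = ((deriv ψ u ^ 2 / deriv χ1 u ^ 2 - q0) +
        (deriv ψ v ^ 2 / deriv χ1 v ^ 2 - q0)) / (4 * E) := by
    rw [los1_dg sq1 hub, los1_dg sq1 hvb]
    have e1 : (2 * χ1 u * deriv χ1 u) ^ 2 = 4 * E * deriv χ1 u ^ 2 := by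
      rw [hE]; ring
    have e2 : (2 * χ1 v * deriv χ1 v) ^ 2 = 4 * E * deriv χ1 v ^ 2 := by
      rw [← hvE]; ring
    rw [e1, e2]
    field_simp
    ring
  rw [hsum, hβ, e, norm_div, norm_div]
  have hEn : 0 < ‖E‖ := norm_pos_iff.2 hE0
  have h4E : ‖4 * E‖ = 4 * ‖E‖ := by
    rw [norm_mul]
    norm_num
  have h2n : ‖(2 : ℂ)‖ = 2 := by norm_num
  rw [h4E, h2n, div_le_iff₀ (by positivity)]
  have h10 : 9 * ε * (‖q0‖ / 2 / ‖E‖) * (4 * ‖E‖) = 18 * ε * ‖q0‖ := by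
    field_simp
    ring
  rw [h10]
  refine (norm_add_le _ _).trans ?_
  linarith

theorem los1 : ∃ C : ℝ, 1 ≤ C ∧ ∀ {d : ℕ} {a b : Polynomial ℂ} {K η : ℝ} {m : ℕ} {W : Set ℂ} {k1 n2 : ℕ} {c1 c2 y : ℂ}
    {r1 s1 r2 s2 σ2 : ℝ} {ψ G χ1 χ2 : ℂ → ℂ} {W1 W2 : Set ℂ}, RatD d a b → 0 < η → C * η ≤ 1 →
    FldD a b K η m W k1 n2 c1 c2 y r1 s1 r2 s2 σ2 ψ G χ1 χ2 W1 W2 →
    ∃ β : ℂ, (∀ w ∈ W2, w ≠ y → ‖(pf a b)^[k1 + 1 + n2] (W.indicator fun _ => 1) w - β / (w - y)‖ ≤ C * η * (‖β‖ / ‖w - y‖)) ∧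
      ∀ w, w ∉ W2 → (pf a b)^[k1 + 1 + n2] (W.indicator fun _ => 1) w = 0 := by
  have hCK := one_le_CK
  refine ⟨80 * CK, by linarith, ?_⟩
  intro d a b K η m W k1 n2 c1 c2 y r1 s1 r2 s2 σ2 ψ G χ1 χ2 W1 W2 hr hη hCη h
  obtain ⟨ε, hε⟩ : ∃ ε : ℝ, ε = CK * η := ⟨_, rfl⟩
  have hε0 : 0 < ε := by rw [hε]; positivity
  have hε1 : ε ≤ 1 / 80 := by rw [hε]; linarith
  have hη1 : η ≤ 1 / 80 := by nlinarith
  have hr1 := h.sq1.hr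
  have hr2 := h.sq2.hr
  have h1 := h.hs1
  have h2 := h.hs2
  have hs1 : s1 ≤ r1 / 2 := by nlinarith
  have hs2 : s2 ≤ r2 / 2 := by nlinarith
  have hs33 : 33 * s1 ≤ r1 := by nlinarith
  have hk1 : CK * (s1 / r1) ≤ ε := by
    rw [hε]
    exact mul_le_mul_of_nonneg_left ((div_le_iff₀ hr1).2 h1) (by linarith)
  have hk2 : CK * (s2 / r2) ≤ ε := by
    rw [hε]
    exact mul_le_mul_of_nonneg_left ((div_le_iff₀ hr2).2 h2) (by linarith)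
  have hW1 : W1 ⊆ ball c1 r1 := h.W1s.trans (ball_subset_ball (by linarith))
  have hW2 : W2 ⊆ ball c2 r2 := h.W2s.trans (ball_subset_ball (by linarith))
  have hyW : y ∈ W2 := by
    refine h.W2b (mem_ball_iff_norm.2 (lt_of_le_of_lt h.hy ?_))
    nlinarith [h.hσ]
  have hit : (pf a b)^[k1 + 1 + n2] (W.indicator fun _ => 1) =
      (pf a b)^[n2] (pf a b ((pf a b)^[k1] (W.indicator fun _ => 1))) := by
    rw [show k1 + 1 + n2 = n2 + (1 + k1) by ring, Function.iterate_add_apply,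
      Function.iterate_add_apply, Function.iterate_one]
  have hpsi : (pf a b)^[k1] (W.indicator fun _ => 1) =
      W1.indicator fun w => 1 * deriv ψ w ^ 2 := by
    rw [h.hW]
    exact pf_br hr h.psi hW1 (fun _ => 1)
  obtain ⟨α2, hα2⟩ : ∃ f : ℂ → ℂ, f = pf a b (W1.indicator fun w => 1 * deriv ψ w ^ 2) :=
    ⟨_, rfl⟩
  have h0 : ∀ x, x ∉ G '' W2 → α2 x = 0 := by
    intro x hx
    rw [hα2]
    unfold pf
    refine Finset.sum_eq_zero fun z hz => ?_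
    rw [fs_iff hr] at hz
    have hzW : z ∉ W1 := by
      intro hzW
      apply hx
      rw [← h.fW, ← hz.2]
      exact mem_image_of_mem _ hzW
    rw [indicator_of_notMem hzW, zero_div]
  have h3 : (G '' W2).indicator α2 = α2 := by
    funext x
    by_cases hx : x ∈ G '' W2
    · rw [indicator_of_mem hx]
    · rw [indicator_of_notMem hx, h0 x hx]
  have h4 : (pf a b)^[n2] α2 = W2.indicator fun w => α2 (G w) * deriv G w ^ 2 := by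
    have h5 := pf_br hr h.br hW2 α2
    rw [h3] at h5
    exact h5
  rw [hit, hpsi, ← hα2, h4]
  refine ⟨(deriv ψ c1 ^ 2 / (2 * deriv χ1 c1 ^ 2)) * deriv G c2, ?_, ?_⟩
  · intro w hw hwy
    rw [indicator_of_mem hw]
    have hGi := pbr_inj h.br
    obtain ⟨u, hu, hug⟩ : ∃ u ∈ W1, gg a b u = G w := by
      have h5 : G w ∈ gg a b '' W1 := by
        rw [h.fW]
        exact mem_image_of_mem _ hw
      obtain ⟨u, hu, hug⟩ := h5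
      exact ⟨u, hu, hug⟩
    have huc : u ≠ c1 := by
      intro h5
      rw [h5, ← h.gy] at hug
      exact hwy (hGi (hW2 hyW) (hW2 hw) hug).symm
    have hkey := los1_key hr hε0.le hε1 hr1 hs1 hs33 hk1 h.psi.diff (pbr_inj h.psi) h.sq1 h.W1s
      h.fW h.sat hu huc
    rw [← hα2, hug, ← h.gy] at hkey
    have hD0 : deriv G c2 ≠ 0 :=
      norm_pos_iff.1 (deriv_ne hr2 h.br.diff hGi (mem_closedBall_self (by linarith)))
    have hx : ‖(G w - G y) - deriv G c2 * (w - y)‖ ≤ ε * ‖deriv G c2‖ * ‖w - y‖ := by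
      refine (kob2 hr2 hs2 h.br.diff hGi (h.W2s hw) (h.W2s hyW)).trans ?_
      exact mul_le_mul_of_nonneg_right (mul_le_mul_of_nonneg_right hk2 (norm_nonneg _))
        (norm_nonneg _)
    have hD : ‖deriv G w - deriv G c2‖ ≤ ε * ‖deriv G c2‖ :=
      (kob1 hr2 hs2 h.br.diff hGi (h.W2s hw)).trans
        (mul_le_mul_of_nonneg_right hk2 (norm_nonneg _))
    have hfin := los1_fin hε0.le hε1 hD0 (sub_ne_zero.2 hwy) hkey hx hD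
    refine hfin.trans ?_
    refine mul_le_mul_of_nonneg_right ?_ (by positivity)
    rw [hε]
    nlinarith
  · intro w hw
    rw [indicator_of_notMem hw]

end Pool.Agent.H43.UP
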