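import Pool.Agent.H43.UP.Defs
import Pool.Agent.H79.ES.EBN

/-!
# THEOREM UP, module Int1: integrals of `1 / (w - y)`

`ker_int`, `ker_le`: from `eb_ker` (H79/ES/EBN). `ker_lb`: `1 / ‖w - c‖ ≥ 1 / r` on the ball, times the area `π r^2`.
`ker_diff`: on `ball c (ν s)`: at most `‖1/(w-y)‖ + ‖1/(w-c)‖`, integral at most `6 π ν s`. For `ν s ≤ ‖w - c‖ < s`: `‖y - c‖ ≤ ν^3 s ≤ ν s / 2`, so `‖w - y‖ ≥ ‖w - c‖ / 2 ≥ ν s / 2`, the integrand is `‖y - c‖ / (‖w - y‖ ‖w - c‖) ≤ ν^3 s * 2 / (ν s)^2 = 2 ν / s`, times the area `π s^2`. Together `8 π ν s ≤ 26 ν s`.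
-/

set_option autoImplicit false

open Filter Topology Polynomial Metric Set MeasureTheory

namespace Pool.Agent.H43.UP

private theorem ki_enorm (y w : ℂ) : ‖(1 : ℂ) / (w - y)‖ₑ = ENNReal.ofReal (‖w - y‖⁻¹) := by
  rw [← ofReal_norm, norm_div, norm_one, one_div]

private theorem ki_meas (y : ℂ) : Measurable fun w : ℂ => (1 : ℂ) / (w - y) :=
  measurable_const.div (measurable_id.sub_const y)

private theorem ki_lint (c y : ℂ) {s : ℝ} (hs : 0 < s) :
    ∫⁻ w in ball c s, ‖(1 : ℂ) / (w - y)‖ₑ ≤ ENNReal.ofReal (3 * Real.pi * s) := by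
  simp_rw [ki_enorm]
  exact Pool.Agent.H79.ES.eb_ker c y hs

theorem ker_int (c y : ℂ) (s : ℝ) : IntegrableOn (fun w : ℂ => 1 / (w - y)) (ball c s) := by
  rcases le_or_gt s 0 with hs | hs
  · rw [ball_eq_empty.2 hs]
    exact integrableOn_empty
  · refine ⟨(ki_meas y).aestronglyMeasurable, ?_⟩
    rw [hasFiniteIntegral_iff_enorm]
    exact (ki_lint c y hs).trans_lt ENNReal.ofReal_lt_top

theorem ker_le (c y : ℂ) {s : ℝ} (hs : 0 < s) : ∫ w in ball c s, ‖1 / (w - y)‖ ≤ 3 * Real.pi * s := by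
  rw [integral_norm_eq_lintegral_enorm (ki_meas y).aestronglyMeasurable]
  exact ENNReal.toReal_le_of_le_ofReal (by positivity) (ki_lint c y hs)

private theorem ki_vol (c : ℂ) {r : ℝ} (hr : 0 ≤ r) : volume.real (ball c r) = Real.pi * r ^ 2 := by
  rw [measureReal_def, Complex.volume_ball, ENNReal.toReal_mul, ENNReal.toReal_pow, ENNReal.toReal_ofReal hr]
  rw [mul_comm]
  rfl

theorem ker_lb (c : ℂ) {r : ℝ} (hr : 0 < r) : Real.pi * r ≤ ∫ w in ball c r, ‖1 / (w - c)‖ := by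
  have h1 : ∫ _ in ball c r, r⁻¹ = Real.pi * r := by
    rw [setIntegral_const, ki_vol c hr.le, smul_eq_mul]
    field_simp
  rw [← h1]
  have hfin : volume (ball c r) ≠ ⊤ := measure_ball_lt_top.ne
  refine integral_mono_ae (integrableOn_const hfin) (ker_int c c r).norm ?_
  have h2 : ∀ᵐ w ∂(volume.restrict (ball c r)), w ≠ c := by
    refine ae_restrict_of_ae ?_
    rw [ae_iff]
    simp
  filter_upwards [h2, ae_restrict_mem measurableSet_ball] with w hw hwb
  have h3 : 0 < ‖w - c‖ := norm_pos_iff.2 (sub_ne_zero.2 hw)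
  have h4 : ‖w - c‖ < r := by
    rw [mem_ball, dist_eq_norm] at hwb
    exact hwb
  show r⁻¹ ≤ ‖1 / (w - c)‖
  rw [norm_div, norm_one, one_div]
  exact inv_anti₀ h3 h4.le

theorem ker_diff {c y : ℂ} {s ν : ℝ} (hs : 0 < s) (hν : 0 < ν) (hν1 : ν ≤ 1 / 2) (hy : ‖y - c‖ ≤ ν ^ 3 * s) :
    ∫ w in ball c s, ‖1 / (w - y) - 1 / (w - c)‖ ≤ 26 * ν * s := by
  have hνs : 0 < ν * s := mul_pos hν hs
  have hνs1 : ν * s ≤ s := by nlinarith
  have hsub : ball c (ν * s) ⊆ ball c s := ball_subset_ball hνs1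
  have hI : ∀ t : ℝ, IntegrableOn (fun w : ℂ => ‖1 / (w - y) - 1 / (w - c)‖) (ball c t) := fun t =>
    ((ker_int c y t).sub (ker_int c c t)).norm
  have h1 : ∫ w in ball c (ν * s), ‖1 / (w - y) - 1 / (w - c)‖ ≤ 6 * Real.pi * (ν * s) := by
    have h2 : ∫ w in ball c (ν * s), ‖1 / (w - y) - 1 / (w - c)‖ ≤
        ∫ w in ball c (ν * s), (‖1 / (w - y)‖ + ‖1 / (w - c)‖) :=
      integral_mono (hI _) ((ker_int c y _).norm.add (ker_int c c _).norm) fun w => norm_sub_le _ _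
    rw [integral_add (ker_int c y _).norm (ker_int c c _).norm] at h2
    have h3 := ker_le c y hνs
    have h4 := ker_le c c hνs
    linarith
  have h2 : ∫ w in ball c s \ ball c (ν * s), ‖1 / (w - y) - 1 / (w - c)‖ ≤ 2 * Real.pi * (ν * s) := by
    have hm : MeasurableSet (ball c s \ ball c (ν * s)) := measurableSet_ball.diff measurableSet_ball
    have hfin : volume (ball c s \ ball c (ν * s)) ≠ ⊤ := (measure_mono sdiff_subset).trans_lt measure_ball_lt_top |>.ne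
    have h3 : ∫ w in ball c s \ ball c (ν * s), ‖1 / (w - y) - 1 / (w - c)‖ ≤
        ∫ _ in ball c s \ ball c (ν * s), 2 * ν / s := by
      refine setIntegral_mono_on ((hI s).mono_set sdiff_subset) (integrableOn_const hfin) hm fun w hw => ?_
      obtain ⟨hw1, hw2⟩ := hw
      rw [mem_ball, dist_eq_norm] at hw1 hw2
      rw [not_lt] at hw2
      have h4 : 0 < ‖w - c‖ := hνs.trans_le hw2
      have h5 : ν ^ 3 * s ≤ ν * s / 4 := by
        have : ν ^ 2 ≤ 1 / 4 := by nlinarith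
        nlinarith
      have h6 : ν * s / 2 ≤ ‖w - y‖ := by
        have h7 : ‖w - c‖ ≤ ‖w - y‖ + ‖y - c‖ := by
          have := norm_add_le (w - y) (y - c)
          rwa [sub_add_sub_cancel] at this
        linarith
      have h7 : 0 < ‖w - y‖ := by linarith
      have h8 : (1 : ℂ) / (w - y) - 1 / (w - c) = (y - c) / ((w - y) * (w - c)) := by
        have e1 : w - y ≠ 0 := norm_pos_iff.1 h7
        have e2 : w - c ≠ 0 := norm_pos_iff.1 h4
        field_simp
        ring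
      rw [h8, norm_div, norm_mul, div_le_div_iff₀ (mul_pos h7 h4) hs]
      have h9 : ν * s / 2 * (ν * s) ≤ ‖w - y‖ * ‖w - c‖ := mul_le_mul h6 hw2 hνs.le h7.le
      have h10 : ‖y - c‖ * s ≤ ν ^ 3 * s * s := mul_le_mul_of_nonneg_right hy hs.le
      have h11 : 2 * ν * (ν * s / 2 * (ν * s)) ≤ 2 * ν * (‖w - y‖ * ‖w - c‖) :=
        mul_le_mul_of_nonneg_left h9 (by linarith)
      have h12 : 2 * ν * (ν * s / 2 * (ν * s)) = ν ^ 3 * s * s := by ring
      linarith
    rw [setIntegral_const, smul_eq_mul] at h3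
    have h4 : volume.real (ball c s \ ball c (ν * s)) ≤ Real.pi * s ^ 2 := by
      rw [← ki_vol c hs.le]
      exact measureReal_mono sdiff_subset measure_ball_lt_top.ne
    refine h3.trans ?_
    have h5 : 0 ≤ 2 * ν / s := by positivity
    refine (mul_le_mul_of_nonneg_right h4 h5).trans (le_of_eq ?_)
    field_simp
  have h3 : ∫ w in ball c s, ‖1 / (w - y) - 1 / (w - c)‖ = (∫ w in ball c (ν * s), ‖1 / (w - y) - 1 / (w - c)‖) +
      ∫ w in ball c s \ ball c (ν * s), ‖1 / (w - y) - 1 / (w - c)‖ := by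
    have h4 := setIntegral_sdiff (μ := volume) (f := fun w : ℂ => ‖1 / (w - y) - 1 / (w - c)‖)
      (measurableSet_ball (x := c) (ε := ν * s)) (hI s) hsub
    linarith
  have hpi : Real.pi < 3.15 := Real.pi_lt_d2
  rw [h3]
  nlinarith

end Pool.Agent.H43.UP
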