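import Pool.Agent.H43.UP.PfS
import Pool.Agent.H43.UP.Int1

/-!
# THEOREM UP, module Los3: the loss at the second fold

PROOF. `q = ‖deriv χ c‖ > 0` (`deriv_ne`, H80/AJ/Distort), `t = σ q / 16`, `N = {w ∈ ball c σ | ‖χ w‖ < t}` (measurable). `ball c (σ / 32) ⊆ N`: `‖χ w‖ ≤ 2 q ‖w - c‖` (`kob2` with `w' = c`, radius `s = σ`).
CANCELLATION: `pf (1_N h) = 0`, `h w = (deriv χ w)^2 / χ w`: let `x` be given. If no `u ∈ N` has `gg u = x` all terms vanish. If `u ∈ N`, `gg u = x`: `univ_cover` (H80/AJ/Cover) on `ball c σ`: there is `u' ∈ ball c σ` with `χ u' = - χ u`, so `u' ∈ N`, `gg u' = x`, and every `v ∈ N` over `x` has `χ v = ± χ u`, so is `u` or `u'`. If `χ u = 0` then `u = c`, `dg c = 0` and the term is `0` (also `h c = x / 0 = 0`). Else `dg u = 2 χ u deriv χ u`, `h u / dg u ^ 2 = 1 / (4 (χ u)^3)` and the two terms cancel.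
ESTIMATE: on `N`, `w ≠ c`: `‖1 / (w - c) - h w / deriv χ c‖ ≤ C (σ / r) / ‖w - c‖` (`kob1`, `kob2`). So `‖pf (1_U / (w - c))‖_1 ≤ ‖pf (1_(U \ N) / (w - c))‖_1 + ‖pf (1_N (1 / (w - c) - h / deriv χ c))‖_1 ≤ ∫_(U \ N) ‖1/(w-c)‖ + C (σ / r) 3 π σ`
and `∫_N ‖1/(w-c)‖ ≥ π σ / 32` (`ker_lb`); `π / 32 ≥ 0.098`; with `C (σ/r) 3 π ≤ 0.03` the loss is at least `σ / 16`.
-/

set_option autoImplicit false

open Filter Topology Polynomial Metric Set MeasureTheory

namespace Pool.Agent.H43.UP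

open Pool.Agent.H61.TT Pool.Agent.H57.CP Pool.Agent.H78.NS Pool.Agent.H80.AJ

private theorem l3_ball {a b : Polynomial ℂ} {c : ℂ} {r σ : ℝ} {χ : ℂ → ℂ} (h : SqC a b c r χ) (hσr : σ ≤ r) :
    DifferentiableOn ℂ χ (ball c σ) ∧ InjOn χ (ball c σ) :=
  ⟨h.diff.mono (ball_subset_ball hσr), h.inj.mono (ball_subset_ball hσr)⟩

/-- the derivative of `gg` in the chart -/
private theorem l3_dg {a b : Polynomial ℂ} {c : ℂ} {r : ℝ} {χ : ℂ → ℂ} (h : SqC a b c r χ) {z : ℂ} (hz : z ∈ ball c r) :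
    dg a b z = 2 * χ z * deriv χ z := by
  have h1 : HasDerivAt (gg a b) (dg a b z) z := (hasStrictDerivAt_gg (h.fin z hz)).hasDerivAt
  have h2 : HasDerivAt χ (deriv χ z) z := (h.diff.differentiableAt (isOpen_ball.mem_nhds hz)).hasDerivAt
  have h3 : HasDerivAt (fun z => gg a b c + χ z ^ 2) (2 * χ z * deriv χ z) z := by
    have h4 := (h2.pow 2).const_add (gg a b c)
    refine h4.congr_deriv ?_
    push_cast
    ring
  have h4 : gg a b =ᶠ[𝓝 z] fun z => gg a b c + χ z ^ 2 := by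
    filter_upwards [isOpen_ball.mem_nhds hz] with w hw
    exact h.sq w hw
  exact h1.unique (h3.congr_of_eventuallyEq h4)

/-- the cancellation -/
private theorem l3_cancel {d : ℕ} {a b : Polynomial ℂ} {c : ℂ} {r σ : ℝ} {χ : ℂ → ℂ} (hR : RatD d a b)
    (h : SqC a b c r χ) (hσ : 0 < σ) (hσr : σ ≤ r / 2) {N : Set ℂ}
    (hN : N = ball c σ ∩ {w | ‖χ w‖ < σ * ‖deriv χ c‖ / 16}) (x : ℂ) :
    pf a b (N.indicator fun w => deriv χ w ^ 2 / χ w) x = 0 := by
  classical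
  have hr := h.hr
  have hσr' : σ ≤ r := by linarith
  obtain ⟨hd, hi⟩ := l3_ball h hσr'
  have hcov := univ_cover hσ hd hi
  rw [h.zero] at hcov
  have hmem : ∀ w ∈ N, w ∈ ball c r := fun w hw => by
    rw [hN] at hw
    exact ball_subset_ball hσr' hw.1
  -- the partner
  have hex : ∀ w ∈ N, ∃ u ∈ N, χ u = -χ w := by
    intro w hw
    rw [hN] at hw ⊢
    have h1 : -χ w ∈ ball (0 : ℂ) (σ * ‖deriv χ c‖ / 16) := by
      rw [mem_ball_zero_iff, norm_neg]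
      exact hw.2
    obtain ⟨u, hu, hu2⟩ := hcov h1
    refine ⟨u, ⟨hu, ?_⟩, hu2⟩
    show ‖χ u‖ < _
    rw [hu2, norm_neg]
    exact hw.2
  choose! τ hτN hτ using hex
  have hxx : ∀ w ∈ N, τ (τ w) = w := by
    intro w hw
    apply h.inj (hmem _ (hτN _ (hτN w hw))) (hmem w hw)
    rw [hτ _ (hτN w hw), hτ w hw, neg_neg]
  have e1 : pf a b (N.indicator fun w => deriv χ w ^ 2 / χ w) x =
      ∑ y ∈ (fs a b x).filter (fun y => y ∈ N), (deriv χ y ^ 2 / χ y) / dg a b y ^ 2 := by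
    unfold pf
    rw [Finset.sum_filter]
    refine Finset.sum_congr rfl fun y _ => ?_
    by_cases hy : y ∈ N
    · rw [indicator_of_mem hy, if_pos hy]
    · rw [indicator_of_notMem hy, if_neg hy, zero_div]
  have hterm : ∀ y ∈ N, χ y ≠ 0 → (deriv χ y ^ 2 / χ y) / dg a b y ^ 2 = 1 / (4 * χ y ^ 3) := by
    intro y hy h0
    have h1 : deriv χ y ≠ 0 := by
      apply norm_pos_iff.1
      refine deriv_ne hr h.diff h.inj (w := y) ?_
      rw [hN] at hy
      exact ball_subset_closedBall (ball_subset_ball hσr hy.1)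
    rw [l3_dg h (hmem y hy)]
    field_simp
    ring
  rw [e1]
  refine Finset.sum_involution (fun y _ => τ y) ?_ ?_ ?_ ?_
  · intro y hy
    obtain ⟨-, hyN⟩ := Finset.mem_filter.1 hy
    by_cases h0 : χ y = 0
    · have h1 : χ (τ y) = 0 := by rw [hτ y hyN, h0, neg_zero]
      rw [h0, h1, div_zero, div_zero, zero_div, zero_div, add_zero]
    · have h1 : χ (τ y) ≠ 0 := by rw [hτ y hyN]; exact neg_ne_zero.2 h0
      rw [hterm y hyN h0, hterm _ (hτN y hyN) h1, hτ y hyN]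
      field_simp
      ring
  · intro y hy hne
    obtain ⟨-, hyN⟩ := Finset.mem_filter.1 hy
    intro he
    apply hne
    have h1 := hτ y hyN
    rw [he] at h1
    have h2 : χ y = 0 := self_eq_neg.1 h1
    rw [h2, div_zero, zero_div]
  · intro y hy
    obtain ⟨hyf, hyN⟩ := Finset.mem_filter.1 hy
    refine Finset.mem_filter.2 ⟨?_, hτN y hyN⟩
    rw [fs_iff hR] at hyf ⊢
    refine ⟨h.fin _ (hmem _ (hτN y hyN)), ?_⟩
    rw [← hyf.2, h.sq _ (hmem _ (hτN y hyN)), h.sq _ (hmem y hyN), hτ y hyN, neg_sq]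
  · intro y hy
    obtain ⟨-, hyN⟩ := Finset.mem_filter.1 hy
    exact hxx y hyN

/-- the estimate near the fold -/
private theorem l3_est {D X Y v : ℂ} {ε : ℝ} (hε : ε ≤ 1 / 2) (hD : 0 < ‖D‖) (h1 : ‖Y - D‖ ≤ ε * ‖D‖)
    (h2 : ‖X - D * v‖ ≤ ε * ‖D‖ * ‖v‖) : ‖1 / v - D⁻¹ * (Y ^ 2 / X)‖ ≤ 8 * ε * ‖1 / v‖ := by
  have hε0 : 0 ≤ ε := by
    have := (norm_nonneg _).trans h1
    by_contra hcon
    push Not at hcon
    nlinarith
  by_cases hv : v = 0
  · subst hv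
    rw [mul_zero, sub_zero, norm_zero, mul_zero] at h2
    have hX : X = 0 := norm_le_zero_iff.1 h2
    rw [hX, div_zero, div_zero, mul_zero, sub_zero, norm_zero, mul_zero]
  · have hv' : 0 < ‖v‖ := norm_pos_iff.2 hv
    have hDn : D ≠ 0 := norm_pos_iff.1 hD
    have hX : ‖D‖ * ‖v‖ / 2 ≤ ‖X‖ := by
      have h3 : ‖D * v‖ ≤ ‖X‖ + ‖X - D * v‖ := by
        have := norm_sub_le X (X - D * v)
        rwa [sub_sub_cancel] at this
      rw [norm_mul] at h3
      nlinarith [mul_pos hD hv']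
    have hX0 : X ≠ 0 := by
      apply norm_pos_iff.1
      nlinarith [mul_pos hD hv']
    have e : 1 / v - D⁻¹ * (Y ^ 2 / X) = ((X - D * v) * D + (D - Y) * (D + Y) * v) / (v * X * D) := by
      field_simp
      ring
    have hYn : ‖D + Y‖ ≤ 3 * ‖D‖ := by
      have h3 : D + Y = 2 * D + (Y - D) := by ring
      rw [h3]
      refine (norm_add_le _ _).trans ?_
      rw [norm_mul, Complex.norm_ofNat]
      nlinarith
    have hnum : ‖(X - D * v) * D + (D - Y) * (D + Y) * v‖ ≤ 4 * ε * ‖D‖ ^ 2 * ‖v‖ := by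
      refine (norm_add_le _ _).trans ?_
      rw [norm_mul, norm_mul, norm_mul, norm_sub_rev D Y]
      have h3 : ‖X - D * v‖ * ‖D‖ ≤ ε * ‖D‖ * ‖v‖ * ‖D‖ := mul_le_mul_of_nonneg_right h2 hD.le
      have h4 : ‖Y - D‖ * ‖D + Y‖ ≤ ε * ‖D‖ * (3 * ‖D‖) := mul_le_mul h1 hYn (norm_nonneg _) (by positivity)
      have h5 : ‖Y - D‖ * ‖D + Y‖ * ‖v‖ ≤ ε * ‖D‖ * (3 * ‖D‖) * ‖v‖ := mul_le_mul_of_nonneg_right h4 hv'.le
      nlinarith
    rw [e, norm_div, norm_mul, norm_mul, norm_div, norm_one, div_le_iff₀ (by positivity)]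
    refine hnum.trans ?_
    have h3 : 8 * ε * (1 / ‖v‖) * (‖v‖ * ‖X‖ * ‖D‖) = 8 * ε * ‖D‖ * ‖X‖ := by
      field_simp
    rw [h3]
    have h4 : 8 * ε * ‖D‖ * (‖D‖ * ‖v‖ / 2) ≤ 8 * ε * ‖D‖ * ‖X‖ := mul_le_mul_of_nonneg_left hX (by positivity)
    nlinarith

theorem los3 : ∃ C : ℝ, 1 ≤ C ∧ ∀ {d : ℕ} {a b : Polynomial ℂ} {c : ℂ} {r s σ : ℝ} {χ : ℂ → ℂ} {U : Set ℂ}, RatD d a b →
    SqC a b c r χ → 0 < σ → C * σ ≤ r → MeasurableSet U → ball c σ ⊆ U → U ⊆ ball c s →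
    ∫ x, ‖pf a b (U.indicator fun w => 1 / (w - c)) x‖ ≤ (∫ w in U, ‖1 / (w - c)‖) - σ / 16 := by
  have hCK := one_le_CK
  refine ⟨4000 * CK, by linarith, ?_⟩
  intro d a b c r s σ χ U hR h hσ hCσ hUm hbU hUs
  have hr := h.hr
  have hσr : σ ≤ r / 2 := by nlinarith
  obtain ⟨ε, hε⟩ : ∃ ε, ε = CK * (σ / r) := ⟨_, rfl⟩
  have hε1 : ε ≤ 1 / 4000 := by
    rw [hε, ← mul_div_assoc, div_le_iff₀ hr]
    linarith
  have hε0 : 0 ≤ ε := by
    rw [hε]
    positivity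
  have hD : 0 < ‖deriv χ c‖ := deriv_ne hr h.diff h.inj (mem_closedBall_self (by positivity))
  obtain ⟨N, hN⟩ : ∃ N : Set ℂ, N = ball c σ ∩ {w | ‖χ w‖ < σ * ‖deriv χ c‖ / 16} := ⟨_, rfl⟩
  have hcan := l3_cancel hR h hσ hσr hN
  have hNb : N ⊆ ball c σ := by
    rw [hN]
    exact inter_subset_left
  have hNU : N ⊆ U := hNb.trans hbU
  have hχc : ContinuousOn χ (ball c σ) := (l3_ball h (by linarith)).1.continuousOn
  have hNo : IsOpen N := by
    have h1 := hχc.norm.isOpen_inter_preimage isOpen_ball (isOpen_Iio (a := σ * ‖deriv χ c‖ / 16))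
    rw [hN]
    exact h1
  have hNm := hNo.measurableSet
  -- the two estimates
  have hk1 : ∀ w ∈ ball c σ, ‖deriv χ w - deriv χ c‖ ≤ ε * ‖deriv χ c‖ := fun w hw => by
    rw [hε]
    exact kob1 hr hσr h.diff h.inj hw
  have hk2 : ∀ w ∈ ball c σ, ‖χ w - deriv χ c * (w - c)‖ ≤ ε * ‖deriv χ c‖ * ‖w - c‖ := fun w hw => by
    have h1 := kob2 hr hσr h.diff h.inj hw (mem_ball_self hσ)
    rw [h.zero, sub_zero] at h1
    rw [hε]
    exact h1
  have hsm : ball c (σ / 32) ⊆ N := by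
    intro w hw
    have hwσ : w ∈ ball c σ := ball_subset_ball (by linarith) hw
    rw [hN]
    refine ⟨hwσ, ?_⟩
    show ‖χ w‖ < _
    have h1 := hk2 w hwσ
    have h2 : ‖χ w‖ ≤ ‖χ w - deriv χ c * (w - c)‖ + ‖deriv χ c * (w - c)‖ := by
      have := norm_add_le (χ w - deriv χ c * (w - c)) (deriv χ c * (w - c))
      rwa [sub_add_cancel] at this
    rw [norm_mul] at h2
    rw [mem_ball, dist_eq_norm] at hw
    have h3 : ‖deriv χ c‖ * ‖w - c‖ < ‖deriv χ c‖ * (σ / 32) := mul_lt_mul_of_pos_left hw hD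
    have h4 : ε * (‖deriv χ c‖ * ‖w - c‖) ≤ 1 * (‖deriv χ c‖ * ‖w - c‖) :=
      mul_le_mul_of_nonneg_right (by linarith) (by positivity)
    nlinarith
  obtain ⟨hh, hhe⟩ : ∃ hh : ℂ → ℂ, hh = fun w => deriv χ w ^ 2 / χ w := ⟨_, rfl⟩
  rw [← hhe] at hcan
  obtain ⟨φ1, hφ1⟩ : ∃ φ : ℂ → ℂ, φ = (U \ N).indicator fun w => 1 / (w - c) := ⟨_, rfl⟩
  obtain ⟨φ2, hφ2⟩ : ∃ φ : ℂ → ℂ, φ = N.indicator fun w => 1 / (w - c) - (deriv χ c)⁻¹ * hh w := ⟨_, rfl⟩
  have hest : ∀ w ∈ N, ‖1 / (w - c) - (deriv χ c)⁻¹ * hh w‖ ≤ 8 * ε * ‖1 / (w - c)‖ := by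
    intro w hw
    rw [hhe]
    exact l3_est (by linarith) hD (hk1 w (hNb hw)) (hk2 w (hNb hw))
  have hto := pf_to hR
  have hdec : (U.indicator fun w => 1 / (w - c)) =
      fun z => (fun z => φ1 z + φ2 z) z + (fun z => (deriv χ c)⁻¹ * (N.indicator hh) z) z := by
    funext z
    show _ = φ1 z + φ2 z + (deriv χ c)⁻¹ * (N.indicator hh) z
    rw [hφ1, hφ2]
    by_cases hzN : z ∈ N
    · rw [indicator_of_mem (hNU hzN), indicator_of_notMem (fun h0 => h0.2 hzN), indicator_of_mem hzN, indicator_of_mem hzN]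
      ring
    · by_cases hzU : z ∈ U
      · rw [indicator_of_mem hzU, indicator_of_mem (show z ∈ U \ N from ⟨hzU, hzN⟩), indicator_of_notMem hzN,
          indicator_of_notMem hzN]
        ring
      · rw [indicator_of_notMem hzU, indicator_of_notMem (fun h0 => hzU h0.1), indicator_of_notMem hzN,
          indicator_of_notMem hzN]
        ring
  have hpf : pf a b (U.indicator fun w => 1 / (w - c)) = fun x => pf a b φ1 x + pf a b φ2 x := by
    rw [hdec, hto.add, hto.add, hto.smul]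
    funext x
    show pf a b φ1 x + pf a b φ2 x + (deriv χ c)⁻¹ * pf a b (N.indicator hh) x = _
    rw [hcan x, mul_zero, add_zero]
  have hker := ker_int c c s
  have hI1 : Integrable φ1 := by
    rw [hφ1, integrable_indicator_iff (hUm.diff hNm)]
    exact hker.mono_set (sdiff_subset.trans hUs)
  have hkN : IntegrableOn (fun w : ℂ => 1 / (w - c)) N := hker.mono_set (hNU.trans hUs)
  have hhm : AEStronglyMeasurable (fun w => 1 / (w - c) - (deriv χ c)⁻¹ * hh w) (volume.restrict N) := by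
    have h1 : AEMeasurable χ (volume.restrict N) :=
      ((hχc.mono hNb).aestronglyMeasurable hNm).aemeasurable
    have h2 : AEMeasurable hh (volume.restrict N) := by
      rw [hhe]
      exact ((measurable_deriv χ).pow_const 2).aemeasurable.div h1
    exact (hkN.aestronglyMeasurable.aemeasurable.sub (h2.const_mul _)).aestronglyMeasurable
  have hI2' : IntegrableOn (fun w => 1 / (w - c) - (deriv χ c)⁻¹ * hh w) N := by
    refine Integrable.mono' (hkN.norm.const_mul (8 * ε)) hhm ?_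
    filter_upwards [ae_restrict_mem hNm] with w hw
    exact hest w hw
  have hI2 : Integrable φ2 := by
    rw [hφ2, integrable_indicator_iff hNm]
    exact hI2'
  have hL1 : ∫ x, ‖φ1 x‖ = ∫ w in U \ N, ‖1 / (w - c)‖ := by
    rw [hφ1, ← integral_indicator (hUm.diff hNm)]
    refine integral_congr_ae (ae_of_all _ fun x => ?_)
    exact norm_indicator_eq_indicator_norm _ _
  have hL2 : ∫ x, ‖φ2 x‖ ≤ 8 * ε * (3 * Real.pi * σ) := by
    have e1 : ∫ x, ‖φ2 x‖ = ∫ w in N, ‖1 / (w - c) - (deriv χ c)⁻¹ * hh w‖ := by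
      rw [hφ2, ← integral_indicator hNm]
      refine integral_congr_ae (ae_of_all _ fun x => ?_)
      exact norm_indicator_eq_indicator_norm _ _
    rw [e1]
    have h1 : ∫ w in N, ‖1 / (w - c) - (deriv χ c)⁻¹ * hh w‖ ≤ ∫ w in N, 8 * ε * ‖1 / (w - c)‖ :=
      setIntegral_mono_on hI2'.norm (hkN.norm.const_mul _) hNm fun w hw => hest w hw
    refine h1.trans ?_
    rw [integral_const_mul]
    refine mul_le_mul_of_nonneg_left ?_ (by positivity)
    refine le_trans ?_ (ker_le c c hσ)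
    exact setIntegral_mono_set (ker_int c c σ).norm (ae_of_all _ fun w => norm_nonneg _) hNb.eventuallyLE
  have hUi : IntegrableOn (fun w : ℂ => ‖1 / (w - c)‖) U := (hker.mono_set hUs).norm
  have hsplit : ∫ w in U \ N, ‖1 / (w - c)‖ = (∫ w in U, ‖1 / (w - c)‖) - ∫ w in N, ‖1 / (w - c)‖ :=
    setIntegral_sdiff hNm hUi hNU
  have hlow : Real.pi * (σ / 32) ≤ ∫ w in N, ‖1 / (w - c)‖ := by
    refine (ker_lb c (by positivity)).trans ?_
    exact setIntegral_mono_set hkN.norm (ae_of_all _ fun w => norm_nonneg _) hsm.eventuallyLE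
  have hfin : ∫ x, ‖pf a b (U.indicator fun w => 1 / (w - c)) x‖ ≤ (∫ x, ‖φ1 x‖) + ∫ x, ‖φ2 x‖ := by
    rw [hpf]
    have h1 : ∫ x, ‖pf a b φ1 x + pf a b φ2 x‖ ≤ ∫ x, (‖pf a b φ1 x‖ + ‖pf a b φ2 x‖) :=
      integral_mono ((hto.int φ1 hI1).add (hto.int φ2 hI2)).norm ((hto.int φ1 hI1).norm.add (hto.int φ2 hI2).norm)
        fun x => norm_add_le _ _
    rw [integral_add (hto.int φ1 hI1).norm (hto.int φ2 hI2).norm] at h1
    have h2 := hto.le φ1 hI1
    have h3 := hto.le φ2 hI2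
    linarith
  have hpi1 : Real.pi < 3.15 := Real.pi_lt_d2
  have hpi2 : 3.14 < Real.pi := Real.pi_gt_d2
  have h1 : 8 * ε * (3 * Real.pi * σ) ≤ 8 * (1 / 4000) * (3 * 3.15 * σ) := by
    have h2 : 3 * Real.pi * σ ≤ 3 * 3.15 * σ := by nlinarith
    have h3 : 8 * ε ≤ 8 * (1 / 4000) := by linarith
    exact mul_le_mul h3 h2 (by positivity) (by norm_num)
  rw [hL1, hsplit] at hfin
  have h2 : 3.14 * (σ / 32) ≤ Real.pi * (σ / 32) := mul_le_mul_of_nonneg_right hpi2.le (by positivity)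
  refine hfin.trans ?_
  linarith

end Pool.Agent.H43.UP
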