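import Pool.Agent.H43.UP.Tel
import Pool.Agent.H43.UP.Los1
import Pool.Agent.H43.UP.Los3

/-!
# THEOREM UP, module Los: the loss lemma

PROOF. `κ = 1 / (400 K)`, `ν = 1 / (4000 K)`, `η ≤ ν^3`, `η` small against `1 / (C K)`. By `it_smul` it suffices to take `c = 1`. `n = k1 + 1 + n2 ≤ m`, `q = pf^[n] (1_W)`; `∫ ‖pf^[m+1] 1_W‖ ≤ ∫ ‖pf q‖` (contraction, `it_int`), `∫ ‖q‖ ≤ vol W`. `I = ∫_(W2) ‖1 / (w - c2)‖ ≤ 3 π s2 ≤ 3 π K σ2` (`ker_le`; `σ2 ≤ s2`).
`los1`, `ker_le`, `ker_diff` (`‖y - c2‖ ≤ η σ2 ≤ ν^3 s2`): `∫ ‖q - β 1_(W2) / (w - c2)‖ ≤ ‖β‖ (C η 3 π s2 + 26 ν s2) ≤ ‖β‖ σ2 / 64`. `los3` with `U = W2`, `σ = σ2`: `∫ ‖pf q‖ ≤ ‖β‖ (I - σ2 / 16 + σ2 / 64)`, `vol W ≥ ‖β‖ (I - σ2 / 64)`, and `κ I ≤ 3 π σ2 / 400 ≤ σ2 / 40`; `1/64 + 1/64 + 1/40 ≤ 1/16`.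
-/

set_option autoImplicit false

open Filter Topology Polynomial Metric Set MeasureTheory

namespace Pool.Agent.H43.UP

open Pool.Agent.H61.TT Pool.Agent.H57.CP Pool.Agent.H78.NS Pool.Agent.H80.AJ

private theorem tri' {μ : Measure ℂ} {f1 f2 : ℂ → ℂ} (h1 : Integrable f1 μ) (h2 : Integrable f2 μ) :
    ∫ x, ‖f1 x + f2 x‖ ∂μ ≤ (∫ x, ‖f1 x‖ ∂μ) + (∫ x, ‖f2 x‖ ∂μ) := by
  rw [← integral_add h1.norm h2.norm]
  exact integral_mono (h1.add h2).norm (h1.norm.add h2.norm) fun x => norm_add_le _ _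

private theorem ind_norm' {W : Set ℂ} (Wm : MeasurableSet W) (f : ℂ → ℂ) : ∫ x, ‖W.indicator f x‖ = ∫ x in W, ‖f x‖ := by
  rw [← integral_indicator Wm]
  refine integral_congr_ae (ae_of_all _ fun x => ?_)
  exact norm_indicator_eq_indicator_norm f x

/-- the error of the first approximation -/
private theorem los_err {U : Set ℂ} {c y β : ℂ} {s A ν : ℝ} (Um : MeasurableSet U) (Us : U ⊆ ball c s) (hs : 0 < s) (hν : 0 < ν)
    (hν1 : ν ≤ 1 / 2) (hy : ‖y - c‖ ≤ ν ^ 3 * s) (hA : 0 ≤ A) {q : ℂ → ℂ} (hq : Integrable q)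
    (h1 : ∀ w ∈ U, w ≠ y → ‖q w - β / (w - y)‖ ≤ A * (‖β‖ / ‖w - y‖)) (h0 : ∀ w, w ∉ U → q w = 0) :
    ∫ w, ‖q w - β * U.indicator (fun w => 1 / (w - c)) w‖ ≤ ‖β‖ * ((A * (3 * Real.pi) + 26 * ν) * s) := by
  have hk1 : IntegrableOn (fun w : ℂ => 1 / (w - y)) U := (ker_int c y s).mono_set Us
  have hk2 : IntegrableOn (fun w : ℂ => 1 / (w - c)) U := (ker_int c c s).mono_set Us
  have e1 : ∫ w, ‖q w - β * U.indicator (fun w => 1 / (w - c)) w‖ = ∫ w in U, ‖q w - β * (1 / (w - c))‖ := by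
    rw [← ind_norm' Um]
    refine integral_congr_ae (ae_of_all _ fun w => ?_)
    by_cases hw : w ∈ U
    · simp [hw]
    · simp [hw, h0 w hw]
  have hsub : IntegrableOn (fun w : ℂ => 1 / (w - y) - 1 / (w - c)) (ball c s) := (ker_int c y s).sub (ker_int c c s)
  have hi1 : IntegrableOn (fun w : ℂ => A * ‖β‖ * ‖1 / (w - y)‖) (ball c s) := (ker_int c y s).norm.const_mul _
  have hi2 : IntegrableOn (fun w : ℂ => ‖β‖ * ‖1 / (w - y) - 1 / (w - c)‖) (ball c s) := hsub.norm.const_mul _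
  have hint : IntegrableOn (fun w => A * ‖β‖ * ‖1 / (w - y)‖ + ‖β‖ * ‖1 / (w - y) - 1 / (w - c)‖) (ball c s) :=
    hi1.add hi2
  have hne : ∀ᵐ w : ℂ ∂(volume.restrict U), w ≠ y := by
    refine ae_restrict_of_ae ?_
    rw [ae_iff]
    simp
  have e2 : ∫ w in U, ‖q w - β * (1 / (w - c))‖ ≤
      ∫ w in U, (A * ‖β‖ * ‖1 / (w - y)‖ + ‖β‖ * ‖1 / (w - y) - 1 / (w - c)‖) := by
    refine integral_mono_ae ?_ (hint.mono_set Us) ?_
    · exact (hq.integrableOn.sub (hk2.const_mul β)).norm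
    · filter_upwards [hne, ae_restrict_mem Um] with w hw hwU
      have h2 := h1 w hwU hw
      have h3 : q w - β * (1 / (w - c)) = (q w - β / (w - y)) + β * (1 / (w - y) - 1 / (w - c)) := by ring
      show ‖q w - β * (1 / (w - c))‖ ≤ _
      rw [h3]
      refine (norm_add_le _ _).trans (add_le_add ?_ ?_)
      · refine h2.trans (le_of_eq ?_)
        rw [norm_div, norm_one]
        ring
      · rw [norm_mul]
  have e3 : ∫ w in U, (A * ‖β‖ * ‖1 / (w - y)‖ + ‖β‖ * ‖1 / (w - y) - 1 / (w - c)‖) ≤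
      ∫ w in ball c s, (A * ‖β‖ * ‖1 / (w - y)‖ + ‖β‖ * ‖1 / (w - y) - 1 / (w - c)‖) :=
    setIntegral_mono_set hint (ae_of_all _ fun w => by positivity) (HasSubset.Subset.eventuallyLE Us)
  have e4 : ∫ w in ball c s, (A * ‖β‖ * ‖1 / (w - y)‖ + ‖β‖ * ‖1 / (w - y) - 1 / (w - c)‖) =
      A * ‖β‖ * (∫ w in ball c s, ‖1 / (w - y)‖) + ‖β‖ * (∫ w in ball c s, ‖1 / (w - y) - 1 / (w - c)‖) := by
    rw [integral_add hi1 hi2, integral_const_mul, integral_const_mul]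
  have e5 := ker_le c y hs
  have e6 := ker_diff hs hν hν1 hy
  have e7 := mul_le_mul_of_nonneg_left e5 (mul_nonneg hA (norm_nonneg β))
  have e8 := mul_le_mul_of_nonneg_left e6 (norm_nonneg β)
  rw [e1]
  refine (e2.trans e3).trans ?_
  rw [e4]
  refine (add_le_add e7 e8).trans (le_of_eq ?_)
  ring

private theorem pf_lin {d : ℕ} {a b : Polynomial ℂ} (h : RatD d a b) {q k : ℂ → ℂ} (β : ℂ) (hq : Integrable q) (hk : Integrable k) :
    ∫ x, ‖pf a b q x‖ ≤ ‖β‖ * (∫ x, ‖pf a b k x‖) + ∫ x, ‖q x - β * k x‖ := by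
  have hT := pf_to h
  have h1 : q = fun z => β * k z + (q z - β * k z) := by
    funext z
    ring
  have hi : Integrable fun z => q z - β * k z := hq.sub (hk.const_mul β)
  have h2 : pf a b q = fun z => β * pf a b k z + pf a b (fun z => q z - β * k z) z := by
    conv_lhs => rw [h1]
    rw [hT.add (fun z => β * k z) (fun z => q z - β * k z), hT.smul β k]
  have h3 : ∫ x, ‖pf a b q x‖ = ∫ x, ‖β * pf a b k x + pf a b (fun z => q z - β * k z) x‖ := by
    refine integral_congr_ae (ae_of_all _ fun x => ?_)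
    show ‖pf a b q x‖ = ‖β * pf a b k x + pf a b (fun z => q z - β * k z) x‖
    rw [congrFun h2 x]
  have h4 : ∫ x, ‖β * pf a b k x + pf a b (fun z => q z - β * k z) x‖ ≤
      (∫ x, ‖β * pf a b k x‖) + (∫ x, ‖pf a b (fun z => q z - β * k z) x‖) :=
    tri' ((hT.int k hk).const_mul β) (hT.int _ hi)
  have h5 := hT.le _ hi
  have h6 : ∫ x, ‖β * pf a b k x‖ = ‖β‖ * ∫ x, ‖pf a b k x‖ := by
    rw [← integral_const_mul]
    refine integral_congr_ae (ae_of_all _ fun x => ?_)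
    exact norm_mul _ _
  linarith

theorem los {K : ℝ} (hK : 1 ≤ K) : ∃ η1 : ℝ, 0 < η1 ∧ ∀ {d : ℕ} {a b : Polynomial ℂ} {η : ℝ} {m : ℕ} {W : Set ℂ}, RatD d a b →
    0 < η → η ≤ η1 → MeasurableSet W → volume W ≠ ⊤ → Fld a b K η m W →
    ∀ c : ℂ, ∫ x, ‖(pf a b)^[m + 1] (W.indicator fun _ => c) x‖ ≤ (1 - 1 / (400 * K)) * (‖c‖ * (volume W).toReal) := by
  obtain ⟨C1, hC1, hlos1⟩ := los1
  obtain ⟨C3, hC3, hlos3⟩ := los3
  have hK0 : 0 < K := by linarith
  set ν : ℝ := 1 / (4000 * K) with hν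
  have hν0 : 0 < ν := by positivity
  have hν1 : ν ≤ 1 / 2 := by
    rw [hν, div_le_div_iff₀ (by positivity) (by norm_num)]
    linarith
  refine ⟨min (ν ^ 3) (1 / (2000 * (C1 * C3 * K))), lt_min (by positivity) (by positivity), ?_⟩
  intro d a b η m W hR hη hη1 Wm Wf hF c
  obtain ⟨k1, n2, c1, c2, y, r1, s1, r2, s2, σ2, ψ, G, χ1, χ2, W1, W2, hD⟩ := hF
  have hη2 : η ≤ ν ^ 3 := hη1.trans (min_le_left _ _)
  have hη3 : η ≤ 1 / (2000 * (C1 * C3 * K)) := hη1.trans (min_le_right _ _)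
  have hη4 : 2000 * (C1 * C3 * K) * η ≤ 1 := by
    rw [le_div_iff₀ (by positivity)] at hη3
    linarith
  have hCC : C1 ≤ C1 * C3 * K := by
    have h1 : C1 * 1 ≤ C1 * (C3 * K) := by
      apply mul_le_mul_of_nonneg_left _ (by linarith)
      nlinarith
    linarith
  have hCC3 : C3 ≤ C1 * C3 * K := by
    have h1 : C3 * 1 ≤ C3 * (C1 * K) := by
      apply mul_le_mul_of_nonneg_left _ (by linarith)
      nlinarith
    linarith
  have hC1K : C1 * K ≤ C1 * C3 * K := by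
    have h1 : (C1 * K) * 1 ≤ (C1 * K) * C3 := mul_le_mul_of_nonneg_left hC3 (by positivity)
    linarith
  have hp1 : C1 * η ≤ 1 := by
    have := mul_le_mul_of_nonneg_right hCC hη.le
    nlinarith
  have hp3 : C3 * η ≤ 1 := by
    have := mul_le_mul_of_nonneg_right hCC3 hη.le
    nlinarith
  have hp4 : 2000 * (C1 * K * η) ≤ 1 := by
    have := mul_le_mul_of_nonneg_right hC1K hη.le
    nlinarith
  obtain ⟨β, hβ1, hβ2⟩ := hlos1 hR hη hp1 hD
  set n := k1 + 1 + n2 with hn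
  have hT := pf_to hR
  have hone : Integrable (W.indicator fun _ => (1 : ℂ)) := (integrable_indicator_iff Wm).2 (integrableOn_const Wf)
  set q := (pf a b)^[n] (W.indicator fun _ => 1) with hqd
  obtain ⟨hqi, hql⟩ := it_int hT hone n
  have hvol : ∫ x, ‖W.indicator (fun _ => (1 : ℂ)) x‖ = (volume W).toReal := by
    rw [ind_norm' Wm, setIntegral_const, smul_eq_mul, norm_one, mul_one]
    rfl
  rw [hvol] at hql
  have hσs : σ2 ≤ s2 := by
    by_contra hcon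
    rw [not_le] at hcon
    have h1 : ball c2 σ2 ⊆ ball c2 s2 := hD.W2b.trans hD.W2s
    rcases le_or_gt s2 0 with h2 | h2
    · have h3 : c2 ∈ ball c2 s2 := h1 (mem_ball_self hD.hσ)
      rw [mem_ball, dist_self] at h3
      linarith
    · have h3 : c2 + (s2 : ℂ) ∈ ball c2 σ2 := by
        rw [mem_ball, dist_eq_norm, add_sub_cancel_left, Complex.norm_real, Real.norm_eq_abs, abs_of_pos h2]
        exact hcon
      have h4 := h1 h3
      rw [mem_ball, dist_eq_norm, add_sub_cancel_left, Complex.norm_real, Real.norm_eq_abs, abs_of_pos h2] at h4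
      exact lt_irrefl _ h4
  have hs0 : 0 < s2 := lt_of_lt_of_le hD.hσ hσs
  have W2m : MeasurableSet W2 := hD.W2o.measurableSet
  have hy : ‖y - c2‖ ≤ ν ^ 3 * s2 := by
    refine hD.hy.trans ?_
    exact mul_le_mul hη2 hσs hD.hσ.le (by positivity)
  have herr := los_err (A := C1 * η) W2m hD.W2s hs0 hν0 hν1 hy (by positivity) hqi hβ1 hβ2
  set k : ℂ → ℂ := W2.indicator fun w => 1 / (w - c2) with hk
  have hki : Integrable k := (integrable_indicator_iff W2m).2 ((ker_int c2 c2 s2).mono_set hD.W2s)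
  have hkn : ∫ x, ‖k x‖ = ∫ w in W2, ‖1 / (w - c2)‖ := ind_norm' W2m _
  have hI : ∫ w in W2, ‖1 / (w - c2)‖ ≤ 3 * Real.pi * s2 :=
    (setIntegral_mono_set (ker_int c2 c2 s2).norm (ae_of_all _ fun w => norm_nonneg _)
      (HasSubset.Subset.eventuallyLE hD.W2s)).trans (ker_le c2 c2 hs0)
  have hC3r : C3 * σ2 ≤ r2 := by
    have h1 : σ2 ≤ η * r2 := hσs.trans hD.hs2
    have h2 := mul_le_mul_of_nonneg_left h1 (by linarith : (0 : ℝ) ≤ C3)
    have h3 := mul_le_mul_of_nonneg_right hp3 hD.sq2.hr.le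
    linarith
  have hl3 := hlos3 hR hD.sq2 hD.hσ hC3r W2m hD.W2b hD.W2s
  have hlin := pf_lin hR β hqi hki
  -- lower bound of the volume
  have hlow : ‖β‖ * (∫ x, ‖k x‖) ≤ (∫ x, ‖q x‖) + ∫ x, ‖q x - β * k x‖ := by
    have h1 : ∫ x, ‖q x + -(q x - β * k x)‖ ≤ (∫ x, ‖q x‖) + (∫ x, ‖-(q x - β * k x)‖) :=
      tri' hqi (hqi.sub (hki.const_mul β)).neg
    have h2 : ∫ x, ‖q x + -(q x - β * k x)‖ = ‖β‖ * ∫ x, ‖k x‖ := by
      rw [← integral_const_mul]
      refine integral_congr_ae (ae_of_all _ fun x => ?_)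
      show ‖q x + -(q x - β * k x)‖ = ‖β‖ * ‖k x‖
      rw [← norm_mul]
      congr 1
      ring
    have h3 : ∫ x, ‖-(q x - β * k x)‖ = ∫ x, ‖q x - β * k x‖ := by
      refine integral_congr_ae (ae_of_all _ fun x => ?_)
      exact norm_neg _
    linarith
  -- numbers
  have hpi2 : Real.pi < 3.15 := Real.pi_lt_d2
  have hpi0 := Real.pi_pos
  have hE : ∫ x, ‖q x - β * k x‖ ≤ ‖β‖ * (σ2 / 64) := by
    refine herr.trans ?_
    apply mul_le_mul_of_nonneg_left _ (norm_nonneg _)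
    have h1 : (C1 * η * (3 * Real.pi) + 26 * ν) * s2 ≤ (C1 * η * (3 * Real.pi) + 26 * ν) * (K * σ2) := by
      apply mul_le_mul_of_nonneg_left hD.hK
      positivity
    refine h1.trans ?_
    have h2 : (C1 * η * (3 * Real.pi) + 26 * ν) * (K * σ2) = (3 * Real.pi * (C1 * K * η) + 26 * (ν * K)) * σ2 := by ring
    rw [h2]
    have h3 : ν * K = 1 / 4000 := by
      rw [hν]
      field_simp
    rw [h3]
    have h4 : 3 * Real.pi * (C1 * K * η) ≤ 3 * 3.15 * (1 / 2000) := by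
      apply mul_le_mul _ _ (by positivity) (by norm_num)
      · linarith
      · linarith
    have h5 := hD.hσ
    have h6 : (3 * Real.pi * (C1 * K * η) + 26 * (1 / 4000)) * σ2 ≤ (1 / 64) * σ2 := by
      apply mul_le_mul_of_nonneg_right _ h5.le
      linarith
    linarith
  have hI2 : ∫ x, ‖k x‖ ≤ 10 * K * σ2 := by
    rw [hkn]
    refine hI.trans ?_
    have h1 := hD.hK
    have h2 : 3 * Real.pi * s2 ≤ 3 * 3.15 * (K * σ2) := by
      apply mul_le_mul _ h1 hs0.le (by norm_num)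
      linarith
    have h3 : 0 < K * σ2 := mul_pos hK0 hD.hσ
    linarith
  rw [← hkn] at hl3
  have hmain : ∫ x, ‖pf a b q x‖ ≤ (1 - 1 / (400 * K)) * (volume W).toReal := by
    have hβ0 := norm_nonneg β
    have h1 : ∫ x, ‖pf a b q x‖ ≤ ‖β‖ * ((∫ x, ‖k x‖) - σ2 / 16) + ‖β‖ * (σ2 / 64) := by
      have h2 := mul_le_mul_of_nonneg_left hl3 hβ0
      linarith
    have h3 : ‖β‖ * (∫ x, ‖k x‖) - ‖β‖ * (σ2 / 64) ≤ (volume W).toReal := by linarith
    have hκ0 : 0 ≤ 1 - 1 / (400 * K) := by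
      rw [sub_nonneg, div_le_one (by positivity)]
      linarith
    have h4 := mul_le_mul_of_nonneg_left h3 hκ0
    have h5 : 1 / (400 * K) * (‖β‖ * ∫ x, ‖k x‖) ≤ ‖β‖ * (σ2 / 40) := by
      have h6 := mul_le_mul_of_nonneg_left hI2 hβ0
      have h7 := mul_le_mul_of_nonneg_left h6 (by positivity : (0 : ℝ) ≤ 1 / (400 * K))
      have h10 : 1 / (400 * K) * (‖β‖ * (10 * K * σ2)) = ‖β‖ * (σ2 / 40) := by
        field_simp
        ring
      rw [h10] at h7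
      exact h7
    have h8 : 0 ≤ 1 / (400 * K) * (‖β‖ * (σ2 / 64)) := by
      have := hD.hσ
      positivity
    have h9 : 0 ≤ ‖β‖ * σ2 := mul_nonneg hβ0 hD.hσ.le
    nlinarith
  -- the constant `c`
  have hc1 : (W.indicator fun _ => c) = fun z => c * W.indicator (fun _ => (1 : ℂ)) z := by
    funext z
    by_cases hz : z ∈ W <;> simp [hz]
  have hc2 : ∫ x, ‖(pf a b)^[m + 1] (W.indicator fun _ => c) x‖ =
      ‖c‖ * ∫ x, ‖(pf a b)^[m + 1] (W.indicator fun _ => 1) x‖ := by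
    rw [hc1, it_smul hT, ← integral_const_mul]
    refine integral_congr_ae (ae_of_all _ fun x => ?_)
    exact norm_mul _ _
  have hc3 : ∫ x, ‖(pf a b)^[m + 1] (W.indicator fun _ => 1) x‖ ≤ ∫ x, ‖pf a b q x‖ := by
    have h1 : m + 1 = (m - n) + (n + 1) := by
      have := hD.km
      omega
    rw [h1, Function.iterate_add_apply, Function.iterate_succ_apply' (pf a b) n]
    exact (it_int hT (hT.int _ hqi) (m - n)).2
  rw [hc2]
  have hc4 := mul_le_mul_of_nonneg_left (hc3.trans hmain) (norm_nonneg c)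
  refine hc4.trans (le_of_eq ?_)
  ring

end Pool.Agent.H43.UP
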