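import Pool.Agent.H43.UP.Defs

/-!
# THEOREM UP, module Tel: telescoping for a transfer operator

`RR F V φ = F (1_(Vᶜ) φ)`. `tel`: `∫ ‖RR φ‖ ≤ ∫ ‖1_(Vᶜ) φ‖ = ∫ ‖φ‖ - ∫_V ‖φ‖`, induction. `tel0`: the partial sums of the nonnegative terms are bounded: `summable_of_sum_range_le`, `Summable.tendsto_atTop_zero`.
`TN F V N φ = 1_V ∑_(j < N) RR^j (F (1_V φ))`. `tn_le`: triangle inequality and `tel` for `F (1_V φ)`. `dec`: `D = u + F (1_V D) + RR D`, `u = D - F D`; iterate: `D = ∑_(j<N) RR^j u + ∑_(j<N) RR^j (F (1_V D)) + RR^N D`; so `∫_V ‖D - TN N D‖ ≤ ∑_(j<N) ∫_V ‖RR^j u‖ + ∫_V ‖RR^N D‖ ≤ ∫ ‖u‖ + ...`.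
`tn_ret`: `supp` gives by induction: `F^[j] (1_W φ) x ≠ 0` implies `x = g^[j] y`, `y ∈ W`, the orbit finite up to `j`; so for `0 < j < m` the function `F^[j] (1_W φ)` vanishes on `V`, so `RR^[j] (F (1_W φ)) = F^[j+1] (1_W φ)` for `j < m`, for `j = m - 1` it vanishes outside `V`, so `RR^[j] .. = 0` for `j ≥ m`.
`tn_nr`: the same with a set without returns.
-/

set_option autoImplicit false

open Filter Topology Polynomial Metric Set MeasureTheory

namespace Pool.Agent.H43.UP

variable {F : (ℂ → ℂ) → ℂ → ℂ} {b : Polynomial ℂ} {g : ℂ → ℂ} {V : Set ℂ}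

/-- the transfer operator outside `V` -/
noncomputable def RR (F : (ℂ → ℂ) → ℂ → ℂ) (V : Set ℂ) (φ : ℂ → ℂ) : ℂ → ℂ := F (Vᶜ.indicator φ)

/-- the first return operator with return times at most `N` -/
noncomputable def TN (F : (ℂ → ℂ) → ℂ → ℂ) (V : Set ℂ) (N : ℕ) (φ : ℂ → ℂ) : ℂ → ℂ :=
  V.indicator fun x => ∑ j ∈ Finset.range N, (RR F V)^[j] (F (V.indicator φ)) x

private theorem F_zero (hF : TO F b g) : F (fun _ => 0) = fun _ => 0 := by
  have h := hF.smul 0 (fun _ => 0)
  simp only [zero_mul] at h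
  exact h

private theorem rr_add (hF : TO F b g) (φ ψ : ℂ → ℂ) :
    RR F V (fun z => φ z + ψ z) = fun z => RR F V φ z + RR F V ψ z := by
  unfold RR
  have h : Vᶜ.indicator (fun z => φ z + ψ z) = fun z => Vᶜ.indicator φ z + Vᶜ.indicator ψ z := by
    funext z
    exact congrFun (Set.indicator_add Vᶜ φ ψ) z
  rw [h, hF.add]

private theorem rr_zero (hF : TO F b g) : RR F V (fun _ => 0) = fun _ => 0 := by
  unfold RR
  rw [Set.indicator_zero]
  exact F_zero hF

private theorem rrn_add (hF : TO F b g) (n : ℕ) (φ ψ : ℂ → ℂ) :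
    (RR F V)^[n] (fun z => φ z + ψ z) = fun z => (RR F V)^[n] φ z + (RR F V)^[n] ψ z := by
  induction n with
  | zero => rfl
  | succ n ih =>
    rw [Function.iterate_succ_apply', ih, rr_add hF]
    simp only [Function.iterate_succ_apply']

private theorem rrn_zero (hF : TO F b g) (n : ℕ) : (RR F V)^[n] (fun _ => 0) = fun _ => 0 := by
  induction n with
  | zero => rfl
  | succ n ih => rw [Function.iterate_succ_apply', ih, rr_zero hF]

theorem it_int (hF : TO F b g) {φ : ℂ → ℂ} (hφ : Integrable φ) (n : ℕ) : Integrable (F^[n] φ) ∧ ∫ x, ‖F^[n] φ x‖ ≤ ∫ x, ‖φ x‖ := by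
  induction n with
  | zero => exact ⟨hφ, le_refl _⟩
  | succ n ih =>
    simp only [Function.iterate_succ_apply']
    exact ⟨hF.int _ ih.1, (hF.le _ ih.1).trans ih.2⟩

theorem it_smul (hF : TO F b g) (n : ℕ) (c : ℂ) (φ : ℂ → ℂ) : F^[n] (fun z => c * φ z) = fun z => c * F^[n] φ z := by
  induction n with
  | zero => rfl
  | succ n ih =>
    rw [Function.iterate_succ_apply', ih, hF.smul]
    simp only [Function.iterate_succ_apply']

theorem it_add (hF : TO F b g) (n : ℕ) (φ ψ : ℂ → ℂ) : F^[n] (fun z => φ z + ψ z) = fun z => F^[n] φ z + F^[n] ψ z := by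
  induction n with
  | zero => rfl
  | succ n ih =>
    rw [Function.iterate_succ_apply', ih, hF.add]
    simp only [Function.iterate_succ_apply']

theorem it_sum (hF : TO F b g) {ι : Type} (n : ℕ) (I : Finset ι) (φ : ι → ℂ → ℂ) :
    F^[n] (fun z => ∑ i ∈ I, φ i z) = fun z => ∑ i ∈ I, F^[n] (φ i) z := by
  classical
  induction I using Finset.induction_on with
  | empty =>
    simp only [Finset.sum_empty]
    induction n with
    | zero => rfl
    | succ n ih => rw [Function.iterate_succ_apply', ih, F_zero hF]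
  | insert i I hi ih =>
    simp only [Finset.sum_insert hi]
    rw [it_add hF, ih]

theorem it_supp (hF : TO F b g) (n : ℕ) (φ : ℂ → ℂ) {x : ℂ} (hx : F^[n] φ x ≠ 0) :
    ∃ y, φ y ≠ 0 ∧ (∀ j < n, b.eval (g^[j] y) ≠ 0) ∧ g^[n] y = x := by
  induction n generalizing x with
  | zero => exact ⟨x, hx, fun j hj => absurd hj (Nat.not_lt_zero j), rfl⟩
  | succ n ih =>
    rw [Function.iterate_succ_apply'] at hx
    obtain ⟨y', h1, h2, h3⟩ := hF.supp _ _ hx
    obtain ⟨y, h4, h5, h6⟩ := ih h1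
    refine ⟨y, h4, fun j hj => ?_, ?_⟩
    · rcases Nat.lt_succ_iff_lt_or_eq.1 hj with h7 | h7
      · exact h5 j h7
      · rw [h7, h6]
        exact h2
    · rw [Function.iterate_succ_apply', h6, h3]

theorem rr_int (hF : TO F b g) (hV : MeasurableSet V) {φ : ℂ → ℂ} (hφ : Integrable φ) (n : ℕ) : Integrable ((RR F V)^[n] φ) := by
  induction n with
  | zero => exact hφ
  | succ n ih =>
    rw [Function.iterate_succ_apply']
    exact hF.int _ (ih.indicator hV.compl)

theorem tel (hF : TO F b g) (hV : MeasurableSet V) {φ : ℂ → ℂ} (hφ : Integrable φ) (N : ℕ) :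
    (∑ j ∈ Finset.range N, ∫ x in V, ‖(RR F V)^[j] φ x‖) + ∫ x, ‖(RR F V)^[N] φ x‖ ≤ ∫ x, ‖φ x‖ := by
  induction N with
  | zero => simp
  | succ N ih =>
    have h1 := rr_int hF hV hφ N
    have h2 : ∫ x, ‖(RR F V)^[N + 1] φ x‖ ≤ ∫ x in Vᶜ, ‖(RR F V)^[N] φ x‖ := by
      rw [Function.iterate_succ_apply']
      refine (hF.le _ (h1.indicator hV.compl)).trans (le_of_eq ?_)
      rw [← integral_indicator hV.compl]
      refine integral_congr_ae (Eventually.of_forall fun x => ?_)
      exact norm_indicator_eq_indicator_norm _ _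
    have h3 : (∫ x in V, ‖(RR F V)^[N] φ x‖) + ∫ x in Vᶜ, ‖(RR F V)^[N] φ x‖ = ∫ x, ‖(RR F V)^[N] φ x‖ :=
      integral_add_compl hV h1.norm
    rw [Finset.sum_range_succ]
    linarith

theorem tel0 (hF : TO F b g) (hV : MeasurableSet V) {φ : ℂ → ℂ} (hφ : Integrable φ) :
    Tendsto (fun N => ∫ x in V, ‖(RR F V)^[N] φ x‖) atTop (𝓝 0) := by
  have h1 : Summable fun N => ∫ x in V, ‖(RR F V)^[N] φ x‖ := by
    refine summable_of_sum_range_le (c := ∫ x, ‖φ x‖) (fun N => ?_) (fun N => ?_)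
    · exact integral_nonneg fun x => norm_nonneg _
    · have h2 := tel hF hV hφ N
      have h3 : 0 ≤ ∫ x, ‖(RR F V)^[N] φ x‖ := integral_nonneg fun x => norm_nonneg _
      linarith
  exact h1.tendsto_atTop_zero

theorem tn_int (hF : TO F b g) (hV : MeasurableSet V) {φ : ℂ → ℂ} (hφ : Integrable φ) (N : ℕ) :
    Integrable (TN F V N φ) := by
  unfold TN
  refine Integrable.indicator ?_ hV
  exact integrable_finsetSum _ fun j _ => rr_int hF hV (hF.int _ (hφ.indicator hV)) j

theorem tn_le (hF : TO F b g) (hV : MeasurableSet V) {φ : ℂ → ℂ} (hφ : Integrable φ) (N : ℕ) :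
    ∫ x, ‖TN F V N φ x‖ ≤ ∫ x, ‖F (V.indicator φ) x‖ := by
  have h0 := hF.int _ (hφ.indicator hV)
  have h1 : ∫ x, ‖TN F V N φ x‖ = ∫ x in V, ‖∑ j ∈ Finset.range N, (RR F V)^[j] (F (V.indicator φ)) x‖ := by
    rw [← integral_indicator hV]
    refine integral_congr_ae (Eventually.of_forall fun x => ?_)
    exact norm_indicator_eq_indicator_norm _ _
  have h2 : ∫ x in V, ‖∑ j ∈ Finset.range N, (RR F V)^[j] (F (V.indicator φ)) x‖ ≤
      ∫ x in V, ∑ j ∈ Finset.range N, ‖(RR F V)^[j] (F (V.indicator φ)) x‖ := by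
    refine integral_mono ?_ ?_ fun x => norm_sum_le _ _
    · exact (integrable_finsetSum _ fun j _ => (rr_int hF hV h0 j).integrableOn).norm
    · exact integrable_finsetSum _ fun j _ => (rr_int hF hV h0 j).norm.integrableOn
  rw [integral_finsetSum _ fun j _ => (rr_int hF hV h0 j).norm.integrableOn] at h2
  have h3 := tel hF hV h0 N
  have h4 : 0 ≤ ∫ x, ‖(RR F V)^[N] (F (V.indicator φ)) x‖ := integral_nonneg fun x => norm_nonneg _
  linarith

theorem tn_add (hF : TO F b g) (N : ℕ) (φ ψ : ℂ → ℂ) :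
    TN F V N (fun z => φ z + ψ z) = fun z => TN F V N φ z + TN F V N ψ z := by
  have h : V.indicator (fun z => φ z + ψ z) = fun z => V.indicator φ z + V.indicator ψ z := by
    funext z
    exact congrFun (Set.indicator_add V φ ψ) z
  unfold TN
  rw [h, hF.add]
  funext x
  by_cases hx : x ∈ V
  · rw [Set.indicator_of_mem hx, Set.indicator_of_mem hx, Set.indicator_of_mem hx, ← Finset.sum_add_distrib]
    refine Finset.sum_congr rfl fun j _ => ?_
    rw [rrn_add hF]
  · rw [Set.indicator_of_notMem hx, Set.indicator_of_notMem hx, Set.indicator_of_notMem hx, add_zero]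

theorem dec (hF : TO F b g) (hV : MeasurableSet V) {D : ℂ → ℂ} (hD : Integrable D) (N : ℕ) :
    ∫ x in V, ‖D x - TN F V N D x‖ ≤ (∫ x, ‖D x - F D x‖) + ∫ x in V, ‖(RR F V)^[N] D x‖ := by
  obtain ⟨u, hu⟩ : ∃ u : ℂ → ℂ, u = fun x => D x - F D x := ⟨_, rfl⟩
  have hui : Integrable u := by
    rw [hu]
    exact hD.sub (hF.int _ hD)
  have h0 := hF.int _ (hD.indicator hV)
  have hsplit : F D = fun z => F (V.indicator D) z + RR F V D z := by
    have h1 : D = fun z => V.indicator D z + Vᶜ.indicator D z := by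
      funext z
      exact (congrFun (Set.indicator_self_add_compl V D) z).symm
    conv_lhs => rw [h1]
    rw [hF.add]
    rfl
  have hD1 : D = fun z => (u z + F (V.indicator D) z) + RR F V D z := by
    funext z
    have h1 : F D z = F (V.indicator D) z + RR F V D z := congrFun hsplit z
    have h2 : u z = D z - F D z := congrFun hu z
    rw [h2, h1]
    ring
  have hit : ∀ n : ℕ, D = fun z => (∑ j ∈ Finset.range n, (RR F V)^[j] u z +
      ∑ j ∈ Finset.range n, (RR F V)^[j] (F (V.indicator D)) z) + (RR F V)^[n] D z := by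
    intro n
    induction n with
    | zero =>
      funext z
      simp
    | succ n ih =>
      have h2 : (RR F V)^[n] D = fun z => ((RR F V)^[n] u z + (RR F V)^[n] (F (V.indicator D)) z) + (RR F V)^[n + 1] D z := by
        have h3 : (RR F V)^[n] D = (RR F V)^[n] (fun z => (u z + F (V.indicator D) z) + RR F V D z) :=
          congrArg (fun φ => (RR F V)^[n] φ) hD1
        rw [h3, rrn_add hF, rrn_add hF]
        funext z
        rw [Function.iterate_succ_apply]
      funext z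
      have h4 : D z = (∑ j ∈ Finset.range n, (RR F V)^[j] u z +
          ∑ j ∈ Finset.range n, (RR F V)^[j] (F (V.indicator D)) z) + (RR F V)^[n] D z := congrFun ih z
      have h5 : (RR F V)^[n] D z = ((RR F V)^[n] u z + (RR F V)^[n] (F (V.indicator D)) z) + (RR F V)^[n + 1] D z :=
        congrFun h2 z
      rw [Finset.sum_range_succ, Finset.sum_range_succ]
      linear_combination h4 + h5
  have h6 : ∀ x ∈ V, D x - TN F V N D x = ∑ j ∈ Finset.range N, (RR F V)^[j] u x + (RR F V)^[N] D x := by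
    intro x hx
    have h7 : D x = (∑ j ∈ Finset.range N, (RR F V)^[j] u x +
        ∑ j ∈ Finset.range N, (RR F V)^[j] (F (V.indicator D)) x) + (RR F V)^[N] D x := congrFun (hit N) x
    unfold TN
    rw [Set.indicator_of_mem hx]
    linear_combination h7
  have h8 : ∫ x in V, ‖D x - TN F V N D x‖ = ∫ x in V, ‖∑ j ∈ Finset.range N, (RR F V)^[j] u x + (RR F V)^[N] D x‖ := by
    refine setIntegral_congr_fun hV fun x hx => ?_
    exact congrArg norm (h6 x hx)
  have h9 : ∫ x in V, ‖∑ j ∈ Finset.range N, (RR F V)^[j] u x + (RR F V)^[N] D x‖ ≤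
      ∫ x in V, (∑ j ∈ Finset.range N, ‖(RR F V)^[j] u x‖ + ‖(RR F V)^[N] D x‖) := by
    refine integral_mono ?_ ?_ fun x => (norm_add_le _ _).trans (by
      have := norm_sum_le (Finset.range N) fun j => (RR F V)^[j] u x
      linarith)
    · exact ((integrable_finsetSum _ fun j _ => (rr_int hF hV hui j).integrableOn).add
        (rr_int hF hV hD N).integrableOn).norm
    · exact (integrable_finsetSum _ fun j _ => (rr_int hF hV hui j).norm.integrableOn).add
        (rr_int hF hV hD N).norm.integrableOn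
  rw [integral_add (integrable_finsetSum _ fun j _ => (rr_int hF hV hui j).norm.integrableOn)
    (rr_int hF hV hD N).norm.integrableOn,
    integral_finsetSum _ fun j _ => (rr_int hF hV hui j).norm.integrableOn] at h9
  have h10 := tel hF hV hui N
  have h11 : 0 ≤ ∫ x, ‖(RR F V)^[N] u x‖ := integral_nonneg fun x => norm_nonneg _
  have h12 : ∫ x, ‖u x‖ = ∫ x, ‖D x - F D x‖ := by rw [hu]
  rw [h8, ← h12]
  linarith

/-- as long as there is no return the two operators agree -/
private theorem rr_eq (F : (ℂ → ℂ) → ℂ → ℂ) {V : Set ℂ} (ψ : ℂ → ℂ) {M : ℕ}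
    (h : ∀ j, 0 < j → j < M → ∀ x ∈ V, F^[j] ψ x = 0) (j : ℕ) (hj : j < M) : (RR F V)^[j] (F ψ) = F^[j + 1] ψ := by
  induction j with
  | zero => rfl
  | succ j ih =>
    rw [Function.iterate_succ_apply', ih (by omega)]
    unfold RR
    have h1 : Vᶜ.indicator (F^[j + 1] ψ) = F^[j + 1] ψ := by
      rw [Set.indicator_eq_self]
      intro x hx hxV
      exact hx (h (j + 1) (by omega) hj x hxV)
    rw [h1, ← Function.iterate_succ_apply' F]

theorem tn_ret (hF : TO F b g) {W : Set ℂ} (hW : W ⊆ V) {m : ℕ} (hm : 0 < m) (nr : ∀ z ∈ W, ∀ j, 0 < j → j < m → g^[j] z ∉ V)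
    (ret : ∀ z ∈ W, g^[m] z ∈ V) (φ : ℂ → ℂ) {N : ℕ} (hN : m ≤ N) : TN F V N (W.indicator φ) = F^[m] (W.indicator φ) := by
  obtain ⟨ψ, hψ⟩ : ∃ ψ : ℂ → ℂ, ψ = W.indicator φ := ⟨_, rfl⟩
  have hVψ : V.indicator (W.indicator φ) = ψ := by
    rw [hψ, Set.indicator_indicator, Set.inter_eq_self_of_subset_right hW]
  have hmem : ∀ y, ψ y ≠ 0 → y ∈ W := by
    intro y hy
    by_contra hcon
    rw [hψ, Set.indicator_of_notMem hcon] at hy
    exact hy rfl
  have h1 : ∀ j, 0 < j → j < m → ∀ x ∈ V, F^[j] ψ x = 0 := by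
    intro j hj hjm x hx
    by_contra hcon
    obtain ⟨y, h2, -, h3⟩ := it_supp hF j ψ hcon
    apply nr y (hmem y h2) j hj hjm
    rw [h3]
    exact hx
  have h2 : ∀ x, x ∉ V → F^[m] ψ x = 0 := by
    intro x hx
    by_contra hcon
    obtain ⟨y, h2, -, h3⟩ := it_supp hF m ψ hcon
    apply hx
    rw [← h3]
    exact ret y (hmem y h2)
  have h3 := rr_eq F ψ h1
  have h4 : ∀ j, m ≤ j → (RR F V)^[j] (F ψ) = fun _ => 0 := by
    intro j hj
    obtain ⟨i, rfl⟩ : ∃ i, j = i + (m - 1 + 1) := ⟨j - m, by omega⟩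
    rw [Function.iterate_add_apply, Function.iterate_succ_apply', h3 (m - 1) (by omega)]
    have h5 : RR F V (F^[m - 1 + 1] ψ) = fun _ => 0 := by
      unfold RR
      have h6 : Vᶜ.indicator (F^[m - 1 + 1] ψ) = fun _ => 0 := by
        funext x
        by_cases hx : x ∈ V
        · exact Set.indicator_of_notMem (Set.notMem_compl_iff.2 hx) _
        · have h7 : x ∈ Vᶜ := hx
          rw [Set.indicator_of_mem h7, Nat.sub_add_cancel hm]
          exact h2 x hx
      rw [h6]
      exact F_zero hF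
    rw [h5, rrn_zero hF]
  unfold TN
  rw [hVψ, ← hψ]
  funext x
  by_cases hx : x ∈ V
  · rw [Set.indicator_of_mem hx, Finset.sum_eq_single (m - 1)]
    · rw [h3 (m - 1) (by omega), Nat.sub_add_cancel hm]
    · intro j _ hjm
      rcases lt_or_ge j m with h5 | h5
      · rw [h3 j h5]
        exact h1 (j + 1) (by omega) (by omega) x hx
      · rw [h4 j h5]
    · intro h5
      exact absurd (Finset.mem_range.2 (by omega)) h5
  · rw [Set.indicator_of_notMem hx, h2 x hx]

theorem tn_nr (hF : TO F b g) {S : Set ℂ} (hS : S ⊆ V)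
    (nr : ∀ z ∈ S, ∀ n, 0 < n → (∀ j < n, b.eval (g^[j] z) ≠ 0) → g^[n] z ∉ V) (φ : ℂ → ℂ) (N : ℕ) :
    TN F V N (S.indicator φ) = 0 := by
  obtain ⟨ψ, hψ⟩ : ∃ ψ : ℂ → ℂ, ψ = S.indicator φ := ⟨_, rfl⟩
  have hVψ : V.indicator (S.indicator φ) = ψ := by
    rw [hψ, Set.indicator_indicator, Set.inter_eq_self_of_subset_right hS]
  have hmem : ∀ y, ψ y ≠ 0 → y ∈ S := by
    intro y hy
    by_contra hcon
    rw [hψ, Set.indicator_of_notMem hcon] at hy
    exact hy rfl
  have h1 : ∀ j, 0 < j → ∀ x ∈ V, F^[j] ψ x = 0 := by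
    intro j hj x hx
    by_contra hcon
    obtain ⟨y, h2, h4, h3⟩ := it_supp hF j ψ hcon
    apply nr y (hmem y h2) j hj h4
    rw [h3]
    exact hx
  unfold TN
  rw [hVψ]
  funext x
  by_cases hx : x ∈ V
  · rw [Set.indicator_of_mem hx]
    refine Finset.sum_eq_zero fun j _ => ?_
    rw [rr_eq F ψ (M := j + 1) (fun i hi _ => h1 i hi) j (by omega)]
    exact h1 (j + 1) (by omega) x hx
  · rw [Set.indicator_of_notMem hx]
    rfl

end Pool.Agent.H43.UP
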