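import Pool.Agent.H43.UP.PfS
import Pool.Agent.H43.UP.Tel

/-!
# THEOREM UP, module UnfL: unfolded return domains

PROOF. `A = (deriv G c0)^2`, `q = |deriv G c0|`. `pf^[m] (1_W c) = 1_V c (deriv G)^2` (`pf_br`). For `w ∈ V ⊆ ball c0 (2 ρ)`, `2 ρ ≤ η R`, `kob1` with `s = 2 ρ`: `‖deriv G w - deriv G c0‖ ≤ CK η q ≤ q / 2`, so `‖(deriv G w)^2 - A‖ ≤ CK η q * (5/2) q` and `‖deriv G w‖^2 ≥ q^2 / 4`.
`∫_V ‖..‖ ≤ (5/2) CK η ‖c‖ q^2 vol V`, and `‖c‖ vol W ≥ ∫ ‖pf^[m] (1_W c)‖ ≥ ‖c‖ (q^2 / 4) vol V` (the push forward is a contraction: `pf_to`, `it_int` of module Tel). So the constant `10 CK` is enough.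
-/

set_option autoImplicit false

open Filter Topology Polynomial Metric Set MeasureTheory

namespace Pool.Agent.H43.UP

open Pool.Agent.H61.TT Pool.Agent.H57.CP Pool.Agent.H78.NS

variable {d : ℕ} {a b : Polynomial ℂ}

theorem unf_abs (h : RatD d a b) {V W : Set ℂ} {c0 : ℂ} {ρ η : ℝ} {m : ℕ} (hη : 0 < η) (hη1 : 2 * CK * η ≤ 1) (hρ : 0 < ρ)
    (Vo : IsOpen V) (Vs : V ⊆ ball c0 (2 * ρ)) (Wm : MeasurableSet W) (Wf : volume W ≠ ⊤) (hW : Unf a b V c0 ρ η m W) :
    ∃ A : ℂ, ∀ c : ℂ, ∫ x in V, ‖(pf a b)^[m] (W.indicator fun _ => c) x - c * A‖ ≤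
      10 * CK * η * (‖c‖ * (volume W).toReal) := by
  obtain ⟨R, G, hR, hG, rfl⟩ := hW
  have hCK := one_le_CK
  have hRp : 0 < R := by
    by_contra hc
    have h1 : η * R ≤ 0 := mul_nonpos_of_nonneg_of_nonpos hη.le (not_lt.1 hc)
    linarith
  have hη2 : 2 * η ≤ 1 := by nlinarith
  have hs : 2 * ρ ≤ R / 2 := by nlinarith
  have hVR : V ⊆ ball c0 R := Vs.trans (ball_subset_ball (by linarith))
  have hi := pbr_inj hG
  obtain ⟨q, hq⟩ : ∃ q, q = ‖deriv G c0‖ := ⟨_, rfl⟩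
  have hq0 : 0 ≤ q := by rw [hq]; exact norm_nonneg _
  have hk : ∀ w ∈ V, ‖deriv G w - deriv G c0‖ ≤ CK * η * q := by
    intro w hw
    refine (kob1 hRp hs hG.diff hi (Vs hw)).trans ?_
    rw [← hq]
    have h1 : 2 * ρ / R ≤ η := (div_le_iff₀ hRp).2 hR
    exact mul_le_mul_of_nonneg_right (mul_le_mul_of_nonneg_left h1 (by linarith)) hq0
  have hk2 : CK * η * q ≤ q / 2 := by nlinarith
  have hlo : ∀ w ∈ V, q / 2 ≤ ‖deriv G w‖ := by
    intro w hw
    have h1 := hk w hw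
    have h2 : ‖deriv G c0‖ ≤ ‖deriv G w‖ + ‖deriv G w - deriv G c0‖ := by
      have h3 := norm_sub_le (deriv G w) (deriv G w - deriv G c0)
      rwa [sub_sub_cancel] at h3
    rw [← hq] at h2
    linarith
  have hup : ∀ w ∈ V, ‖deriv G w ^ 2 - deriv G c0 ^ 2‖ ≤ 5 / 2 * CK * η * q ^ 2 := by
    intro w hw
    have h1 := hk w hw
    have h2 : ‖deriv G w + deriv G c0‖ ≤ 5 / 2 * q := by
      have h3 : deriv G w + deriv G c0 = (deriv G w - deriv G c0) + 2 * deriv G c0 := by ring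
      rw [h3]
      refine (norm_add_le _ _).trans ?_
      rw [norm_mul, ← hq, Complex.norm_ofNat]
      linarith
    have h4 : deriv G w ^ 2 - deriv G c0 ^ 2 =
        (deriv G w - deriv G c0) * (deriv G w + deriv G c0) := by ring
    rw [h4, norm_mul]
    calc ‖deriv G w - deriv G c0‖ * ‖deriv G w + deriv G c0‖
        ≤ (CK * η * q) * (5 / 2 * q) := mul_le_mul h1 h2 (norm_nonneg _) ((norm_nonneg _).trans h1)
      _ = 5 / 2 * CK * η * q ^ 2 := by ring
  have hVf : volume V < ⊤ := (measure_mono Vs).trans_lt measure_ball_lt_top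
  refine ⟨deriv G c0 ^ 2, fun c => ?_⟩
  rw [pf_br h hG hVR fun _ => c]
  have h1 : ∫ x in V, ‖V.indicator (fun w => c * deriv G w ^ 2) x - c * deriv G c0 ^ 2‖ ≤
      ‖c‖ * (5 / 2 * CK * η * q ^ 2) * (volume V).toReal := by
    have h2 := norm_setIntegral_le_of_norm_le_const (μ := volume) (s := V)
      (f := fun x => ‖V.indicator (fun w => c * deriv G w ^ 2) x - c * deriv G c0 ^ 2‖)
      (C := ‖c‖ * (5 / 2 * CK * η * q ^ 2)) hVf fun x hx => by
        rw [norm_norm, indicator_of_mem hx, ← mul_sub, norm_mul]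
        exact mul_le_mul_of_nonneg_left (hup x hx) (norm_nonneg _)
    exact (le_abs_self _).trans h2
  have hint : Integrable ((G '' V).indicator fun _ => c) :=
    (integrable_indicator_iff Wm).2 (integrableOn_const Wf)
  have h3 := it_int (pf_to h) hint m
  rw [pf_br h hG hVR fun _ => c] at h3
  have h4 : ∫ x, ‖(G '' V).indicator (fun _ => c) x‖ = ‖c‖ * (volume (G '' V)).toReal := by
    have e : (fun x => ‖(G '' V).indicator (fun _ => c) x‖) = (G '' V).indicator fun _ => ‖c‖ := by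
      funext x
      rw [norm_indicator_eq_indicator_norm]
    rw [e, integral_indicator Wm, setIntegral_const, smul_eq_mul, mul_comm]
    rfl
  have h5 : ∫ x, ‖V.indicator (fun w => c * deriv G w ^ 2) x‖ =
      ∫ x in V, ‖c * deriv G x ^ 2‖ := by
    rw [← integral_indicator Vo.measurableSet]
    refine integral_congr_ae (Eventually.of_forall fun x => ?_)
    show ‖V.indicator (fun w => c * deriv G w ^ 2) x‖ = _
    rw [norm_indicator_eq_indicator_norm]
  have h6 : ‖c‖ * (q ^ 2 / 4) * (volume V).toReal ≤ ∫ x in V, ‖c * deriv G x ^ 2‖ := by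
    have h7 : ∫ x in V, (‖c‖ * (q ^ 2 / 4) : ℝ) = ‖c‖ * (q ^ 2 / 4) * (volume V).toReal := by
      rw [setIntegral_const, smul_eq_mul, mul_comm]
      rfl
    rw [← h7]
    refine setIntegral_mono_on (integrableOn_const hVf.ne) ?_ Vo.measurableSet fun x hx => ?_
    · exact ((integrable_indicator_iff Vo.measurableSet).1 h3.1).norm
    · rw [norm_mul, norm_pow]
      refine mul_le_mul_of_nonneg_left ?_ (norm_nonneg _)
      have h8 := pow_le_pow_left₀ (by linarith) (hlo x hx) 2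
      calc q ^ 2 / 4 = (q / 2) ^ 2 := by ring
        _ ≤ _ := h8
  have h9 : ‖c‖ * (q ^ 2 / 4) * (volume V).toReal ≤ ‖c‖ * (volume (G '' V)).toReal := by
    rw [← h4]
    exact h6.trans (h5 ▸ h3.2)
  refine h1.trans ?_
  have h10 : 0 ≤ CK * η := by positivity
  calc ‖c‖ * (5 / 2 * CK * η * q ^ 2) * (volume V).toReal
      = 10 * (CK * η) * (‖c‖ * (q ^ 2 / 4) * (volume V).toReal) := by ring
    _ ≤ 10 * (CK * η) * (‖c‖ * (volume (G '' V)).toReal) :=
        mul_le_mul_of_nonneg_left h9 (by positivity)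
    _ = 10 * CK * η * (‖c‖ * (volume (G '' V)).toReal) := by ring

end Pool.Agent.H43.UP
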