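import Pool.Agent.H43.UP.Core
import Pool.Agent.H43.UP.UnfL
import Pool.Agent.H43.UP.Los

/-!
# THEOREM UP, module Fin: the end of the proof (sections III and IV)

`κ = 1 / (400 K)`, `η' = κ^2 / 10^12`, `η = min (η' / (10 CK)) η1`, `D' = 1_Z D`, `F = Ff a b Z`. `Core` for `D'`, `F`, `η'`.
-/

set_option autoImplicit false

open Filter Topology Polynomial Metric Set MeasureTheory

namespace Pool.Agent.H43.UP

open Pool.Agent.H61.TT Pool.Agent.H57.CP Pool.Agent.H78.NS

private theorem toR {S : Set ℂ} {f : ℂ → ℂ} {r : ℝ} (hf : IntegrableOn f S) (hr : 0 ≤ r)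
    (h : ∫⁻ x in S, ‖f x‖ₑ ≤ ENNReal.ofReal r) : ∫ x in S, ‖f x‖ ≤ r := by
  rw [integral_norm_eq_lintegral_enorm hf.aestronglyMeasurable]
  exact ENNReal.toReal_le_of_le_ofReal hr h

/-- sections III and IV of THEOREM UP -/
theorem up_end {K : ℝ} (hK : 1 ≤ K) : ∃ η : ℝ, 0 < η ∧ ∀ {d : ℕ} {a b : Polynomial ℂ} {Z V : Set ℂ} {c0 : ℂ} {ρ : ℝ} {ι : Type}
    [Countable ι] {W : ι → Set ℂ} {m : ι → ℕ} {i0 : ι} {D P : ℂ → ℂ}, Dat d a b Z V c0 ρ K η ι W m i0 →
    DD a b Z V (W i0) c0 ρ η D P → False := by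
  classical
  obtain ⟨η1, hη1, hlos⟩ := los hK
  have hK0 : 0 < K := by linarith
  have hCK := one_le_CK
  have hCK0 : 0 < CK := by linarith
  set κ : ℝ := 1 / (400 * K) with hκd
  have hκ : 0 < κ := by positivity
  have hκ1 : κ ≤ 1 := by
    rw [hκd, div_le_one (by positivity)]
    linarith
  set η' : ℝ := κ ^ 2 / 10 ^ 12 with hη'
  have hη'0 : 0 < η' := by positivity
  have hη'1 : η' ≤ 1 := by
    have : κ ^ 2 ≤ 1 := pow_le_one₀ hκ.le hκ1
    rw [hη', div_le_one (by positivity)]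
    linarith
  set η : ℝ := min (η' / (10 * CK)) η1 with hηd
  have hη : 0 < η := lt_min (by positivity) hη1
  have hη2 : 10 * CK * η ≤ η' := by
    have h1 : η ≤ η' / (10 * CK) := min_le_left _ _
    rw [le_div_iff₀ (by positivity)] at h1
    linarith
  have hη3 : η ≤ η' := by nlinarith
  have hη4 : 2 * CK * η ≤ 1 := by nlinarith
  refine ⟨η, hη, ?_⟩
  intro d a b Z V c0 ρ ι _ W m i0 D P hA hB
  have hF : TO (Ff a b Z) b (gg a b) := ff_to hA.rt hA.Zm
  have Vm : MeasurableSet V := hA.Vo.measurableSet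
  have Wm : ∀ i, MeasurableSet (W i) := fun i => (hA.Wo i).measurableSet
  have Vf : volume V ≠ ⊤ := ne_top_of_le_ne_top measure_ball_lt_top.ne (measure_mono hA.Vs)
  have Wf : ∀ i, volume (W i) ≠ ⊤ := fun i => ne_top_of_le_ne_top Vf (measure_mono (hA.WV i))
  have hρ := hA.hρ
  have hp : 0 < ‖P c0‖ := norm_pos_iff.2 hB.Pn
  have hDV : IntegrableOn D V := hB.Di.mono_set hA.VZ
  have hPm : AEStronglyMeasurable P (volume.restrict V) := hB.Pd.continuousOn.aestronglyMeasurable Vm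
  have hDP : IntegrableOn (fun x => D x - P x) V :=
    ⟨hDV.aestronglyMeasurable.sub hPm, lt_of_le_of_lt hB.hV ENNReal.ofReal_lt_top⟩
  have hPi : IntegrableOn P V := by
    have h1 : IntegrableOn (fun x => D x - (D x - P x)) V := hDV.sub hDP
    refine h1.congr (ae_of_all _ fun x => ?_)
    show D x - (D x - P x) = P x
    ring
  set D' : ℂ → ℂ := Z.indicator D with hD'
  have hD'i : Integrable D' := (integrable_indicator_iff hA.Zm).2 hB.Di
  have hD'V : ∀ x ∈ V, D' x = D x := fun x hx => indicator_of_mem (hA.VZ hx) D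
  have hv0 : 0 ≤ (volume (W i0)).toReal := ENNReal.toReal_nonneg
  -- the three bounds
  have b1 : ∫ x in V, ‖D' x - P x‖ ≤ η' * ‖P c0‖ * ρ ^ 2 := by
    have h1 : ∫ x in V, ‖D x - P x‖ ≤ η * ‖P c0‖ * ρ ^ 2 := toR hDP (by positivity) hB.hV
    have h2 : ∫ x in V, ‖D' x - P x‖ = ∫ x in V, ‖D x - P x‖ := by
      refine setIntegral_congr_fun Vm fun x hx => ?_
      show ‖D' x - P x‖ = ‖D x - P x‖
      rw [hD'V x hx]
    rw [h2]
    refine h1.trans ?_
    gcongr
  have hvol : ENNReal.ofReal (η * ‖P c0‖) * volume (W i0) = ENNReal.ofReal (η * ‖P c0‖ * (volume (W i0)).toReal) := by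
    rw [ENNReal.ofReal_mul (p := η * ‖P c0‖) (by positivity), ENNReal.ofReal_toReal (Wf i0)]
  have b2 : ∫ x in W i0, ‖D' x - P x‖ ≤ η' * ‖P c0‖ * (volume (W i0)).toReal := by
    have h1 : ∫ x in W i0, ‖D x - P x‖ ≤ η * ‖P c0‖ * (volume (W i0)).toReal := by
      refine toR (hDP.mono_set (hA.WV i0)) (by positivity) ?_
      rw [← hvol]
      exact hB.hC
    have h2 : ∫ x in W i0, ‖D' x - P x‖ = ∫ x in W i0, ‖D x - P x‖ := by
      refine setIntegral_congr_fun (Wm i0) fun x hx => ?_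
      show ‖D' x - P x‖ = ‖D x - P x‖
      rw [hD'V x (hA.WV i0 hx)]
    rw [h2]
    refine h1.trans ?_
    gcongr
  have hpfZ : ∀ x ∈ Z, pf a b D' x = pf a b D x := by
    intro x hx
    refine Finset.sum_congr rfl fun y hy => ?_
    have h1 := mem_fs hA.rt hy
    have h2 : y ∈ Z := hA.Zi y h1.1 (by rw [h1.2]; exact hx)
    rw [hD', indicator_of_mem h2]
  have hdiff : (fun x => D' x - Ff a b Z D' x) = Z.indicator fun x => D x - pf a b D x := by
    funext x
    by_cases hx : x ∈ Z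
    · rw [indicator_of_mem hx, ← hpfZ x hx]
      show Z.indicator D x - Z.indicator (pf a b D') x = _
      rw [indicator_of_mem hx, indicator_of_mem hx]
    · rw [indicator_of_notMem hx]
      show Z.indicator D x - Z.indicator (pf a b D') x = _
      rw [indicator_of_notMem hx, indicator_of_notMem hx, sub_zero]
  have b3 : ∫ x, ‖D' x - Ff a b Z D' x‖ ≤ η' * ‖P c0‖ * (volume (W i0)).toReal := by
    have hi : Integrable (fun x => D' x - Ff a b Z D' x) := hD'i.sub (hF.int D' hD'i)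
    have hi2 : Integrable (Z.indicator fun x => D x - pf a b D x) := by
      rw [← hdiff]
      exact hi
    have hi3 : IntegrableOn (fun x => D x - pf a b D x) Z := (integrable_indicator_iff hA.Zm).1 hi2
    have h1 : ∫ x in Z, ‖D x - pf a b D x‖ ≤ η * ‖P c0‖ * (volume (W i0)).toReal := by
      refine toR hi3 (by positivity) ?_
      rw [← hvol]
      exact hB.he
    have h2 : ∫ x, ‖D' x - Ff a b Z D' x‖ = ∫ x in Z, ‖D x - pf a b D x‖ := by
      rw [← integral_indicator hA.Zm]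
      refine integral_congr_ae (ae_of_all _ fun x => ?_)
      show ‖D' x - Ff a b Z D' x‖ = _
      rw [congrFun hdiff x]
      exact norm_indicator_eq_indicator_norm _ x
    rw [h2]
    refine h1.trans ?_
    gcongr
  -- folded
  have hfold : ∀ i, Fld a b K η (m i) (W i) → ∀ c : ℂ, ∫ x, ‖(Ff a b Z)^[m i + 1] ((W i).indicator fun _ => c) x‖ ≤
      (1 - κ) * (‖c‖ * (volume (W i)).toReal) := by
    intro i hi c
    refine (ff_it_le hA.rt hA.Zm hA.Zi ((integrable_indicator_iff (Wm i)).2 (integrableOn_const (Wf i))) (m i)).trans ?_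
    exact hlos hA.rt hη (min_le_right _ _) (Wm i) (Wf i) hi c
  refine core hF hA.Vo i0 hA.Wo hA.WV hA.Wd hA.m0 hA.nr hA.ret hA.cov hρ hκ hκ1 hη'0 le_rfl hA.Vb hA.Vs hA.c0W hA.W0s
    ?_ ?_ (hfold i0 hA.f0) hD'i hB.Pd hPi hB.Pn b1 b2 b3
  · intro i z hz z' hz'
    refine (hA.sm i z hz z' hz').trans_le ?_
    exact mul_le_mul_of_nonneg_right hη3 infDist_nonneg
  · intro i
    rcases hA.uf i with hu | hf
    · left
      obtain ⟨A, hAc⟩ := unf_abs hA.rt hη hη4 hρ hA.Vo hA.Vs (Wm i) (Wf i) hu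
      refine ⟨A, fun c => ?_⟩
      have h1 : ∫ x in V, ‖(Ff a b Z)^[m i] ((W i).indicator fun _ => c) x - c * A‖ =
          ∫ x in V, ‖(pf a b)^[m i] ((W i).indicator fun _ => c) x - c * A‖ := by
        refine setIntegral_congr_fun Vm fun x hx => ?_
        show ‖(Ff a b Z)^[m i] ((W i).indicator fun _ => c) x - c * A‖ = _
        rw [ff_it hA.rt hA.Zi _ _ (hA.VZ hx)]
      rw [h1]
      refine (hAc c).trans ?_
      exact mul_le_mul_of_nonneg_right hη2 (by positivity)
    · right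
      exact hfold i hf

end Pool.Agent.H43.UP
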