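import Pool.Agent.H43.UP.S2B

/-!
# THEOREM UP, section II, module S2E: the value `P c0`

`f2 = (derivative (ww a b)).eval c0 / b.eval c0 ^ 2`. `P c0 = LC (fun x => px V r x c0)`.
`px V r x c0 = q x c0` for `x ∈ J`, `x ∉ V` (`H.rq` with `w = c0 ≠ x`, as `c0 ∈ V`); `px V r α c0 = q α c0 - 1 / (c0 - α)` (`α ∈ V`, `α ≠ c0` by `O.α1`, `O.hρ`); `px V r c0 c0 = r c0 c0`.
`So v n (px ..) = So v n (fun x => q x c0) = - (Y v - B_n Y v_n) = f2 + B_n Y v_n` (`So_tel` with `Ψ = Y`, `H.Ys`, `H.Yv`). `So z2 N (px ..) = So z2 N (fun x => q x c0) - S / (c0 - α)` (`So_V`; `z_i ∈ V` implies `z_i = α`) `= - Y z2 + be_N Y α - S / (c0 - α)`.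
CASE 1 (`q2 ∉ V`, `q2 ≠ c0`): `px V r q2 c0 = q q2 c0 = - Y q2` (`H.Yc`), `P c0 - f2 = B_n (Y v_n - Y q2 - Tq (Y z2 - Y q2)) + Tq B_n be_N Y α - Tq B_n S / (c0 - α)`. The bracket: `0` if `v_n = q2` (`Tq = 0`), else `H.Yt`, `log_le`: `≤ C 3 √(Kc / M) t2`.
CASE 2 (`q2 = c0`, `t2 = ρ`): `P c0 - f2 = B_n (Y v_n - Tq Y z2 + (1 - Tq) r c0 c0) + Tq B_n be_N Y α - Tq B_n S / (c0 - α)`, `‖B_n‖ ≤ Kc t1^2 / ρ ≤ Kc / M` (`t1 ≤ ρ / M`, `ρ ≤ 1`).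
Last term: `‖Tq‖ ≤ 1`, `‖S‖ ≤ 2 Kc t2 / ρ`, `‖c0 - α‖ ≥ ρ / Kc`: `≤ 2 Kc^2 ‖B_n‖ t2 / ρ^2 ≤ 2 Kc^3 t1^2 / ρ^2 ≤ 2 Kc^3 / M`. `‖Y α‖ ≤ C` (`H.Yb`, `O.Rα`).
-/

set_option autoImplicit false

open Filter Topology Polynomial Metric Set MeasureTheory

namespace Pool.Agent.H43.UP

open Pool.Agent.H61.TT Pool.Agent.H57.CP Pool.Agent.H78.NS Pool.Agent.H18.UP

variable {d : ℕ} {a b : Polynomial ℂ} {J V C0 Z : Set ℂ} {c0 q2 z2 α : ℂ} {ρ M Kc R t1 s1 t2 δ1 C : ℝ} {n n' p : ℕ}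
  {q r K : ℂ → ℂ → ℂ} {Y : ℂ → ℂ}

private theorem px_out (H : Pool.Agent.H66.UP.KD a b J Z c0 δ1 R C q r K Y) {x : ℂ} (hx : x ∈ J)
    (hxV : x ∉ V) (hc : c0 ∈ V) : px V r x c0 = q x c0 := by
  have h1 : c0 ≠ x := fun h => hxV (h ▸ hc)
  rw [px, if_neg hxV, H.rq x hx c0 (mem_ball_self H.hδ) h1]

private theorem so_congr {x : ℂ} {N : ℕ} {Φ Ψ : ℂ → ℂ}
    (h : ∀ i < N, Φ ((gg a b)^[i] x) = Ψ ((gg a b)^[i] x)) : So a b x N Φ = So a b x N Ψ := by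
  unfold So
  exact Finset.sum_congr rfl fun i hi => by rw [h i (Finset.mem_range.1 hi)]

private theorem so_neg (x : ℂ) (N : ℕ) (Φ : ℂ → ℂ) :
    So a b x N (fun y => - Φ y) = - So a b x N Φ := by
  unfold So
  rw [← Finset.sum_neg_distrib]
  exact Finset.sum_congr rfl fun i _ => by ring

private theorem so_v (H : Pool.Agent.H66.UP.KD a b J Z c0 δ1 R C q r K Y)
    (O : Ob a b J V C0 c0 ρ M Kc R n n' p q2 z2 α t1 s1 t2) :
    So a b (gg a b c0) n (fun x => px V r x c0) = (derivative (ww a b)).eval c0 / b.eval c0 ^ 2 +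
      (tD a b n (gg a b c0))⁻¹ * Y ((gg a b)^[n] (gg a b c0)) := by
  have h1 : So a b (gg a b c0) n (fun x => px V r x c0) =
      So a b (gg a b c0) n (fun x => q x c0) :=
    so_congr fun i hi => px_out H (O.vJ i hi.le) (O.vV i hi) O.cV
  have h2 := So_tel (a := a) (b := b) (x := gg a b c0) (N := n) (fun i hi => O.vd i hi)
    (fun x => - q x c0) Y (fun i hi => (H.Ys _ (O.vJ i hi.le) (O.vb i hi) (O.vd i hi)).symm)
  rw [so_neg (Φ := fun x => q x c0), H.Yv] at h2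
  rw [h1]
  linear_combination -h2

private theorem so_z (H : Pool.Agent.H66.UP.KD a b J Z c0 δ1 R C q r K Y)
    (O : Ob a b J V C0 c0 ρ M Kc R n n' p q2 z2 α t1 s1 t2) (s : ℕ) (hα : c0 ≠ α) :
    ∃ S : ℂ, ‖S‖ ≤ 2 * ‖(tD a b n' z2)⁻¹‖ ∧
      So a b z2 (n' + p * s) (fun x => px V r x c0) = - Y z2 +
        (tD a b (n' + p * s) z2)⁻¹ * Y α - S * (1 / (c0 - α)) := by
  classical
  obtain ⟨S, hS, h0⟩ := So_V O s
  refine ⟨S, hS, ?_⟩
  have h1 : So a b z2 (n' + p * s) (fun x => px V r x c0) =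
      So a b z2 (n' + p * s)
        (fun x => q x c0 - if x ∈ V then (q x c0 - px V r x c0) else 0) := by
    refine so_congr fun i _ => ?_
    by_cases hV : (gg a b)^[i] z2 ∈ V
    · rw [if_pos hV]
      ring
    · rw [if_neg hV, sub_zero]
      exact px_out H (O.zJ i) hV O.cV
  have h2 := So_tel (a := a) (b := b) (x := z2) (N := n' + p * s) (fun i _ => O.zd i)
    (fun x => - q x c0) Y (fun i _ => (H.Ys _ (O.zJ i) (O.zb i) (O.zd i)).symm)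
  rw [so_neg (Φ := fun x => q x c0), z_per O s] at h2
  have h3 := h0 (fun x => q x c0 - px V r x c0)
  have h4 : q α c0 - px V r α c0 = 1 / (c0 - α) := by
    rw [px, if_pos O.αV, H.rq α O.αJ c0 (mem_ball_self H.hδ) hα]
    ring
  have h5 := So_sub (a := a) (b := b) z2 (n' + p * s) (fun x => q x c0)
    (fun x => if x ∈ V then (q x c0 - px V r x c0) else 0)
  rw [h1, h5, h3]
  simp only [h4]
  linear_combination -h2

private theorem t_le (O : Ob a b J V C0 c0 ρ M Kc R n n' p q2 z2 α t1 s1 t2) :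
    M * t1 ≤ ρ ∧ t1 ≤ 1 := by
  have hM : 0 < M := lt_of_lt_of_le one_pos O.hM
  have h1 : M * t1 ≤ ρ := (mul_le_mul_of_nonneg_left O.ts hM.le).trans O.sρ
  refine ⟨h1, ?_⟩
  have h2 : 1 * t1 ≤ M * t1 := mul_le_mul_of_nonneg_right O.hM O.t1p.le
  have h3 := O.hρ1
  linarith

private theorem third {T B S e : ℂ} (hM : 1 ≤ M) (hK : 1 ≤ Kc) (hρ : 0 < ρ) (ht1 : 0 < t1)
    (ht2 : 0 < t2) (hMt : M * t1 ≤ ρ) (hT : ‖T‖ ≤ 1) (hB : ‖B‖ * t2 ≤ Kc * t1 ^ 2)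
    (hS : ‖S‖ * ρ ≤ 2 * (Kc * t2)) (he : ρ ≤ Kc * ‖e‖) :
    ‖T * B * (S * (1 / e))‖ ≤ 2 * Kc ^ 3 / M := by
  have hM0 : 0 < M := lt_of_lt_of_le one_pos hM
  have hK0 : 0 < Kc := lt_of_lt_of_le one_pos hK
  have he0 : 0 < ‖e‖ := by
    by_contra h
    have h1 : ‖e‖ = 0 := le_antisymm (not_lt.1 h) (norm_nonneg _)
    rw [h1, mul_zero] at he
    linarith
  have h1 : ‖S‖ ≤ 2 * (Kc * t2) / ρ := by
    rw [le_div_iff₀ hρ]
    exact hS
  have h2 : 1 / ‖e‖ ≤ Kc / ρ := by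
    rw [div_le_div_iff₀ he0 hρ, one_mul]
    exact he
  have h3 : t1 / ρ ≤ 1 / M := by
    rw [div_le_div_iff₀ hρ hM0, one_mul, mul_comm]
    exact hMt
  have h4 : (t1 / ρ) ^ 2 ≤ 1 / M := by
    calc (t1 / ρ) ^ 2 ≤ (1 / M) ^ 2 := pow_le_pow_left₀ (by positivity) h3 2
      _ ≤ (1 / M) ^ 1 := pow_le_pow_of_le_one (by positivity)
          (by rw [div_le_one hM0]; exact hM) one_le_two
      _ = 1 / M := pow_one _
  have h5 : ‖T * B * (S * (1 / e))‖ = ‖T‖ * (‖B‖ * (‖S‖ * (1 / ‖e‖))) := by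
    rw [norm_mul, norm_mul, norm_mul, norm_div, norm_one, mul_assoc]
  rw [h5]
  calc ‖T‖ * (‖B‖ * (‖S‖ * (1 / ‖e‖))) ≤ 1 * (‖B‖ * (2 * (Kc * t2) / ρ * (Kc / ρ))) := by
        refine mul_le_mul hT ?_ (by positivity) zero_le_one
        refine mul_le_mul_of_nonneg_left ?_ (norm_nonneg _)
        exact mul_le_mul h1 h2 (by positivity) (by positivity)
    _ = (‖B‖ * t2) * (2 * Kc ^ 2 / ρ ^ 2) := by
        field_simp
    _ ≤ (Kc * t1 ^ 2) * (2 * Kc ^ 2 / ρ ^ 2) :=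
        mul_le_mul_of_nonneg_right hB (by positivity)
    _ = 2 * Kc ^ 3 * (t1 / ρ) ^ 2 := by
        field_simp
    _ ≤ 2 * Kc ^ 3 * (1 / M) := mul_le_mul_of_nonneg_left h4 (by positivity)
    _ = 2 * Kc ^ 3 / M := by ring

private theorem case1 (H : Pool.Agent.H66.UP.KD a b J Z c0 δ1 R C q r K Y)
    (O : Ob a b J V C0 c0 ρ M Kc R n n' p q2 z2 α t1 s1 t2) :
    ‖(tD a b n (gg a b c0))⁻¹ * (Y ((gg a b)^[n] (gg a b c0)) - Y q2 -
      Tq a b (gg a b c0) q2 z2 n * (Y z2 - Y q2))‖ ≤ 3 * C * Kc * Real.sqrt (Kc / M) := by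
  have hC0 : 0 < C := lt_of_lt_of_le one_pos H.hC
  have hM0 : 0 < M := lt_of_lt_of_le one_pos O.hM
  have hK0 : 0 < Kc := lt_of_lt_of_le one_pos O.hK
  obtain ⟨hMt, ht1⟩ := t_le O
  by_cases hv : (gg a b)^[n] (gg a b c0) = q2
  · have h1 : Tq a b (gg a b c0) q2 z2 n = 0 := by
      unfold Tq
      rw [hv, sub_self, zero_div]
    rw [h1, hv, sub_self, zero_mul, sub_zero, mul_zero, norm_zero]
    positivity
  · have hu : 0 < ‖(gg a b)^[n] (gg a b c0) - q2‖ := norm_pos_iff.2 (sub_ne_zero.2 hv)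
    have hul : ‖(gg a b)^[n] (gg a b c0) - q2‖ ≤ ‖z2 - q2‖ := by
      have h1 : M * ‖(gg a b)^[n] (gg a b c0) - q2‖ ≤ M * ‖z2 - q2‖ :=
        (O.ve.trans O.zl).trans (mul_le_mul_of_nonneg_right O.hKM (norm_nonneg _))
      exact le_of_mul_le_mul_left h1 hM0
    have h1 := H.Yt _ (O.vJ n le_rfl) q2 O.qJ z2 (O.zJ 0) O.Rv O.Rq O.Rz hv hul
    have h2 := log_le hu hul
    have hTe : Tq a b (gg a b c0) q2 z2 n =
      ((gg a b)^[n] (gg a b c0) - q2) / (z2 - q2) := rfl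
    rw [hTe, norm_mul]
    have h3 : ‖(gg a b)^[n] (gg a b c0) - q2‖ * ‖z2 - q2‖ ≤ Kc / M * t2 ^ 2 := by
      have h4 : ‖(gg a b)^[n] (gg a b c0) - q2‖ ≤ t2 / M := by
        rw [le_div_iff₀ hM0, mul_comm]
        exact O.ve
      have h5 := O.t2p
      calc ‖(gg a b)^[n] (gg a b c0) - q2‖ * ‖z2 - q2‖ ≤ t2 / M * (Kc * t2) :=
            mul_le_mul h4 O.zu (norm_nonneg _) (by positivity)
        _ = Kc / M * t2 ^ 2 := by ring
    have h6 : Real.sqrt (‖(gg a b)^[n] (gg a b c0) - q2‖ * ‖z2 - q2‖) ≤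
        Real.sqrt (Kc / M) * t2 := by
      refine (Real.sqrt_le_sqrt h3).trans (le_of_eq ?_)
      rw [Real.sqrt_mul (by positivity), Real.sqrt_sq O.t2p.le]
    have h7 : C * ‖(gg a b)^[n] (gg a b c0) - q2‖ *
        (1 + Real.log (‖z2 - q2‖ / ‖(gg a b)^[n] (gg a b c0) - q2‖)) ≤
        3 * C * Real.sqrt (Kc / M) * t2 := by
      calc C * ‖(gg a b)^[n] (gg a b c0) - q2‖ *
          (1 + Real.log (‖z2 - q2‖ / ‖(gg a b)^[n] (gg a b c0) - q2‖)) =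
          C * (‖(gg a b)^[n] (gg a b c0) - q2‖ *
          (1 + Real.log (‖z2 - q2‖ / ‖(gg a b)^[n] (gg a b c0) - q2‖))) := by ring
        _ ≤ C * (3 * Real.sqrt (‖(gg a b)^[n] (gg a b c0) - q2‖ * ‖z2 - q2‖)) :=
            mul_le_mul_of_nonneg_left h2 hC0.le
        _ ≤ C * (3 * (Real.sqrt (Kc / M) * t2)) :=
            mul_le_mul_of_nonneg_left (mul_le_mul_of_nonneg_left h6 (by norm_num)) hC0.le
        _ = 3 * C * Real.sqrt (Kc / M) * t2 := by ring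
    have hs : 0 ≤ Real.sqrt (Kc / M) := Real.sqrt_nonneg _
    have h8 : t1 ^ 2 ≤ 1 := pow_le_one₀ O.t1p.le ht1
    calc ‖(tD a b n (gg a b c0))⁻¹‖ * ‖Y ((gg a b)^[n] (gg a b c0)) - Y q2 -
          ((gg a b)^[n] (gg a b c0) - q2) / (z2 - q2) * (Y z2 - Y q2)‖
        ≤ ‖(tD a b n (gg a b c0))⁻¹‖ * (3 * C * Real.sqrt (Kc / M) * t2) :=
          mul_le_mul_of_nonneg_left (h1.trans h7) (norm_nonneg _)
      _ = 3 * C * Real.sqrt (Kc / M) * (‖(tD a b n (gg a b c0))⁻¹‖ * t2) := by ring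
      _ ≤ 3 * C * Real.sqrt (Kc / M) * (Kc * t1 ^ 2) :=
          mul_le_mul_of_nonneg_left O.B (by positivity)
      _ ≤ 3 * C * Real.sqrt (Kc / M) * (Kc * 1) :=
          mul_le_mul_of_nonneg_left (mul_le_mul_of_nonneg_left h8 hK0.le) (by positivity)
      _ = 3 * C * Kc * Real.sqrt (Kc / M) := by ring

private theorem case2 (H : Pool.Agent.H66.UP.KD a b J Z c0 δ1 R C q r K Y)
    (O : Ob a b J V C0 c0 ρ M Kc R n n' p q2 z2 α t1 s1 t2) (ht : t2 = ρ) (x : ℂ) :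
    ‖(tD a b n (gg a b c0))⁻¹ * (Y ((gg a b)^[n] (gg a b c0)) +
      (1 - Tq a b (gg a b c0) q2 z2 n) * x - Tq a b (gg a b c0) q2 z2 n * Y z2)‖ ≤
        Kc / M * (2 * C + 2 * ‖x‖) := by
  have hC0 : 0 < C := lt_of_lt_of_le one_pos H.hC
  have hM0 : 0 < M := lt_of_lt_of_le one_pos O.hM
  have hK0 : 0 < Kc := lt_of_lt_of_le one_pos O.hK
  obtain ⟨hMt, ht1⟩ := t_le O
  have hT : ‖Tq a b (gg a b c0) q2 z2 n‖ ≤ 1 :=
    (Tq_le O).trans (by rw [div_le_one hM0]; exact O.hKM)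
  have hB : ‖(tD a b n (gg a b c0))⁻¹‖ ≤ Kc / M := by
    have h1 := O.B
    rw [ht] at h1
    have h2 : ‖(tD a b n (gg a b c0))⁻¹‖ * ρ ≤ Kc / M * ρ := by
      refine h1.trans ?_
      have h3 : t1 ≤ ρ / M := by
        rw [le_div_iff₀ hM0, mul_comm]
        exact hMt
      calc Kc * t1 ^ 2 = Kc * (t1 * t1) := by ring
        _ ≤ Kc * (ρ / M * 1) := by
            refine mul_le_mul_of_nonneg_left ?_ hK0.le
            exact mul_le_mul h3 ht1 O.t1p.le (div_nonneg O.hρ.le hM0.le)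
        _ = Kc / M * ρ := by ring
    exact le_of_mul_le_mul_right h2 O.hρ
  have hYv := H.Yb _ (O.vJ n le_rfl) O.Rv
  have hYz : ‖Y z2‖ ≤ C := H.Yb z2 (O.zJ 0) O.Rz
  have h1T : ‖1 - Tq a b (gg a b c0) q2 z2 n‖ ≤ 2 := by
    refine (norm_sub_le _ _).trans ?_
    rw [norm_one]
    linarith
  rw [norm_mul]
  refine mul_le_mul hB ?_ (norm_nonneg _) (by positivity)
  have e1 : ‖(1 - Tq a b (gg a b c0) q2 z2 n) * x‖ ≤ 2 * ‖x‖ := by
    rw [norm_mul]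
    exact mul_le_mul_of_nonneg_right h1T (norm_nonneg _)
  have e2 : ‖Tq a b (gg a b c0) q2 z2 n * Y z2‖ ≤ 1 * C := by
    rw [norm_mul]
    exact mul_le_mul hT hYz (norm_nonneg _) zero_le_one
  refine (norm_sub_le _ _).trans ?_
  have e3 := norm_add_le (Y ((gg a b)^[n] (gg a b c0)))
    ((1 - Tq a b (gg a b c0) q2 z2 n) * x)
  linarith

theorem val (H : Pool.Agent.H66.UP.KD a b J Z c0 δ1 R C q r K Y) (O : Ob a b J V C0 c0 ρ M Kc R n n' p q2 z2 α t1 s1 t2)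
    (s : ℕ) :
    ‖DS a b (gg a b c0) q2 z2 n (n' + p * s) (px V r) c0 - (derivative (ww a b)).eval c0 / b.eval c0 ^ 2‖ ≤
      3 * C * Kc * Real.sqrt (Kc / M) + Kc / M * (2 * C + 2 * ‖r c0 c0‖) +
        ‖(tD a b n (gg a b c0))⁻¹‖ * ‖(tD a b (n' + p * s) z2)⁻¹‖ * C + 2 * Kc ^ 3 / M := by
  have hC0 : 0 < C := lt_of_lt_of_le one_pos H.hC
  have hM0 : 0 < M := lt_of_lt_of_le one_pos O.hM
  have hK0 : 0 < Kc := lt_of_lt_of_le one_pos O.hK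
  obtain ⟨hMt, ht1⟩ := t_le O
  have hα : c0 ≠ α := by
    intro h
    have h1 := O.α1
    rw [← h, sub_self, norm_zero, mul_zero] at h1
    exact absurd O.hρ (not_lt.2 h1)
  have hT : ‖Tq a b (gg a b c0) q2 z2 n‖ ≤ 1 :=
    (Tq_le O).trans (by rw [div_le_one hM0]; exact O.hKM)
  obtain ⟨S, hS, hz⟩ := so_z H O s hα
  have hv := so_v H O
  have hYα := H.Yb α O.αJ O.Rα
  have h2 : ‖Tq a b (gg a b c0) q2 z2 n * (tD a b n (gg a b c0))⁻¹ *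
      ((tD a b (n' + p * s) z2)⁻¹ * Y α)‖ ≤
      ‖(tD a b n (gg a b c0))⁻¹‖ * ‖(tD a b (n' + p * s) z2)⁻¹‖ * C := by
    have e1 : ‖Tq a b (gg a b c0) q2 z2 n * (tD a b n (gg a b c0))⁻¹ *
        ((tD a b (n' + p * s) z2)⁻¹ * Y α)‖ = ‖Tq a b (gg a b c0) q2 z2 n‖ *
        (‖(tD a b n (gg a b c0))⁻¹‖ * ‖(tD a b (n' + p * s) z2)⁻¹‖ * ‖Y α‖) := by
      rw [norm_mul, norm_mul, norm_mul]
      ring
    rw [e1]
    calc ‖Tq a b (gg a b c0) q2 z2 n‖ *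
        (‖(tD a b n (gg a b c0))⁻¹‖ * ‖(tD a b (n' + p * s) z2)⁻¹‖ * ‖Y α‖)
        ≤ 1 * (‖(tD a b n (gg a b c0))⁻¹‖ * ‖(tD a b (n' + p * s) z2)⁻¹‖ * C) :=
          mul_le_mul hT (mul_le_mul_of_nonneg_left hYα (by positivity)) (by positivity)
            zero_le_one
      _ = _ := one_mul _
  have h3 : ‖Tq a b (gg a b c0) q2 z2 n * (tD a b n (gg a b c0))⁻¹ *
      (S * (1 / (c0 - α)))‖ ≤ 2 * Kc ^ 3 / M := by
    refine third O.hM O.hK O.hρ O.t1p O.t2p hMt hT O.B ?_ ?_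
    · have e1 : ‖S‖ * ρ ≤ 2 * ‖(tD a b n' z2)⁻¹‖ * ρ := mul_le_mul_of_nonneg_right hS O.hρ.le
      have e2 := O.be
      linarith
    · rw [norm_sub_rev]
      exact O.α1
  have hs0 : 0 ≤ Real.sqrt (Kc / M) := Real.sqrt_nonneg _
  obtain ⟨X, hX, hXb⟩ : ∃ X : ℂ, DS a b (gg a b c0) q2 z2 n (n' + p * s) (px V r) c0 -
      (derivative (ww a b)).eval c0 / b.eval c0 ^ 2 = X +
      Tq a b (gg a b c0) q2 z2 n * (tD a b n (gg a b c0))⁻¹ *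
        ((tD a b (n' + p * s) z2)⁻¹ * Y α) -
      Tq a b (gg a b c0) q2 z2 n * (tD a b n (gg a b c0))⁻¹ * (S * (1 / (c0 - α))) ∧
      ‖X‖ ≤ 3 * C * Kc * Real.sqrt (Kc / M) + Kc / M * (2 * C + 2 * ‖r c0 c0‖) := by
    rcases O.cas with ⟨hqV, hqc⟩ | ⟨hqc, ht⟩
    · refine ⟨(tD a b n (gg a b c0))⁻¹ * (Y ((gg a b)^[n] (gg a b c0)) - Y q2 -
        Tq a b (gg a b c0) q2 z2 n * (Y z2 - Y q2)), ?_, ?_⟩
      · unfold DS LC
        rw [hv, hz]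
        beta_reduce
        rw [px_out H O.qJ hqV O.cV]
        have e1 := H.Yc q2 O.qJ O.qc hqc
        have e2 : q q2 c0 = - Y q2 := by rw [e1, neg_neg]
        rw [e2]
        ring
      · have e1 := case1 H O
        have e2 : 0 ≤ Kc / M * (2 * C + 2 * ‖r c0 c0‖) := by positivity
        linarith
    · refine ⟨(tD a b n (gg a b c0))⁻¹ * (Y ((gg a b)^[n] (gg a b c0)) +
        (1 - Tq a b (gg a b c0) q2 z2 n) * r c0 c0 - Tq a b (gg a b c0) q2 z2 n * Y z2), ?_, ?_⟩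
      · have e1 : px V r q2 c0 = r c0 c0 := by
          rw [hqc, px, if_pos O.cV, zero_add]
        unfold DS LC
        rw [hv, hz]
        beta_reduce
        rw [e1]
        ring
      · have e1 := case2 H O ht (r c0 c0)
        have e2 : 0 ≤ 3 * C * Kc * Real.sqrt (Kc / M) := by positivity
        linarith
  rw [hX]
  refine (norm_sub_le _ _).trans ?_
  have e3 := norm_add_le X (Tq a b (gg a b c0) q2 z2 n * (tD a b n (gg a b c0))⁻¹ *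
        ((tD a b (n' + p * s) z2)⁻¹ * Y α))
  linarith

end Pool.Agent.H43.UP
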