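import Pool.Agent.H43.UP.S2B
import Pool.Agent.H43.UP.S2C
import Pool.Agent.H43.UP.S2E

/-!
# THEOREM UP, section II: the function `D`

`φ = ‖f2‖`, `f2 = g''(c0)`. `M` is so large that the errors of `val`, `pol_V`, `pol_C`, `err_le` are at most `φ / 4`, `η φ / 4`; `s` is chosen by `tail`.
-/

set_option autoImplicit false

open Filter Topology Polynomial Metric Set MeasureTheory

namespace Pool.Agent.H43.UP

open Pool.Agent.H61.TT Pool.Agent.H57.CP Pool.Agent.H78.NS Pool.Agent.H18.UP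

private theorem ex_M {A1 A2 A3 A4 ε Kc : ℝ} (hε : 0 < ε) :
    ∃ M : ℝ, 0 < M ∧ Kc ≤ M ∧ A1 * Real.sqrt (Kc / M) + Kc / M * A2 + A3 / M ≤ ε ∧ A1 * Real.sqrt (Kc / M) ≤ ε ∧
      A4 / M ≤ ε := by
  have h1 : ∀ A : ℝ, Tendsto (fun M : ℝ => A / M) atTop (𝓝 0) := fun A => tendsto_const_nhds.div_atTop tendsto_id
  have h2 : Tendsto (fun M : ℝ => Real.sqrt (Kc / M)) atTop (𝓝 0) := by
    have h3 := (Real.continuous_sqrt.tendsto 0).comp (h1 Kc)
    rw [Real.sqrt_zero] at h3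
    exact h3
  have h4 : Tendsto (fun M : ℝ => A1 * Real.sqrt (Kc / M)) atTop (𝓝 0) := by
    have := h2.const_mul A1
    rwa [mul_zero] at this
  have h5 : Tendsto (fun M : ℝ => A1 * Real.sqrt (Kc / M) + Kc / M * A2 + A3 / M) atTop (𝓝 0) := by
    have h6 := (h4.add ((h1 Kc).mul_const A2)).add (h1 A3)
    simpa using h6
  have e1 := h5.eventually_lt_const hε
  have e2 := h4.eventually_lt_const hε
  have e3 := (h1 A4).eventually_lt_const hε
  obtain ⟨M, ⟨⟨⟨k1, k2⟩, k3⟩, k4⟩, k5⟩ :=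
    ((((e1.and e2).and e3).and (eventually_ge_atTop Kc)).and (eventually_gt_atTop 0)).exists
  exact ⟨M, k5, k4, k1.le, k2.le, k3.le⟩

private theorem vol_ball2 (c : ℂ) {r : ℝ} (hr : 0 ≤ r) : volume (ball c r) = ENNReal.ofReal (Real.pi * r ^ 2) := by
  rw [Complex.volume_ball, mul_comm, ENNReal.ofReal_mul Real.pi_pos.le, ENNReal.ofReal_pow hr]
  congr 1
  rw [ENNReal.ofReal_eq_coe_nnreal Real.pi_pos.le]
  rfl

theorem sec2 {d : ℕ} {a b : Polynomial ℂ} {J Z : Set ℂ} {c0 : ℂ} {δ0 δ1 R C : ℝ} {q r K : ℂ → ℂ → ℂ} {Y : ℂ → ℂ}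
    (hG : Geo d a b J δ0) (hK : Pool.Agent.H66.UP.KD a b J Z c0 δ1 R C q r K Y) (η Kc : ℝ) (hη : 0 < η) (hKc : 1 ≤ Kc) :
    ∃ M δ : ℝ, 0 < M ∧ 0 < δ ∧ ∀ (ρ : ℝ) (V C0 : Set ℂ) (m0 k2 p : ℕ) (q2 z2 α : ℂ) (t1 s1 e2 t2 : ℝ), IsOpen V →
      ball c0 ρ ⊆ V → V ⊆ ball c0 (2 * ρ) → V ⊆ ball c0 δ1 → C0 ⊆ V → MeasurableSet C0 →
      Cen a b J c0 ρ M Kc Kc δ V C0 m0 k2 p q2 z2 α t1 s1 e2 t2 → ∃ D P : ℂ → ℂ, DD a b Z V C0 c0 ρ η D P := by
  classical
  set f2 : ℂ := (derivative (ww a b)).eval c0 / b.eval c0 ^ 2 with hf2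
  have hf0 : f2 ≠ 0 := div_ne_zero (hG.sim c0 hK.cJ hK.c0c) (pow_ne_zero _ hK.c0c.1)
  set φ : ℝ := ‖f2‖ with hφ
  have hφ0 : 0 < φ := norm_pos_iff.2 hf0
  have hC := hK.hC
  have hε : 0 < min (φ / 4) (η * φ / 4) := lt_min (by positivity) (by positivity)
  obtain ⟨M, hM0, hKM, m1, m2, m3⟩ := ex_M (A1 := 3 * C * Kc) (A2 := 2 * C + 2 * ‖r c0 c0‖) (A3 := 2 * Kc ^ 3)
    (A4 := 100 * Kc ^ 3) (Kc := Kc) hε
  refine ⟨M, 1 / Kc, hM0, by positivity, ?_⟩
  intro ρ V C0 m0 k2 p q2 z2 α t1 s1 e2 t2 Vo hVb hVs hV1 hCV hCm Ce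
  have O := ob_of_cen hG hK.crR hKc hKM (by positivity : (0 : ℝ) < 1 / Kc) (by field_simp; exact le_rfl) hVb hVs hCV Ce
  set n := k2 - 1 with hn
  set n' := m0 - k2 with hn'
  set β0 : ℝ := ‖(tD a b n (gg a b c0))⁻¹‖ with hβ0
  have hβ00 : 0 ≤ β0 := norm_nonneg _
  set X : ENNReal := ∫⁻ w in Z, ‖K α w‖ₑ with hX
  have hXf : X ≠ ⊤ := (hK.Ki α O.αJ).2.ne
  have hX0 : 0 ≤ X.toReal := ENNReal.toReal_nonneg
  have ht1 := O.t1p
  have hC1 : 0 ≤ C := by linarith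
  set ε : ℝ := min (φ / 4) (η * φ / 4 * t1 ^ 2) / ((β0 + 1) * (C + X.toReal + 1)) with hεd
  have hmin : 0 < min (φ / 4) (η * φ / 4 * t1 ^ 2) := lt_min (by positivity) (by positivity)
  have hε0 : 0 < ε := by positivity
  obtain ⟨s, hs⟩ := tail O ε hε0
  set βN : ℝ := ‖(tD a b (n' + p * s) z2)⁻¹‖ with hβN
  have hβN0 : 0 ≤ βN := norm_nonneg _
  have hprod : β0 * βN * (C + X.toReal) ≤ min (φ / 4) (η * φ / 4 * t1 ^ 2) := by
    have h0 : β0 * βN ≤ (β0 + 1) * ε := mul_le_mul (by linarith) hs hβN0 (by linarith)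
    have h1 : β0 * βN * (C + X.toReal) ≤ (β0 + 1) * ε * (C + X.toReal + 1) :=
      mul_le_mul h0 (by linarith) (by linarith) (by positivity)
    refine h1.trans (le_of_eq ?_)
    rw [hεd]
    field_simp
  have hpC : β0 * βN * C ≤ φ / 4 := by
    have h1 : β0 * βN * C ≤ β0 * βN * (C + X.toReal) := by
      apply mul_le_mul_of_nonneg_left _ (by positivity)
      linarith
    exact (h1.trans hprod).trans (min_le_left _ _)
  have hpX : β0 * βN * X.toReal ≤ η * φ / 4 * t1 ^ 2 := by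
    have h1 : β0 * βN * X.toReal ≤ β0 * βN * (C + X.toReal) := by
      apply mul_le_mul_of_nonneg_left _ (by positivity)
      linarith
    exact (h1.trans hprod).trans (min_le_right _ _)
  set D := DS a b (gg a b c0) q2 z2 n (n' + p * s) q with hD
  set P := DS a b (gg a b c0) q2 z2 n (n' + p * s) (px V r) with hP
  have hval := val hK O s
  have hPc : φ / 2 ≤ ‖P c0‖ := by
    have h1 : ‖P c0 - f2‖ ≤ φ / 2 := by
      have h2 := m1.trans (min_le_left _ _)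
      have h3 : ‖P c0 - f2‖ ≤ 3 * C * Kc * Real.sqrt (Kc / M) + Kc / M * (2 * C + 2 * ‖r c0 c0‖) +
        β0 * βN * C + 2 * Kc ^ 3 / M := hval
      linarith
    have h2 : ‖f2‖ - ‖P c0‖ ≤ ‖P c0 - f2‖ := by
      rw [norm_sub_rev]
      exact norm_sub_norm_le _ _
    linarith
  have hPn : P c0 ≠ 0 := by
    intro h
    rw [h, norm_zero] at hPc
    linarith
  have hvC : ENNReal.ofReal (t1 ^ 2) ≤ volume C0 := by
    have h1 : volume (ball c0 t1) ≤ volume C0 := measure_mono Ce.inn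
    rw [vol_ball2 c0 ht1.le] at h1
    refine le_trans (ENNReal.ofReal_le_ofReal ?_) h1
    nlinarith [Real.pi_gt_three, sq_nonneg t1]
  have hkey : ∀ A : ℝ, A ≤ η * φ / 2 * t1 ^ 2 → ENNReal.ofReal A ≤ ENNReal.ofReal (η * ‖P c0‖) * volume C0 := by
    intro A hA
    have h1 : ENNReal.ofReal A ≤ ENNReal.ofReal (η * ‖P c0‖) * ENNReal.ofReal (t1 ^ 2) := by
      rw [← ENNReal.ofReal_mul (by positivity)]
      apply ENNReal.ofReal_le_ofReal
      refine hA.trans ?_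
      have h2 : η * φ / 2 ≤ η * ‖P c0‖ := by
        have := mul_le_mul_of_nonneg_left hPc hη.le
        linarith
      exact mul_le_mul_of_nonneg_right h2 (sq_nonneg _)
    refine h1.trans ?_
    gcongr
  refine ⟨D, P, ds_int hK O _, p_diff hK O hV1 _, hPn, ?_, ?_, ?_⟩
  · refine (pol_V hK O Vo hV1 s).trans (ENNReal.ofReal_le_ofReal ?_)
    apply mul_le_mul_of_nonneg_right _ (sq_nonneg _)
    have h1 := m3.trans (min_le_right _ _)
    have h2 := mul_le_mul_of_nonneg_left hPc hη.le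
    have h3 : 0 < η * φ := by positivity
    linarith
  · refine (pol_C hK O hCm hV1 s).trans (hkey _ ?_)
    apply mul_le_mul_of_nonneg_right _ (sq_nonneg _)
    have h1 := m3.trans (min_le_right _ _)
    have h3 : 0 < η * φ := by positivity
    linarith
  · refine (err_le hG.rt hK O s).trans ?_
    have h1 : ENNReal.ofReal (β0 * βN) * X ≤ ENNReal.ofReal (η * φ / 4 * t1 ^ 2) := by
      rw [← ENNReal.ofReal_toReal hXf, ← ENNReal.ofReal_mul (by positivity)]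
      exact ENNReal.ofReal_le_ofReal hpX
    have h2 : 3 * C * Kc * Real.sqrt (Kc / M) * t1 ^ 2 ≤ η * φ / 4 * t1 ^ 2 :=
      mul_le_mul_of_nonneg_right (m2.trans (min_le_right _ _)) (sq_nonneg _)
    have h3 : ENNReal.ofReal (3 * C * Kc * Real.sqrt (Kc / M) * t1 ^ 2) + ENNReal.ofReal (β0 * βN) * X ≤
        ENNReal.ofReal (η * φ / 2 * t1 ^ 2) := by
      refine (add_le_add (ENNReal.ofReal_le_ofReal h2) h1).trans ?_
      rw [← ENNReal.ofReal_add (by positivity) (by positivity)]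
      apply ENNReal.ofReal_le_ofReal
      linarith
    exact h3.trans (hkey _ le_rfl)

end Pool.Agent.H43.UP
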