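import Pool.Agent.H43.UP.S2D

/-!
# THEOREM UP, section II, module S2A: the orbits

PROOF (`ob_of_cen`). `n = k2 - 1`, `k2 = n + 1` (`k2p`), `gg^[k] (gg c0) = gg^[k + 1] c0`. `C.pr`, `mem_pre` (H3/NC/BRN): `b (gg^[j] c0) ≠ 0` for `j < m0`; `hG.Ji` gives by induction `gg^[j] c0 ∈ J` for `j ≤ m0`. `tD (j+1) x = tD j x * dg (gg^[j] x)` (`Finset.prod_range_succ`), so `C.B0` gives `dg (gg^[k] v) ≠ 0` for `k < n`. `vV`: `C.nv`.
`z2`: `C.zα`, `mem_pre`: finite up to `n' = m0 - k2`, `gg^[n'] z2 = α`; `C.zd`, `0 < ρ`: `tD n' z2 ≠ 0`. `α`: `C.αp`, `mem_pre`: periodic with finite orbit; `C.αm`: `tD p α ≠ 0`. So all points `gg^[i] z2` are in `J`, are no poles, and `dg ≠ 0` there: `i < n'` or `i = n' + j`, `gg^[j] α = gg^[j % p] α` (`Function.IsPeriodicPt.iterate_mod_apply` or induction).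
`cV`: `C.cC`, `C0 ⊆ V`. `αV`: `C.α2`, `ball c0 ρ ⊆ V`. `cas`: if `k2 = m0`: `C.eq`; else `C.nq`: `q2 ∉ V`, so `q2 ≠ c0`. `ve`: `C.vq`, `C.te2`. `B`: `C.B` (`norm_inv`). `be`: `C.zd`. `ts`: `ball c0 t1 ⊆ C0 ⊆ ball c0 s1` (as in module Los of H43/UP: `σ2 ≤ s2`). `Rv, Rq, Rz, Rα`: `hR`: `‖q2‖ + 1 ≤ R`, `‖c0‖ + 1 ≤ R`; `e2 ≤ t2 / M ≤ δ ≤ 1`, `‖z2 - q2‖ ≤ Kc t2 ≤ Kc δ ≤ 1`, `‖α - c0‖ ≤ ρ / 2 ≤ 1`.
`tail`: `tD (n' + p s) z2 = tD n' z2 * (tD p α) ^ s`.
`So_tel`: induction on `N`. `So_V`: induction on `s`: `So z2 (n' + p (s+1)) = So z2 (n' + p s) + ∑_(j < p) ..` (`Finset.sum_range_add`), the terms with `0 < j < p` vanish (`αn`), the term `j = 0` is `(tD (n' + p s) z2)⁻¹ Ψ α`. `‖∑_(l < s) (tD p α)^(-l)‖ ≤ 2`.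
-/

set_option autoImplicit false

open Filter Topology Polynomial Metric Set MeasureTheory

namespace Pool.Agent.H43.UP

open Pool.Agent.H61.TT Pool.Agent.H57.CP Pool.Agent.H78.NS Pool.Agent.H18.UP Pool.Agent.H3.NC

variable {d : ℕ} {a b : Polynomial ℂ} {J V C0 : Set ℂ} {c0 q2 z2 α : ℂ} {ρ M Kc R t1 s1 t2 : ℝ} {n n' p : ℕ}

private theorem td_ne' {j : ℕ} {x : ℂ} (h : ∀ i < j, dg a b ((gg a b)^[i] x) ≠ 0) : tD a b j x ≠ 0 :=
  Finset.prod_ne_zero_iff.2 fun i hi => h i (Finset.mem_range.1 hi)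

private theorem td_ne'' {j : ℕ} {x : ℂ} (h : tD a b j x ≠ 0) {i : ℕ} (hi : i < j) : dg a b ((gg a b)^[i] x) ≠ 0 :=
  Finset.prod_ne_zero_iff.1 h i (Finset.mem_range.2 hi)

private theorem td_add' (i j : ℕ) (x : ℂ) : tD a b (i + j) x = tD a b i x * tD a b j ((gg a b)^[i] x) := by
  unfold tD
  rw [Finset.prod_range_add]
  congr 1
  refine Finset.prod_congr rfl fun k _ => ?_
  rw [add_comm, Function.iterate_add_apply]

private theorem it_per {p : ℕ} (hp : (gg a b)^[p] α = α) (s : ℕ) : (gg a b)^[p * s] α = α := by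
  rw [Function.iterate_mul]
  exact Function.iterate_fixed hp s

private theorem td_per' {p : ℕ} (hp : (gg a b)^[p] α = α) (s : ℕ) : tD a b (p * s) α = tD a b p α ^ s := by
  induction s with
  | zero =>
    rw [mul_zero, pow_zero]
    rfl
  | succ s ih => rw [mul_add, mul_one, td_add', it_per hp, ih, pow_succ]

theorem ob_of_cen {δ0 δ e2 : ℝ} {m0 k2 : ℕ} (hG : Geo d a b J δ0) (hR : ∀ c ∈ J, Cr a b c → ‖c‖ + 1 ≤ R) (hKc : 1 ≤ Kc)
    (hM : Kc ≤ M) (hδ : 0 < δ) (hδ1 : Kc * δ ≤ 1) (hVb : ball c0 ρ ⊆ V) (hVs : V ⊆ ball c0 (2 * ρ)) (hCV : C0 ⊆ V)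
    (C : Cen a b J c0 ρ M Kc Kc δ V C0 m0 k2 p q2 z2 α t1 s1 e2 t2) :
    Ob a b J V C0 c0 ρ M Kc R (k2 - 1) (m0 - k2) p q2 z2 α t1 s1 t2 := by
  have hM1 : 1 ≤ M := hKc.trans hM
  have hδ1' : δ ≤ 1 := by nlinarith
  have hρ := C.hρ
  obtain ⟨h1, h2⟩ := mem_pre.1 C.pr
  have h3 : ∀ j ≤ m0, (gg a b)^[j] c0 ∈ J := by
    intro j
    induction j with
    | zero => intro _; exact C.cJ
    | succ j ih =>
      intro hj
      rw [Function.iterate_succ_apply']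
      exact hG.Ji _ (ih (by omega)) (h1 j (by omega))
  have hk := C.k2p
  have hm := C.k2m
  have hit : ∀ k, (gg a b)^[k] (gg a b c0) = (gg a b)^[k + 1] c0 := fun k => rfl
  have hitn : (gg a b)^[k2 - 1] (gg a b c0) = (gg a b)^[k2] c0 := by
    rw [hit, Nat.sub_add_cancel hk]
  obtain ⟨h4, h5⟩ := mem_pre.1 C.αp
  have h5' : (gg a b)^[p] α = α := h5
  obtain ⟨h6, h7⟩ := mem_pre.1 C.zα
  have h7' : (gg a b)^[m0 - k2] z2 = α := h7
  have hα0 : tD a b p α ≠ 0 := by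
    intro h
    have := C.αm
    rw [h, norm_zero] at this
    linarith
  have hαb : ∀ j, b.eval ((gg a b)^[j] α) ≠ 0 ∧ dg a b ((gg a b)^[j] α) ≠ 0 := by
    intro j
    have e : (gg a b)^[j % p] α = (gg a b)^[j] α := Function.IsPeriodicPt.iterate_mod_apply h5' j
    rw [← e]
    have hj : j % p < p := Nat.mod_lt _ C.pp
    exact ⟨h4 _ hj, td_ne'' hα0 hj⟩
  have ht2 : 0 < t2 := by
    have e1 := C.e2p
    have e2 := C.te2
    nlinarith
  have hzt : tD a b (m0 - k2) z2 ≠ 0 := by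
    intro h
    have := C.zd
    rw [h, norm_zero, mul_zero, zero_mul] at this
    linarith
  have hzi : ∀ i, b.eval ((gg a b)^[i] z2) ≠ 0 ∧ dg a b ((gg a b)^[i] z2) ≠ 0 := by
    intro i
    by_cases hi : i < m0 - k2
    · exact ⟨h6 i hi, td_ne'' hzt hi⟩
    · obtain ⟨j, rfl⟩ : ∃ j, i = j + (m0 - k2) := ⟨i - (m0 - k2), by omega⟩
      rw [Function.iterate_add_apply, h7']
      exact hαb j
  have hzJ : ∀ i, (gg a b)^[i] z2 ∈ J := by
    intro i
    induction i with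
    | zero => exact C.zJ
    | succ i ih =>
      rw [Function.iterate_succ_apply']
      exact hG.Ji _ ih (hzi i).1
  have hqR := hR q2 C.q2J C.q2c
  have hcR := hR c0 C.cJ C.cr
  have hs1 : 0 < s1 := by
    have := C.out C.cC
    rwa [mem_ball, dist_self] at this
  refine
    { vJ := ?_, vb := ?_, vd := ?_, vn := C.B0, vV := ?_, qJ := C.q2J, qc := C.q2c, cV := hCV C.cC, zJ := hzJ
      zb := fun i => (hzi i).1, zd := fun i => (hzi i).2, zV := fun i hi => C.zn i hi, zα := h7', αJ := C.αJ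
      pp := C.pp, αp := h5', αV := ?_, αn := C.αn, αm := C.αm, cas := ?_, Rv := ?_, Rq := by linarith, Rz := ?_
      Rα := ?_, hM := hM1, hKM := hM, hK := hKc, t2p := ht2, ve := ?_, zl := C.zl, zu := C.zu, B := ?_, be := ?_
      hρ := hρ, hρ1 := C.hρδ.trans hδ1', t1p := C.t1p, ts := ?_, sρ := C.s1ρ, α1 := C.α1, Vs := hVs, CV := hCV
      Cs := C.out }
  · intro k hk'
    rw [hit]
    exact h3 _ (by omega)
  · intro k hk'
    rw [hit]
    exact h1 _ (by omega)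
  · intro k hk'
    exact td_ne'' C.B0 hk'
  · intro k hk'
    rw [hit]
    exact C.nv _ (by omega) (by omega)
  · apply hVb
    rw [mem_ball, dist_eq_norm]
    have := C.α2
    linarith
  · rcases hm.eq_or_lt with h | h
    · exact Or.inr (C.eq h)
    · refine Or.inl ⟨C.nq h, fun h8 => C.nq h ?_⟩
      rw [h8]
      exact hCV C.cC
  · rw [hitn]
    have e1 := C.vq
    have e2 := C.te2
    have e3 := C.t2δ
    have e4 := C.e2p
    have e5 : ‖(gg a b)^[k2] c0‖ ≤ ‖(gg a b)^[k2] c0 - q2‖ + ‖q2‖ := norm_le_norm_sub_add _ _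
    nlinarith
  · have e1 := C.zu
    have e3 := C.t2δ
    have e5 : ‖z2‖ ≤ ‖z2 - q2‖ + ‖q2‖ := norm_le_norm_sub_add _ _
    nlinarith
  · have e1 := C.α2
    have e3 := C.hρδ
    have e5 : ‖α‖ ≤ ‖α - c0‖ + ‖c0‖ := norm_le_norm_sub_add _ _
    linarith
  · rw [hitn]
    refine le_trans ?_ C.te2
    exact mul_le_mul_of_nonneg_left C.vq (by linarith)
  · rw [norm_inv]
    exact C.B
  · have e1 := C.zd
    have e2 : 0 < ‖tD a b (m0 - k2) z2‖ := norm_pos_iff.2 hzt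
    rw [norm_inv, inv_mul_le_iff₀ e2]
    calc ρ ≤ Kc * ‖tD a b (m0 - k2) z2‖ * t2 := e1
      _ = ‖tD a b (m0 - k2) z2‖ * (Kc * t2) := by ring
  · by_contra hcon
    push Not at hcon
    have e1 : c0 + (s1 : ℂ) ∈ ball c0 t1 := by
      rw [mem_ball, dist_eq_norm, add_sub_cancel_left, Complex.norm_real, Real.norm_eq_abs, abs_of_pos hs1]
      exact hcon
    have e2 := C.out (C.inn e1)
    rw [mem_ball, dist_eq_norm, add_sub_cancel_left, Complex.norm_real, Real.norm_eq_abs, abs_of_pos hs1] at e2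
    exact lt_irrefl _ e2

theorem td_succ (j : ℕ) (x : ℂ) : tD a b (j + 1) x = tD a b j x * dg a b ((gg a b)^[j] x) := by
  unfold tD
  rw [Finset.prod_range_succ]

theorem zt_ne (O : Ob a b J V C0 c0 ρ M Kc R n n' p q2 z2 α t1 s1 t2) (i : ℕ) : tD a b i z2 ≠ 0 := by
  exact td_ne' fun i _ => O.zd i

theorem z_per (O : Ob a b J V C0 c0 ρ M Kc R n n' p q2 z2 α t1 s1 t2) (s : ℕ) : (gg a b)^[n' + p * s] z2 = α := by
  rw [add_comm, Function.iterate_add_apply, O.zα]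
  exact it_per O.αp s

private theorem td_z (O : Ob a b J V C0 c0 ρ M Kc R n n' p q2 z2 α t1 s1 t2) (s : ℕ) :
    tD a b (n' + p * s) z2 = tD a b n' z2 * tD a b p α ^ s := by
  rw [td_add', O.zα, td_per' O.αp]

private theorem inv_le (O : Ob a b J V C0 c0 ρ M Kc R n n' p q2 z2 α t1 s1 t2) : ‖(tD a b p α)⁻¹‖ ≤ 1 / 2 := by
  have h := O.αm
  rw [norm_inv, one_div]
  exact inv_anti₀ (by norm_num) h

theorem tail (O : Ob a b J V C0 c0 ρ M Kc R n n' p q2 z2 α t1 s1 t2) (ε : ℝ) (hε : 0 < ε) :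
    ∃ s : ℕ, ‖(tD a b (n' + p * s) z2)⁻¹‖ ≤ ε := by
  have h0 : 0 < ‖tD a b n' z2‖ := norm_pos_iff.2 (zt_ne O n')
  have h1 := inv_le O
  obtain ⟨s, hs⟩ := exists_pow_lt_of_lt_one (mul_pos hε h0) (lt_of_le_of_lt h1 (by norm_num))
  refine ⟨s, ?_⟩
  rw [td_z O, mul_inv, norm_mul, norm_inv, ← inv_pow, norm_pow, inv_mul_le_iff₀ h0]
  linarith

/-- telescoping along an orbit -/
theorem So_tel {x : ℂ} {N : ℕ} (hd : ∀ i < N, dg a b ((gg a b)^[i] x) ≠ 0) (Φ Ψ : ℂ → ℂ)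
    (h : ∀ i < N, Φ ((gg a b)^[i] x) = Ψ ((gg a b)^[i] x) - Ψ (gg a b ((gg a b)^[i] x)) / dg a b ((gg a b)^[i] x)) :
    So a b x N Φ = Ψ x - (tD a b N x)⁻¹ * Ψ ((gg a b)^[N] x) := by
  induction N with
  | zero =>
    unfold So tD
    simp
  | succ N ih =>
    have h1 : So a b x (N + 1) Φ = So a b x N Φ + (tD a b N x)⁻¹ * Φ ((gg a b)^[N] x) := Finset.sum_range_succ _ _
    rw [h1, ih (fun i hi => hd i (by omega)) (fun i hi => h i (by omega)), h N (by omega), td_succ,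
      Function.iterate_succ_apply', mul_inv]
    ring

theorem So_sub (x : ℂ) (N : ℕ) (Φ Ψ : ℂ → ℂ) : So a b x N (fun y => Φ y - Ψ y) = So a b x N Φ - So a b x N Ψ := by
  unfold So
  rw [← Finset.sum_sub_distrib]
  refine Finset.sum_congr rfl fun i _ => ?_
  ring

theorem LC_sub (v : ℂ) (N : ℕ) (Φ Ψ : ℂ → ℂ) :
    LC a b v q2 z2 n N (fun y => Φ y - Ψ y) = LC a b v q2 z2 n N Φ - LC a b v q2 z2 n N Ψ := by
  unfold LC
  rw [So_sub, So_sub]
  ring

open Classical in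
/-- only the point `α` of the orbit of `z2` is in `V` -/
theorem So_V (O : Ob a b J V C0 c0 ρ M Kc R n n' p q2 z2 α t1 s1 t2) (s : ℕ) :
    ∃ S : ℂ, ‖S‖ ≤ 2 * ‖(tD a b n' z2)⁻¹‖ ∧
      ∀ Ψ : ℂ → ℂ, So a b z2 (n' + p * s) (fun x => if x ∈ V then Ψ x else 0) = S * Ψ α := by
  obtain ⟨q, hq⟩ : ∃ q, q = (tD a b p α)⁻¹ := ⟨_, rfl⟩
  have hq1 : ‖q‖ ≤ 1 / 2 := by
    rw [hq]
    exact inv_le O
  refine ⟨(tD a b n' z2)⁻¹ * ∑ l ∈ Finset.range s, q ^ l, ?_, fun Ψ => ?_⟩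
  · rw [norm_mul, mul_comm]
    refine mul_le_mul_of_nonneg_right ?_ (norm_nonneg _)
    refine (norm_sum_le _ _).trans (le_trans (Finset.sum_le_sum fun l _ => ?_) (sum_geometric_two_le s))
    rw [norm_pow]
    exact pow_le_pow_left₀ (norm_nonneg _) hq1 l
  · induction s with
    | zero =>
      rw [mul_zero, add_zero, Finset.range_zero, Finset.sum_empty, mul_zero, zero_mul]
      unfold So
      refine Finset.sum_eq_zero fun i hi => ?_
      show (tD a b i z2)⁻¹ * (if (gg a b)^[i] z2 ∈ V then Ψ ((gg a b)^[i] z2) else 0) = 0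
      rw [if_neg (O.zV i (Finset.mem_range.1 hi)), mul_zero]
    | succ s ih =>
      have e1 : n' + p * (s + 1) = n' + p * s + p := by ring
      have e2 : ∀ j, (gg a b)^[n' + p * s + j] z2 = (gg a b)^[j] α := by
        intro j
        rw [add_comm (n' + p * s), Function.iterate_add_apply, z_per O]
      have e3 : So a b z2 (n' + p * (s + 1)) (fun x => if x ∈ V then Ψ x else 0) =
          So a b z2 (n' + p * s) (fun x => if x ∈ V then Ψ x else 0) +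
            ∑ j ∈ Finset.range p, (tD a b (n' + p * s + j) z2)⁻¹ *
              (if (gg a b)^[n' + p * s + j] z2 ∈ V then Ψ ((gg a b)^[n' + p * s + j] z2) else 0) := by
        unfold So
        rw [e1]
        exact Finset.sum_range_add _ _ _
      rw [e3, ih, Finset.sum_eq_single_of_mem 0 (Finset.mem_range.2 O.pp) ?_, e2, add_zero,
        Function.iterate_zero_apply, if_pos O.αV, td_z O, mul_inv, ← inv_pow, ← hq, Finset.sum_range_succ]
      · ring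
      · intro j hj hj0
        rw [e2, if_neg (O.αn j (Nat.pos_of_ne_zero hj0) (Finset.mem_range.1 hj)), mul_zero]

theorem Tq_le (O : Ob a b J V C0 c0 ρ M Kc R n n' p q2 z2 α t1 s1 t2) : ‖Tq a b (gg a b c0) q2 z2 n‖ ≤ Kc / M := by
  have hM0 : 0 < M := lt_of_lt_of_le one_pos O.hM
  have hK0 : 0 < Kc := lt_of_lt_of_le one_pos O.hK
  have ht := O.t2p
  have h1 := O.ve
  have h2 := O.zl
  have h3 : 0 < ‖z2 - q2‖ := by
    by_contra hcon
    have h4 : ‖z2 - q2‖ = 0 := le_antisymm (not_lt.1 hcon) (norm_nonneg _)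
    rw [h4, mul_zero] at h2
    linarith
  unfold Tq
  rw [norm_div, div_le_div_iff₀ h3 hM0]
  linarith

end Pool.Agent.H43.UP
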