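import Pool.Agent.H43.UP.Defs
import Pool.Agent.H18.UP.LOC

/-!
# THEOREM UP, module Cht: square root charts at the critical points in `J`

PROOF. Finitely many critical points (`cr_fin`, H18/UP/BAS; `eventually_all_finite` as in `loc`, H18/UP/LOC), so one point `q ∈ J`, `Cr a b q` suffices. `h.sim`: `(derivative (ww a b)).eval q ≠ 0`.
As in `loc_alg` (private in H18/UP/LOC: copy it): `gg x - gg q = (x - q)^2 * (Q x / (b x * b q))`, `Q q ≠ 0`. `u x = Q x / (b x b q)`, `u q ≠ 0`; near `q` `‖u x / u q - 1‖ < 1`, so `u x / u q ∈ slitPlane`; `s ^ 2 = u q` (`IsSquare`/`Complex.cpow`, `IsAlgClosed.exists_pow_nat_eq`), `χ x = (x - q) * (s * exp (log (u x / u q) / 2))`; `χ x ^ 2 = gg x - gg q`. `χ` is holomorphic near `q`, `deriv χ q = s ≠ 0`; strict derivative: injective near `q` (`loc_inj` in H18/UP/BAS shows the pattern: `HasStrictDerivAt.hasStrictFDerivAt_equiv`, `eventually_left_inverse`).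
-/

set_option autoImplicit false

open Filter Topology Polynomial Metric Set MeasureTheory

namespace Pool.Agent.H43.UP

open Pool.Agent.H61.TT Pool.Agent.H57.CP Pool.Agent.H78.NS Pool.Agent.H18.UP

theorem cht {d : ℕ} {a b : Polynomial ℂ} {J : Set ℂ} {δ0 : ℝ} (h : Geo d a b J δ0) :
    ∃ r : ℝ, 0 < r ∧ ∀ q ∈ J, Cr a b q → ∃ χ : ℂ → ℂ, SqC a b q r χ := by
  sorry

/-- restriction of a chart -/
theorem sqc_mono {a b : Polynomial ℂ} {q : ℂ} {r r' : ℝ} {χ : ℂ → ℂ} (h : SqC a b q r χ) (h0 : 0 < r') (h1 : r' ≤ r) :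
    SqC a b q r' χ :=
  ⟨h0, h.diff.mono (ball_subset_ball h1), h.inj.mono (ball_subset_ball h1), h.zero,
    fun z hz => h.fin z (ball_subset_ball h1 hz), fun z hz => h.sq z (ball_subset_ball h1 hz)⟩

end Pool.Agent.H43.UP
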