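import Pool.Agent.H43.UP.Ray
import Pool.Agent.H43.UP.Smo

/-!
# THEOREM UP, module Core: the contradiction

`vol S = (volume S).toReal`, `p = ‖P c0‖`, `e = η p vol C0 > 0`, `C0 = W i0`, `vol C0 ≤ π (ρ/2)^2 ≤ ρ^2`, `l = η p ρ^2` bounds `∫_V ‖D - P‖`, `e ≤ l`, `m = ∫_V ‖P‖`, `Λ = 10^6 / κ`, `θ = 41 Λ η`, `ω = 9 π / Λ + 2 η + θ ≤ κ / 10000`, `g_i = F^[m i] (1_(W i) D)`.
`ray` with `e`: the finite set `I`. `smo`: the good set `Gd` with constants `c i`. `Fo`, `U`: the folded, unfolded elements of `Gd`.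
(a) `I' = Fo`: `∑_(Fo) ∫_(W i) ‖D‖ ≤ ∑_(Fo) ∫ ‖F g_i‖ + 7 e`, `F g_i = F^[m i + 1] (1_(W i) c_i) + F^[m i + 1] (1_(W i) (D - c_i))`, `∫ ‖F g_i‖ ≤ (1 - κ) ‖c_i‖ vol (W i) + ∫_(W i) ‖D - P‖ + θ ∫_(W i) ‖P‖`, `‖c_i‖ vol (W i) ≤ (1 + θ) ∫_(W i) ‖P‖`. So `(κ - 2 θ) X ≤ 2 l + 7 e`, `X = ∑_(Fo) ∫_(W i) ‖P‖`.
(b) `A = ∑_(i ∈ U) c_i A_i`: on `V`: `P - A = (D - ∑_I g_i) - (D - P) + ∑_(Fo) g_i + ∑_(I \ Gd) g_i + ∑_U (g_i - c_i A_i)`, so `∫_V ‖P - A‖ ≤ 5 e + 2 l + X + (9 π/Λ) m + (2 η + θ) m`.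
(c) `m ≤ 4 π ρ^2 ‖A‖ + ∫_V ‖P - A‖`. (d) mean value on `ball w (ρ / 2)`, `‖w - c0‖ < ρ / 2`. (e) `I' = {i0}`.
-/

set_option autoImplicit false

open Filter Topology Polynomial Metric Set MeasureTheory

namespace Pool.Agent.H43.UP

variable {F : (ℂ → ℂ) → ℂ → ℂ} {b : Polynomial ℂ} {g : ℂ → ℂ} {V : Set ℂ}

/-- triangle inequality -/
private theorem tri {μ : Measure ℂ} {f1 f2 : ℂ → ℂ} (h1 : Integrable f1 μ) (h2 : Integrable f2 μ) :
    ∫ x, ‖f1 x + f2 x‖ ∂μ ≤ (∫ x, ‖f1 x‖ ∂μ) + (∫ x, ‖f2 x‖ ∂μ) := by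
  rw [← integral_add h1.norm h2.norm]
  exact integral_mono (h1.add h2).norm (h1.norm.add h2.norm) fun x => norm_add_le _ _

private theorem tri_sub {μ : Measure ℂ} {f1 f2 : ℂ → ℂ} (h1 : Integrable f1 μ) (h2 : Integrable f2 μ) :
    ∫ x, ‖f1 x - f2 x‖ ∂μ ≤ (∫ x, ‖f1 x‖ ∂μ) + (∫ x, ‖f2 x‖ ∂μ) := by
  rw [← integral_add h1.norm h2.norm]
  exact integral_mono (h1.sub h2).norm (h1.norm.add h2.norm) fun x => norm_sub_le _ _

private theorem tri_sum {ι : Type} {μ : Measure ℂ} (I : Finset ι) {f : ι → ℂ → ℂ} (h : ∀ i ∈ I, Integrable (f i) μ) :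
    ∫ x, ‖∑ i ∈ I, f i x‖ ∂μ ≤ ∑ i ∈ I, ∫ x, ‖f i x‖ ∂μ := by
  rw [← integral_finset_sum I fun i hi => (h i hi).norm]
  refine integral_mono (integrable_finset_sum I h).norm (integrable_finset_sum I fun i hi => (h i hi).norm) fun x => ?_
  exact norm_sum_le _ _

private theorem set_le {S : Set ℂ} {f : ℂ → ℂ} (h : Integrable f) : ∫ x in S, ‖f x‖ ≤ ∫ x, ‖f x‖ :=
  setIntegral_le_integral h.norm (ae_of_all _ fun x => norm_nonneg _)

/-- sums over disjoint subsets -/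
private theorem sum_le {ι : Type} (J : Finset ι) {W : ι → Set ℂ} (Wm : ∀ i, MeasurableSet (W i)) (WV : ∀ i, W i ⊆ V)
    (Wd : ∀ i j, i ≠ j → Disjoint (W i) (W j)) {h : ℂ → ℂ} (hi : IntegrableOn h V) :
    ∑ i ∈ J, ∫ x in W i, ‖h x‖ ≤ ∫ x in V, ‖h x‖ := by
  have h1 : ∑ i ∈ J, ∫ x in W i, ‖h x‖ = ∫ x in ⋃ i ∈ J, W i, ‖h x‖ := by
    rw [integral_biUnion_finset J (fun i _ => Wm i) (fun i _ j _ hij => Wd i j hij)
      (fun i _ => (hi.mono_set (WV i)).norm)]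
  rw [h1]
  exact setIntegral_mono_set hi.norm (ae_of_all _ fun x => norm_nonneg _)
    (HasSubset.Subset.eventuallyLE (iUnion₂_subset fun i _ => WV i))

private theorem ind_norm {W : Set ℂ} (Wm : MeasurableSet W) (f : ℂ → ℂ) : ∫ x, ‖W.indicator f x‖ = ∫ x in W, ‖f x‖ := by
  rw [← integral_indicator Wm]
  refine integral_congr_ae (ae_of_all _ fun x => ?_)
  exact norm_indicator_eq_indicator_norm f x

private theorem const_int {W : Set ℂ} (Wf : volume W ≠ ⊤) (c : ℂ) : IntegrableOn (fun _ : ℂ => c) W :=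
  integrableOn_const Wf

/-- replace `D` by a constant -/
private theorem lemA (hF : TO F b g) {W : Set ℂ} (Wm : MeasurableSet W) (Wf : volume W ≠ ⊤) {D P : ℂ → ℂ}
    (hD : Integrable D) (hP : IntegrableOn P W) (c : ℂ) (n : ℕ) :
    ∫ x, ‖F^[n] (W.indicator D) x - F^[n] (W.indicator fun _ => c) x‖ ≤
      (∫ x in W, ‖D x - P x‖) + (∫ x in W, ‖P x - c‖) := by
  have hc : IntegrableOn (fun _ : ℂ => c) W := const_int Wf c
  have h1 : W.indicator D = fun z => W.indicator (fun _ => c) z + W.indicator (fun z => D z - c) z := by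
    funext z
    by_cases hz : z ∈ W <;> simp [hz]
  have h2 : (fun x => F^[n] (W.indicator D) x - F^[n] (W.indicator fun _ => c) x) = F^[n] (W.indicator fun z => D z - c) := by
    have h3 := it_add hF n (W.indicator (fun _ => c)) (W.indicator fun z => D z - c)
    rw [← h1] at h3
    funext x
    rw [h3]
    ring
  have h4 : IntegrableOn (fun z => D z - c) W := hD.integrableOn.sub hc
  have h5 : Integrable (W.indicator fun z => D z - c) := (integrable_indicator_iff Wm).2 h4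
  have h6 := (it_int hF h5 n).2
  calc ∫ x, ‖F^[n] (W.indicator D) x - F^[n] (W.indicator fun _ => c) x‖
      = ∫ x, ‖F^[n] (W.indicator fun z => D z - c) x‖ := by
        refine integral_congr_ae (ae_of_all _ fun x => ?_)
        show ‖F^[n] (W.indicator D) x - F^[n] (W.indicator fun _ => c) x‖ = ‖F^[n] (W.indicator fun z => D z - c) x‖
        rw [← congrFun h2 x]
    _ ≤ ∫ x, ‖W.indicator (fun z => D z - c) x‖ := h6
    _ = ∫ x in W, ‖D x - c‖ := ind_norm Wm _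
    _ = ∫ x in W, ‖(D x - P x) + (P x - c)‖ := by
        refine integral_congr_ae (ae_of_all _ fun x => ?_)
        show ‖D x - c‖ = ‖(D x - P x) + (P x - c)‖
        congr 1
        ring
    _ ≤ _ := tri (hD.integrableOn.sub hP) (hP.sub hc)

private theorem c_le {W : Set ℂ} (Wf : volume W ≠ ⊤) {P : ℂ → ℂ} (hP : IntegrableOn P W) (c : ℂ) :
    ‖c‖ * (volume W).toReal ≤ (∫ x in W, ‖P x‖) + (∫ x in W, ‖P x - c‖) := by
  have hc : IntegrableOn (fun _ : ℂ => c) W := const_int Wf c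
  have h1 : ∫ x in W, ‖P x - (P x - c)‖ ≤ (∫ x in W, ‖P x‖) + (∫ x in W, ‖P x - c‖) := tri_sub hP (hP.sub hc)
  have h2 : ∫ x in W, ‖P x - (P x - c)‖ = ‖c‖ * (volume W).toReal := by
    have h3 : (fun x => ‖P x - (P x - c)‖) = fun _ => ‖c‖ := by
      funext x
      congr 1
      ring
    rw [h3, setIntegral_const, smul_eq_mul, mul_comm]
    rfl
  rw [h2] at h1
  exact h1

private theorem d_le {W : Set ℂ} {D P : ℂ → ℂ} (hD : IntegrableOn D W) (hP : IntegrableOn P W) :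
    ∫ x in W, ‖D x‖ ≤ (∫ x in W, ‖P x‖) + (∫ x in W, ‖D x - P x‖) := by
  have h1 : ∫ x in W, ‖P x + (D x - P x)‖ ≤ (∫ x in W, ‖P x‖) + (∫ x in W, ‖D x - P x‖) := tri hP (hD.sub hP)
  have h2 : ∫ x in W, ‖P x + (D x - P x)‖ = ∫ x in W, ‖D x‖ := by
    refine integral_congr_ae (ae_of_all _ fun x => ?_)
    show ‖P x + (D x - P x)‖ = ‖D x‖
    congr 1
    ring
  rw [← h2]
  exact h1

private theorem p_le {W : Set ℂ} {D P : ℂ → ℂ} (hD : IntegrableOn D W) (hP : IntegrableOn P W) :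
    ∫ x in W, ‖P x‖ ≤ (∫ x in W, ‖D x‖) + (∫ x in W, ‖D x - P x‖) := by
  have h1 : ∫ x in W, ‖D x - (D x - P x)‖ ≤ (∫ x in W, ‖D x‖) + (∫ x in W, ‖D x - P x‖) := tri_sub hD (hD.sub hP)
  have h2 : ∫ x in W, ‖D x - (D x - P x)‖ = ∫ x in W, ‖P x‖ := by
    refine integral_congr_ae (ae_of_all _ fun x => ?_)
    show ‖D x - (D x - P x)‖ = ‖P x‖
    congr 1
    ring
  rw [← h2]
  exact h1

private theorem stepFold (hF : TO F b g) {W : Set ℂ} (Wm : MeasurableSet W) (Wf : volume W ≠ ⊤) {D P : ℂ → ℂ}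
    (hD : Integrable D) (hP : IntegrableOn P W) {κ : ℝ} {c : ℂ} {n : ℕ}
    (hf : ∫ x, ‖F^[n] (W.indicator fun _ => c) x‖ ≤ (1 - κ) * (‖c‖ * (volume W).toReal)) :
    ∫ x, ‖F^[n] (W.indicator D) x‖ ≤
      (1 - κ) * (‖c‖ * (volume W).toReal) + ((∫ x in W, ‖D x - P x‖) + (∫ x in W, ‖P x - c‖)) := by
  have hi1 : Integrable (W.indicator D) := hD.indicator Wm
  have hi2 : Integrable (W.indicator fun _ : ℂ => c) := (integrable_indicator_iff Wm).2 (const_int Wf c)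
  have h1 := (it_int hF hi1 n).1
  have h2 := (it_int hF hi2 n).1
  have h3 := lemA hF Wm Wf hD hP c n
  have h4 : ∫ x, ‖F^[n] (W.indicator (fun _ => c)) x + (F^[n] (W.indicator D) x - F^[n] (W.indicator fun _ => c) x)‖ ≤
    (∫ x, ‖F^[n] (W.indicator fun _ => c) x‖) + (∫ x, ‖F^[n] (W.indicator D) x - F^[n] (W.indicator fun _ => c) x‖) :=
    tri h2 (h1.sub h2)
  have h5 : ∫ x, ‖F^[n] (W.indicator (fun _ => c)) x + (F^[n] (W.indicator D) x - F^[n] (W.indicator fun _ => c) x)‖ =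
      ∫ x, ‖F^[n] (W.indicator D) x‖ := by
    refine integral_congr_ae (ae_of_all _ fun x => ?_)
    show ‖F^[n] (W.indicator (fun _ => c)) x + (F^[n] (W.indicator D) x - F^[n] (W.indicator fun _ => c) x)‖ =
      ‖F^[n] (W.indicator D) x‖
    congr 1
    ring
  linarith

private theorem stepUnf (hF : TO F b g) (hV : MeasurableSet V) (Vf : volume V ≠ ⊤) {W : Set ℂ} (Wm : MeasurableSet W)
    (Wf : volume W ≠ ⊤) {D P : ℂ → ℂ} (hD : Integrable D) (hP : IntegrableOn P W) {η : ℝ} {c A : ℂ} {n : ℕ}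
    (hf : ∫ x in V, ‖F^[n] (W.indicator fun _ => c) x - c * A‖ ≤ η * (‖c‖ * (volume W).toReal)) :
    ∫ x in V, ‖F^[n] (W.indicator D) x - c * A‖ ≤
      η * (‖c‖ * (volume W).toReal) + ((∫ x in W, ‖D x - P x‖) + (∫ x in W, ‖P x - c‖)) := by
  have hi1 : Integrable (W.indicator D) := hD.indicator Wm
  have hi2 : Integrable (W.indicator fun _ : ℂ => c) := (integrable_indicator_iff Wm).2 (const_int Wf c)
  have h1 := (it_int hF hi1 n).1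
  have h2 := (it_int hF hi2 n).1
  have h3 := lemA hF Wm Wf hD hP c n
  have hc : IntegrableOn (fun _ : ℂ => c * A) V := const_int Vf _
  have h4 : ∫ x in V, ‖(F^[n] (W.indicator (fun _ => c)) x - c * A) +
      (F^[n] (W.indicator D) x - F^[n] (W.indicator fun _ => c) x)‖ ≤
    (∫ x in V, ‖F^[n] (W.indicator fun _ => c) x - c * A‖) +
      (∫ x in V, ‖F^[n] (W.indicator D) x - F^[n] (W.indicator fun _ => c) x‖) :=
    tri (h2.integrableOn.sub hc) (h1.sub h2).integrableOn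
  have h5 : ∫ x in V, ‖(F^[n] (W.indicator (fun _ => c)) x - c * A) +
      (F^[n] (W.indicator D) x - F^[n] (W.indicator fun _ => c) x)‖ = ∫ x in V, ‖F^[n] (W.indicator D) x - c * A‖ := by
    refine integral_congr_ae (ae_of_all _ fun x => ?_)
    show ‖(F^[n] (W.indicator (fun _ => c)) x - c * A) +
      (F^[n] (W.indicator D) x - F^[n] (W.indicator fun _ => c) x)‖ = ‖F^[n] (W.indicator D) x - c * A‖
    congr 1
    ring
  have h6 : ∫ x in V, ‖F^[n] (W.indicator D) x - F^[n] (W.indicator fun _ => c) x‖ ≤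
      ∫ x, ‖F^[n] (W.indicator D) x - F^[n] (W.indicator fun _ => c) x‖ := set_le (h1.sub h2)
  linarith

/-- the arithmetic of the folded domains -/
private theorem arFold {ι : Type} (J : Finset ι) {κ θ e l : ℝ} {x r q c : ι → ℝ} (hκ : 0 < κ) (hκ1 : κ ≤ 1) (hθ : 0 ≤ θ)
    (hx : ∀ i ∈ J, 0 ≤ x i) (hr : ∀ i ∈ J, r i ≤ θ * x i) (hc : ∀ i ∈ J, c i ≤ x i + r i) (hl : ∑ i ∈ J, q i ≤ l)
    (h : ∑ i ∈ J, (x i - q i) ≤ ∑ i ∈ J, ((1 - κ) * c i + (q i + r i)) + 7 * e) :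
    (κ - 2 * θ) * ∑ i ∈ J, x i ≤ 2 * l + 7 * e := by
  have h1 : ∑ i ∈ J, ((1 - κ) * c i + (q i + r i)) ≤ ∑ i ∈ J, ((1 - κ + 2 * θ) * x i + q i) := by
    refine Finset.sum_le_sum fun i hi => ?_
    have h2 := hx i hi
    have h3 := hr i hi
    have h4 := hc i hi
    have h5 : (1 - κ) * c i ≤ (1 - κ) * (x i + r i) := mul_le_mul_of_nonneg_left h4 (by linarith)
    have h6 : (1 - κ) * r i ≤ (1 - κ) * (θ * x i) := mul_le_mul_of_nonneg_left h3 (by linarith)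
    have h7 : 0 ≤ κ * (θ * x i) := by positivity
    nlinarith
  have h8 : ∑ i ∈ J, ((1 - κ + 2 * θ) * x i + q i) = (1 - κ + 2 * θ) * (∑ i ∈ J, x i) + ∑ i ∈ J, q i := by
    rw [Finset.sum_add_distrib, ← Finset.mul_sum]
  rw [h8] at h1
  rw [Finset.sum_sub_distrib] at h
  linarith

/-- the final arithmetic -/
private theorem arEnd {κ η Λ θ p a ρ m X E l e v0 : ℝ} (hκ : 0 < κ) (hκ1 : κ ≤ 1) (hη : 0 < η) (hη1 : η ≤ κ ^ 2 / 10 ^ 12)
    (hΛ : Λ = 10 ^ 6 / κ) (hθ : θ = 41 * Λ * η) (hp : 0 < p) (ha : 0 ≤ a) (hρ : 0 < ρ) (hm : 0 ≤ m) (hX : 0 ≤ X) (hE : 0 ≤ E)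
    (hl : l = η * p * ρ ^ 2) (he : e = η * p * v0) (hv0 : 0 < v0) (hv : v0 ≤ ρ ^ 2)
    (h1 : (κ - 2 * θ) * X ≤ 2 * l + 7 * e)
    (h2 : E ≤ 5 * e + 2 * l + X + (9 * Real.pi / Λ + (θ + 2 * η)) * m)
    (h3 : m ≤ 4 * Real.pi * ρ ^ 2 * a + E)
    (h4 : |p - a| * (Real.pi * (ρ / 2) ^ 2) ≤ E) :
    θ ≤ κ / 10000 ∧ E / (Real.pi * (ρ / 2) ^ 2) ≤ κ / 100 * p ∧ p / 2 ≤ a := by
  have hpi : 3.14 < Real.pi := Real.pi_gt_d2
  have hpi2 : Real.pi < 3.15 := Real.pi_lt_d2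
  have hθ2 : θ ≤ 41 / 10 ^ 6 * κ := by
    rw [hθ, hΛ]
    have : 41 * (10 ^ 6 / κ) * η ≤ 41 * (10 ^ 6 / κ) * (κ ^ 2 / 10 ^ 12) := by gcongr
    refine this.trans ?_
    have h : 41 * (10 ^ 6 / κ) * (κ ^ 2 / 10 ^ 12) = 41 / 10 ^ 6 * κ := by field_simp
    rw [h]
  have hθ1 : θ ≤ κ / 10000 := by
    linarith
  have hθ0 : 0 ≤ θ := by
    rw [hθ, hΛ]
    positivity
  have hl0 : 0 < l := by rw [hl]; positivity
  have he0 : 0 < e := by rw [he]; positivity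
  have hel : e ≤ l := by
    rw [he, hl]
    gcongr
  have hηκ : η ≤ κ / 10 ^ 12 := by
    refine hη1.trans ?_
    gcongr
    nlinarith
  -- X
  have hX1 : κ * X ≤ 18 * l + 0 := by
    have h5 : (κ / 2) * X ≤ (κ - 2 * θ) * X := by
      apply mul_le_mul_of_nonneg_right _ hX
      linarith
    linarith
  have hω : 9 * Real.pi / Λ + (θ + 2 * η) ≤ κ / 10000 := by
    have h5 : 9 * Real.pi / Λ = 9 * Real.pi * κ / 10 ^ 6 := by
      rw [hΛ]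
      field_simp
    rw [h5]
    have h6 : 9 * Real.pi * κ / 10 ^ 6 ≤ 9 * 3.15 * κ / 10 ^ 6 := by gcongr
    have h7 : 9 * 3.15 * κ / 10 ^ 6 ≤ κ * (3 / 10 ^ 5) := by nlinarith
    have h8 : θ + 2 * η ≤ 41 / 10 ^ 6 * κ + 2 * (κ / 10 ^ 12) := by linarith
    linarith
  have hω0 : 0 ≤ 9 * Real.pi / Λ + (θ + 2 * η) := by
    have : 0 < Λ := by rw [hΛ]; positivity
    positivity
  set ω := 9 * Real.pi / Λ + (θ + 2 * η) with hωd
  -- E bound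
  have hE1 : κ * E ≤ 25 * l + κ * (ω * m) := by
    have h5 : κ * E ≤ κ * (5 * e + 2 * l + X + ω * m) := mul_le_mul_of_nonneg_left h2 hκ.le
    nlinarith
  have hE2 : κ * E ≤ 50 * l + 8 * Real.pi * ρ ^ 2 * a * (κ * ω) := by
    have h5 : κ * (ω * m) ≤ κ * (ω * (4 * Real.pi * ρ ^ 2 * a + E)) := by gcongr
    have h6 : κ * (ω * E) ≤ κ * (1 / 2 * E) := by
      gcongr
      linarith
    nlinarith
  set S := Real.pi * (ρ / 2) ^ 2 with hS
  have hSp : 0 < S := by positivity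
  have hE3 : κ * E ≤ (64 * η * p + 32 * a * (κ * ω)) * S := by
    have h5 : 50 * l ≤ 64 * η * p * S + 0 := by
      rw [hl, hS]
      have : 0 < η * p * ρ ^ 2 := by positivity
      nlinarith
    have h6 : 8 * Real.pi * ρ ^ 2 * a * (κ * ω) = 32 * a * (κ * ω) * S := by
      rw [hS]
      ring
    rw [h6] at hE2
    nlinarith
  have hE4 : κ * (E / S) ≤ 64 * η * p + 32 * a * (κ * ω) := by
    rw [← mul_div_assoc, div_le_iff₀ hSp]
    exact hE3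
  have h5 : |p - a| ≤ E / S := by
    rw [le_div_iff₀ hSp]
    exact h4
  have h6 := abs_le.1 h5
  have ha2 : a ≤ 2 * p := by
    have h7 : κ * (a - p) ≤ 64 * η * p + 32 * a * (κ * ω) := by
      refine le_trans ?_ hE4
      apply mul_le_mul_of_nonneg_left _ hκ.le
      linarith
    have h8 : 64 * η * p ≤ 64 * (κ / 10 ^ 12) * p := by gcongr
    have h9 : 32 * a * (κ * ω) ≤ 32 * a * (κ * (1 / 10000)) := by
      gcongr
      linarith
    have h10 : κ * (a - p) ≤ κ * (64 / 10 ^ 12 * p + 32 / 10000 * a) := by nlinarith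
    have h11 := le_of_mul_le_mul_left h10 hκ
    nlinarith
  have hfin : E / S ≤ κ / 100 * p + 0 := by
    have h7 : 64 * η * p ≤ 64 * (κ ^ 2 / 10 ^ 12) * p := by gcongr
    have h8 : 32 * a * (κ * ω) ≤ 32 * (2 * p) * (κ * (κ / 10000)) := by gcongr
    have h9 : κ * (E / S) ≤ κ * (κ * p * (64 / 10 ^ 12 + 64 / 10000)) := by nlinarith
    have h10 := le_of_mul_le_mul_left h9 hκ
    nlinarith [mul_pos hκ hp]
  refine ⟨hθ1, by linarith, ?_⟩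
  have h7 : p - a ≤ κ / 100 * p := by linarith
  nlinarith

private theorem vol_ball (c : ℂ) {r : ℝ} (hr : 0 ≤ r) : (volume (ball c r)).toReal = Real.pi * r ^ 2 := by
  rw [Complex.volume_ball, ENNReal.toReal_mul, ENNReal.toReal_pow, ENNReal.toReal_ofReal hr, mul_comm]
  rfl

private theorem sumF (hF : TO F b g) {ι : Type} (J : Finset ι) {W : ι → Set ℂ} {m : ι → ℕ} (Wm : ∀ i, MeasurableSet (W i))
    {D : ℂ → ℂ} (hD : Integrable D) :
    ∫ x, ‖F (fun x => ∑ i ∈ J, F^[m i] ((W i).indicator D) x) x‖ ≤ ∑ i ∈ J, ∫ x, ‖F^[m i + 1] ((W i).indicator D) x‖ := by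
  have h1 := it_sum hF 1 J fun i => F^[m i] ((W i).indicator D)
  simp only [Function.iterate_one] at h1
  rw [h1]
  have h2 : ∀ i ∈ J, Integrable (F (F^[m i] ((W i).indicator D))) := by
    intro i _
    rw [← Function.iterate_succ_apply' F]
    exact (it_int hF (hD.indicator (Wm i)) _).1
  refine (tri_sum J h2).trans (le_of_eq ?_)
  refine Finset.sum_congr rfl fun i _ => ?_
  rw [Function.iterate_succ_apply']

/-- `∫_V ‖P - A‖` -/
private theorem partB (hF : TO F b g) {ι : Type} [DecidableEq ι] (hV : MeasurableSet V) (Vf : volume V ≠ ⊤) {W : ι → Set ℂ} {m : ι → ℕ}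
    (Wm : ∀ i, MeasurableSet (W i)) (Wf : ∀ i, volume (W i) ≠ ⊤) (WV : ∀ i, W i ⊆ V) {D P : ℂ → ℂ}
    (hD : Integrable D) (hPi : IntegrableOn P V) {I Gd Fo U : Finset ι} (hI : I = (I \ Gd) ∪ Gd) (hG : Gd = Fo ∪ U)
    (hd1 : Disjoint (I \ Gd) Gd) (hd2 : Disjoint Fo U) {c A : ι → ℂ} {η θ : ℝ} (hη : 0 < η)
    (hc : ∀ i ∈ Gd, ∫ w in W i, ‖P w - c i‖ ≤ θ * ∫ w in W i, ‖P w‖)
    (hc2 : ∀ i ∈ Gd, ‖c i‖ * (volume (W i)).toReal ≤ 2 * ∫ w in W i, ‖P w‖)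
    (hU : ∀ i ∈ U, ∫ x in V, ‖F^[m i] ((W i).indicator fun _ => c i) x - c i * A i‖ ≤ η * (‖c i‖ * (volume (W i)).toReal)) :
    ∫ x in V, ‖P x - ∑ i ∈ U, c i * A i‖ ≤ (∫ x in V, ‖D x - ∑ i ∈ I, F^[m i] ((W i).indicator D) x‖) +
      (∫ x in V, ‖D x - P x‖) + (∑ i ∈ Fo, ((∫ x in W i, ‖P x‖) + (∫ x in W i, ‖D x - P x‖))) +
      (∑ i ∈ I \ Gd, ((∫ x in W i, ‖P x‖) + (∫ x in W i, ‖D x - P x‖))) +
      (∑ i ∈ U, ((∫ x in W i, ‖D x - P x‖) + (θ + 2 * η) * (∫ x in W i, ‖P x‖))) := by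
  set gi : ι → ℂ → ℂ := fun i => F^[m i] ((W i).indicator D) with hgi
  have hgi1 : ∀ i, Integrable (gi i) := fun i => (it_int hF (hD.indicator (Wm i)) _).1
  have hgi2 : ∀ i, ∫ x in V, ‖gi i x‖ ≤ (∫ x in W i, ‖P x‖) + (∫ x in W i, ‖D x - P x‖) := by
    intro i
    refine (set_le (hgi1 i)).trans ((it_int hF (hD.indicator (Wm i)) _).2.trans ?_)
    rw [ind_norm (Wm i)]
    exact d_le hD.integrableOn (hPi.mono_set (WV i))
  have hgi3 : ∀ i ∈ U, ∫ x in V, ‖gi i x - c i * A i‖ ≤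
      (∫ x in W i, ‖D x - P x‖) + (θ + 2 * η) * (∫ x in W i, ‖P x‖) := by
    intro i hi
    have hiG : i ∈ Gd := by
      rw [hG]
      exact Finset.mem_union_right _ hi
    have h1 := stepUnf hF hV Vf (Wm i) (Wf i) hD (hPi.mono_set (WV i)) (hU i hi)
    have h2 := hc i hiG
    have h3 := mul_le_mul_of_nonneg_left (hc2 i hiG) hη.le
    have h4 : gi i = F^[m i] ((W i).indicator D) := rfl
    rw [h4]
    linarith
  have hsI : ∀ x, ∑ i ∈ I, gi i x = (∑ i ∈ I \ Gd, gi i x) + ((∑ i ∈ Fo, gi i x) + ∑ i ∈ U, gi i x) := by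
    intro x
    have h1 : ∑ i ∈ Gd, gi i x = (∑ i ∈ Fo, gi i x) + ∑ i ∈ U, gi i x := by
      rw [hG, Finset.sum_union hd2]
    rw [← h1, ← Finset.sum_union hd1, ← hI]
  have hint : ∀ J : Finset ι, Integrable (fun x => ∑ i ∈ J, gi i x) := fun J => integrable_finset_sum J fun i _ => hgi1 i
  have hcA : ∀ i, IntegrableOn (fun _ : ℂ => c i * A i) V := fun i => const_int Vf _
  have hUi : ∀ i ∈ U, IntegrableOn (fun x => gi i x - c i * A i) V := fun i _ => (hgi1 i).integrableOn.sub (hcA i)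
  have e1 : IntegrableOn (fun x => D x - ∑ i ∈ I, gi i x) V := (hD.sub (hint I)).integrableOn
  have e2 : IntegrableOn (fun x => D x - P x) V := hD.integrableOn.sub hPi
  have e3 : IntegrableOn (fun x => ∑ i ∈ Fo, gi i x) V := (hint Fo).integrableOn
  have e4 : IntegrableOn (fun x => ∑ i ∈ I \ Gd, gi i x) V := (hint _).integrableOn
  have e5 : IntegrableOn (fun x => ∑ i ∈ U, (gi i x - c i * A i)) V := integrable_finset_sum U hUi
  have k1 : ∫ x in V, ‖P x - ∑ i ∈ U, c i * A i‖ = ∫ x in V, ‖((((D x - ∑ i ∈ I, gi i x) - (D x - P x)) +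
      ∑ i ∈ Fo, gi i x) + ∑ i ∈ I \ Gd, gi i x) + ∑ i ∈ U, (gi i x - c i * A i)‖ := by
    refine integral_congr_ae (ae_of_all _ fun x => ?_)
    show ‖P x - ∑ i ∈ U, c i * A i‖ = ‖((((D x - ∑ i ∈ I, gi i x) - (D x - P x)) +
      ∑ i ∈ Fo, gi i x) + ∑ i ∈ I \ Gd, gi i x) + ∑ i ∈ U, (gi i x - c i * A i)‖
    congr 1
    rw [hsI x, Finset.sum_sub_distrib]
    ring
  have k2 : ∫ x in V, ‖((((D x - ∑ i ∈ I, gi i x) - (D x - P x)) +
      ∑ i ∈ Fo, gi i x) + ∑ i ∈ I \ Gd, gi i x) + ∑ i ∈ U, (gi i x - c i * A i)‖ ≤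
      (∫ x in V, ‖(((D x - ∑ i ∈ I, gi i x) - (D x - P x)) +
      ∑ i ∈ Fo, gi i x) + ∑ i ∈ I \ Gd, gi i x‖) + (∫ x in V, ‖∑ i ∈ U, (gi i x - c i * A i)‖) :=
    tri (((e1.sub e2).add e3).add e4) e5
  have k3 : ∫ x in V, ‖(((D x - ∑ i ∈ I, gi i x) - (D x - P x)) + ∑ i ∈ Fo, gi i x) + ∑ i ∈ I \ Gd, gi i x‖ ≤
      (∫ x in V, ‖((D x - ∑ i ∈ I, gi i x) - (D x - P x)) + ∑ i ∈ Fo, gi i x‖) + (∫ x in V, ‖∑ i ∈ I \ Gd, gi i x‖) :=
    tri ((e1.sub e2).add e3) e4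
  have k4 : ∫ x in V, ‖((D x - ∑ i ∈ I, gi i x) - (D x - P x)) + ∑ i ∈ Fo, gi i x‖ ≤
      (∫ x in V, ‖(D x - ∑ i ∈ I, gi i x) - (D x - P x)‖) + (∫ x in V, ‖∑ i ∈ Fo, gi i x‖) :=
    tri (e1.sub e2) e3
  have k5 : ∫ x in V, ‖(D x - ∑ i ∈ I, gi i x) - (D x - P x)‖ ≤
      (∫ x in V, ‖D x - ∑ i ∈ I, gi i x‖) + (∫ x in V, ‖D x - P x‖) := tri_sub e1 e2
  have k6 : ∫ x in V, ‖∑ i ∈ U, (gi i x - c i * A i)‖ ≤
      ∑ i ∈ U, ((∫ x in W i, ‖D x - P x‖) + (θ + 2 * η) * (∫ x in W i, ‖P x‖)) :=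
    (tri_sum U hUi).trans (Finset.sum_le_sum fun i hi => hgi3 i hi)
  have k7 : ∀ J : Finset ι, ∫ x in V, ‖∑ i ∈ J, gi i x‖ ≤ ∑ i ∈ J, ((∫ x in W i, ‖P x‖) + (∫ x in W i, ‖D x - P x‖)) :=
    fun J => (tri_sum J fun i _ => (hgi1 i).integrableOn).trans (Finset.sum_le_sum fun i _ => hgi2 i)
  have k8 := k7 Fo
  have k9 := k7 (I \ Gd)
  rw [k1]
  linarith

theorem core {ι : Type} [Countable ι] (hF : TO F b g) (Vo : IsOpen V) {W : ι → Set ℂ} {m : ι → ℕ} (i0 : ι)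
    (Wo : ∀ i, IsOpen (W i)) (WV : ∀ i, W i ⊆ V) (Wd : ∀ i j, i ≠ j → Disjoint (W i) (W j)) (m0 : ∀ i, 0 < m i)
    (nr : ∀ i, ∀ z ∈ W i, ∀ j, 0 < j → j < m i → g^[j] z ∉ V) (ret : ∀ i, ∀ z ∈ W i, g^[m i] z ∈ V)
    (cov : ∀ z ∈ V, ∀ n, 0 < n → (∀ j < n, b.eval (g^[j] z) ≠ 0) → g^[n] z ∈ V → ∃ i, z ∈ W i)
    {c0 : ℂ} {ρ κ η : ℝ} (hρ : 0 < ρ) (hκ : 0 < κ) (hκ1 : κ ≤ 1) (hη : 0 < η) (hη1 : η ≤ κ ^ 2 / 10 ^ 12)
    (Vb : ball c0 ρ ⊆ V) (Vs : V ⊆ ball c0 (2 * ρ)) (c0W : c0 ∈ W i0) (W0s : W i0 ⊆ ball c0 (ρ / 2))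
    (sm : ∀ i, ∀ z ∈ W i, ∀ z' ∈ W i, ‖z' - z‖ < η * infDist z Vᶜ)
    (uf : ∀ i, (∃ A : ℂ, ∀ c : ℂ, ∫ x in V, ‖F^[m i] ((W i).indicator fun _ => c) x - c * A‖ ≤
      η * (‖c‖ * (volume (W i)).toReal)) ∨
      ∀ c : ℂ, ∫ x, ‖F^[m i + 1] ((W i).indicator fun _ => c) x‖ ≤ (1 - κ) * (‖c‖ * (volume (W i)).toReal))
    (f0 : ∀ c : ℂ, ∫ x, ‖F^[m i0 + 1] ((W i0).indicator fun _ => c) x‖ ≤ (1 - κ) * (‖c‖ * (volume (W i0)).toReal))
    {D P : ℂ → ℂ} (hD : Integrable D) (hP : DifferentiableOn ℂ P V) (hPi : IntegrableOn P V) (Pn : P c0 ≠ 0)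
    (hV : ∫ x in V, ‖D x - P x‖ ≤ η * ‖P c0‖ * ρ ^ 2)
    (hC : ∫ x in W i0, ‖D x - P x‖ ≤ η * ‖P c0‖ * (volume (W i0)).toReal)
    (he : ∫ x, ‖D x - F D x‖ ≤ η * ‖P c0‖ * (volume (W i0)).toReal) : False := by
  classical
  have Vm : MeasurableSet V := Vo.measurableSet
  have Wm : ∀ i, MeasurableSet (W i) := fun i => (Wo i).measurableSet
  have Vf : volume V ≠ ⊤ := ne_top_of_le_ne_top measure_ball_lt_top.ne (measure_mono Vs)
  have Wf : ∀ i, volume (W i) ≠ ⊤ := fun i => ne_top_of_le_ne_top Vf (measure_mono (WV i))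
  have hv0 : 0 < (volume (W i0)).toReal := ENNReal.toReal_pos ((Wo i0).measure_pos volume ⟨c0, c0W⟩).ne' (Wf i0)
  have hv : (volume (W i0)).toReal ≤ ρ ^ 2 := by
    have h1 : (volume (W i0)).toReal ≤ (volume (ball c0 (ρ / 2))).toReal :=
      ENNReal.toReal_mono measure_ball_lt_top.ne (measure_mono W0s)
    rw [vol_ball c0 (by positivity)] at h1
    have h2 := Real.pi_lt_d2
    nlinarith [sq_nonneg ρ]
  have hp : 0 < ‖P c0‖ := norm_pos_iff.2 Pn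
  have he0 : 0 < η * ‖P c0‖ * (volume (W i0)).toReal := by positivity
  have hVn : V ≠ univ := by
    intro h
    have h1 : c0 + ((2 * ρ : ℝ) : ℂ) ∈ ball c0 (2 * ρ) := Vs (h ▸ mem_univ _)
    rw [mem_ball, dist_eq_norm, add_sub_cancel_left, Complex.norm_real, Real.norm_eq_abs, abs_of_pos (by linarith)] at h1
    exact lt_irrefl _ h1
  obtain ⟨I, hI0, hI1, hI2⟩ := ray hF Vm i0 Wm WV Wd m0 nr ret cov hD he0 he
  set Λ : ℝ := 10 ^ 6 / κ with hΛd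
  have hΛ : 0 < Λ := by positivity
  set θ : ℝ := 41 * Λ * η with hθd
  have hηs : η ≤ 1 / 8 := by
    refine hη1.trans ?_
    have : κ ^ 2 ≤ 1 := pow_le_one₀ hκ.le hκ1
    linarith
  have hθ0 : 0 ≤ θ := by positivity
  have hθ1 : θ ≤ 1 := by
    have h1 : 41 * (10 ^ 6 / κ) * η ≤ 41 * (10 ^ 6 / κ) * (κ ^ 2 / 10 ^ 12) := by gcongr
    have h2 : 41 * (10 ^ 6 / κ) * (κ ^ 2 / 10 ^ 12) = 41 / 10 ^ 6 * κ := by field_simp
    rw [h2] at h1
    rw [hθd, hΛd]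
    linarith
  obtain ⟨Gd, c, hGI, hbad, hgood⟩ := smo Vo hVn hP hPi hη hηs hΛ hθ1 I Wm WV Wd sm
  have hc1 : ∀ i ∈ Gd, ∫ w in W i, ‖P w - c i‖ ≤ θ * ∫ w in W i, ‖P w‖ := fun i hi => (hgood i hi).1
  have hc2 : ∀ i ∈ Gd, ‖c i‖ * (volume (W i)).toReal ≤ 2 * ∫ w in W i, ‖P w‖ := fun i hi => (hgood i hi).2
  set Fo : Finset ι := Gd.filter fun i => ∀ c : ℂ, ∫ x, ‖F^[m i + 1] ((W i).indicator fun _ => c) x‖ ≤
    (1 - κ) * (‖c‖ * (volume (W i)).toReal) with hFo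
  set U : Finset ι := Gd.filter fun i => ¬ ∀ c : ℂ, ∫ x, ‖F^[m i + 1] ((W i).indicator fun _ => c) x‖ ≤
    (1 - κ) * (‖c‖ * (volume (W i)).toReal) with hU
  have hGu : Gd = Fo ∪ U := (Finset.filter_union_filter_not_eq _ _).symm
  have hGd2 : Disjoint Fo U := Finset.disjoint_filter_filter_not _ _ _
  have hIu : I = (I \ Gd) ∪ Gd := (Finset.sdiff_union_of_subset hGI).symm
  have hId : Disjoint (I \ Gd) Gd := Finset.sdiff_disjoint
  have hex : ∀ i, ∃ A : ℂ, i ∈ U → ∀ c : ℂ, ∫ x in V, ‖F^[m i] ((W i).indicator fun _ => c) x - c * A‖ ≤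
      η * (‖c‖ * (volume (W i)).toReal) := by
    intro i
    by_cases hi : i ∈ U
    · rcases uf i with ⟨A, hA⟩ | h
      · exact ⟨A, fun _ => hA⟩
      · exact absurd h (Finset.mem_filter.1 hi).2
    · exact ⟨0, fun h => absurd h hi⟩
  choose A hA using hex
  have hPx : ∀ i, IntegrableOn P (W i) := fun i => hPi.mono_set (WV i)
  have hx0 : ∀ i, 0 ≤ ∫ x in W i, ‖P x‖ := fun i => integral_nonneg fun _ => norm_nonneg _
  have hq0 : ∀ i, 0 ≤ ∫ x in W i, ‖D x - P x‖ := fun i => integral_nonneg fun _ => norm_nonneg _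
  have hDP : IntegrableOn (fun x => D x - P x) V := hD.integrableOn.sub hPi
  have hsq : ∀ J : Finset ι, ∑ i ∈ J, ∫ x in W i, ‖D x - P x‖ ≤ ∫ x in V, ‖D x - P x‖ := fun J => sum_le J Wm WV Wd hDP
  have hsx : ∀ J : Finset ι, ∑ i ∈ J, ∫ x in W i, ‖P x‖ ≤ ∫ x in V, ‖P x‖ := fun J => sum_le J Wm WV Wd hPi
  have hFoG : Fo ⊆ Gd := Finset.filter_subset _ _
  have hUG : U ⊆ Gd := Finset.filter_subset _ _
  -- part (a)
  have ha : (κ - 2 * θ) * ∑ i ∈ Fo, ∫ x in W i, ‖P x‖ ≤ 2 * (∫ x in V, ‖D x - P x‖) +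
      7 * (η * ‖P c0‖ * (volume (W i0)).toReal) := by
    refine arFold Fo (x := fun i => ∫ x in W i, ‖P x‖) (r := fun i => ∫ x in W i, ‖P x - c i‖)
      (q := fun i => ∫ x in W i, ‖D x - P x‖) (c := fun i => ‖c i‖ * (volume (W i)).toReal) hκ hκ1 hθ0
      (fun i _ => hx0 i) (fun i hi => hc1 i (hFoG hi)) (fun i _ => c_le (Wf i) (hPx i) (c i)) (hsq Fo) ?_
    have h1 := hI2 Fo (hFoG.trans hGI)
    have h2 := sumF hF Fo (m := m) Wm hD
    have h3 : ∑ i ∈ Fo, ∫ x, ‖F^[m i + 1] ((W i).indicator D) x‖ ≤ ∑ i ∈ Fo, ((1 - κ) * (‖c i‖ * (volume (W i)).toReal) +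
        ((∫ x in W i, ‖D x - P x‖) + (∫ x in W i, ‖P x - c i‖))) := by
      refine Finset.sum_le_sum fun i hi => ?_
      exact stepFold hF (Wm i) (Wf i) hD (hPx i) ((Finset.mem_filter.1 hi).2 (c i))
    have h4 : ∑ i ∈ Fo, ((∫ x in W i, ‖P x‖) - ∫ x in W i, ‖D x - P x‖) ≤ ∑ i ∈ Fo, ∫ x in W i, ‖D x‖ := by
      refine Finset.sum_le_sum fun i _ => ?_
      have := p_le (D := D) (P := P) hD.integrableOn (hPx i)
      linarith
    linarith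
  -- part (b)
  have hb := partB hF Vm Vf (m := m) Wm Wf WV hD hPi hIu hGu hId hGd2 hη hc1 hc2 (fun i hi => hA i hi (c i))
  set a0 : ℂ := ∑ i ∈ U, c i * A i with ha0
  have hb2 : ∫ x in V, ‖P x - a0‖ ≤ 5 * (η * ‖P c0‖ * (volume (W i0)).toReal) + 2 * (∫ x in V, ‖D x - P x‖) +
      (∑ i ∈ Fo, ∫ x in W i, ‖P x‖) + (9 * Real.pi / Λ + (θ + 2 * η)) * ∫ x in V, ‖P x‖ := by
    rw [Finset.sum_add_distrib, Finset.sum_add_distrib, Finset.sum_add_distrib, ← Finset.mul_sum] at hb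
    have h1 : (∑ i ∈ Fo, ∫ x in W i, ‖D x - P x‖) + (∑ i ∈ I \ Gd, ∫ x in W i, ‖D x - P x‖) +
        (∑ i ∈ U, ∫ x in W i, ‖D x - P x‖) ≤ ∫ x in V, ‖D x - P x‖ := by
      have h2 : ∑ i ∈ I, ∫ x in W i, ‖D x - P x‖ = (∑ i ∈ I \ Gd, ∫ x in W i, ‖D x - P x‖) +
          ((∑ i ∈ Fo, ∫ x in W i, ‖D x - P x‖) + ∑ i ∈ U, ∫ x in W i, ‖D x - P x‖) := by
        have h3 : ∑ i ∈ Gd, ∫ x in W i, ‖D x - P x‖ = (∑ i ∈ Fo, ∫ x in W i, ‖D x - P x‖) +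
            ∑ i ∈ U, ∫ x in W i, ‖D x - P x‖ := by
          conv_lhs => rw [hGu]
          rw [Finset.sum_union hGd2]
        rw [← h3, ← Finset.sum_union hId, ← hIu]
      have h4 := hsq I
      linarith
    have h5 : (θ + 2 * η) * ∑ i ∈ U, ∫ x in W i, ‖P x‖ ≤ (θ + 2 * η) * ∫ x in V, ‖P x‖ :=
      mul_le_mul_of_nonneg_left (hsx U) (by positivity)
    linarith
  have hc3 : ∫ x in V, ‖P x‖ ≤ 4 * Real.pi * ρ ^ 2 * ‖a0‖ + ∫ x in V, ‖P x - a0‖ := by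
    have hcc : IntegrableOn (fun _ : ℂ => a0) V := const_int Vf _
    have h1 : ∫ x in V, ‖a0 + (P x - a0)‖ ≤ (∫ x in V, ‖a0‖) + (∫ x in V, ‖P x - a0‖) := tri hcc (hPi.sub hcc)
    have h2 : ∫ x in V, ‖a0 + (P x - a0)‖ = ∫ x in V, ‖P x‖ := by
      refine integral_congr_ae (ae_of_all _ fun x => ?_)
      show ‖a0 + (P x - a0)‖ = ‖P x‖
      congr 1
      ring
    have h3 : ∫ x in V, ‖a0‖ ≤ 4 * Real.pi * ρ ^ 2 * ‖a0‖ := by
      rw [setIntegral_const, smul_eq_mul]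
      have h4 : (volume V).toReal ≤ (volume (ball c0 (2 * ρ))).toReal :=
        ENNReal.toReal_mono measure_ball_lt_top.ne (measure_mono Vs)
      rw [vol_ball c0 (by positivity)] at h4
      have h5 : volume.real V = (volume V).toReal := rfl
      rw [h5]
      have h6 := mul_le_mul_of_nonneg_right h4 (norm_nonneg a0)
      linarith
    linarith
  have hcc : IntegrableOn (fun _ : ℂ => a0) V := const_int Vf _
  have hPa : IntegrableOn (fun x => P x - a0) V := hPi.sub hcc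
  have hmean : ∀ w ∈ ball c0 (ρ / 2), ‖P w - a0‖ * (Real.pi * (ρ / 2) ^ 2) ≤ ∫ x in V, ‖P x - a0‖ := by
    intro w hw
    have hsub : ball w (ρ / 2) ⊆ V := by
      refine Subset.trans ?_ Vb
      refine ball_subset_ball' ?_
      rw [mem_ball] at hw
      linarith
    have h1 := area_mean (P := fun x => P x - a0) (z := w) (r := ρ / 2) (by positivity)
      ((hP.sub (differentiableOn_const _)).mono hsub) (hPa.mono_set hsub)
    refine h1.trans ?_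
    exact setIntegral_mono_set hPa.norm (ae_of_all _ fun x => norm_nonneg _) (HasSubset.Subset.eventuallyLE hsub)
  have hd1 : |‖P c0‖ - ‖a0‖| * (Real.pi * (ρ / 2) ^ 2) ≤ ∫ x in V, ‖P x - a0‖ := by
    refine le_trans ?_ (hmean c0 (mem_ball_self (by positivity)))
    exact mul_le_mul_of_nonneg_right (abs_norm_sub_norm_le _ _) (by positivity)
  have hm0 : 0 ≤ ∫ x in V, ‖P x‖ := integral_nonneg fun _ => norm_nonneg _
  have hE0 : 0 ≤ ∫ x in V, ‖P x - a0‖ := integral_nonneg fun _ => norm_nonneg _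
  have hX0 : 0 ≤ ∑ i ∈ Fo, ∫ x in W i, ‖P x‖ := Finset.sum_nonneg fun i _ => hx0 i
  obtain ⟨k1, k2, k3⟩ := arEnd (κ := κ) (η := η) (Λ := Λ) (θ := θ) (p := ‖P c0‖) (a := ‖a0‖) (ρ := ρ)
    (m := ∫ x in V, ‖P x‖) (X := ∑ i ∈ Fo, ∫ x in W i, ‖P x‖) (E := ∫ x in V, ‖P x - a0‖)
    (l := η * ‖P c0‖ * ρ ^ 2) (e := η * ‖P c0‖ * (volume (W i0)).toReal) (v0 := (volume (W i0)).toReal)
    hκ hκ1 hη hη1 hΛd hθd hp (norm_nonneg _) hρ hm0 hX0 hE0 rfl rfl hv0 hv (by linarith) (by linarith) hc3 hd1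
  -- part (e)
  have hS : 0 < Real.pi * (ρ / 2) ^ 2 := by positivity
  have hw : ∀ w ∈ W i0, ‖P w - a0‖ ≤ κ / 100 * ‖P c0‖ := by
    intro w hw
    refine le_trans ?_ k2
    rw [le_div_iff₀ hS]
    exact hmean w (W0s hw)
  have hw2 : ∫ x in W i0, ‖P x - a0‖ ≤ κ / 100 * ‖P c0‖ * (volume (W i0)).toReal := by
    have h1 : ∫ x in W i0, ‖P x - a0‖ ≤ ∫ _ in W i0, κ / 100 * ‖P c0‖ := by
      refine setIntegral_mono_on (hPa.mono_set (WV i0)).norm (integrableOn_const (Wf i0)) (Wm i0) hw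
    rw [setIntegral_const, smul_eq_mul] at h1
    have h5 : volume.real (W i0) = (volume (W i0)).toReal := rfl
    rw [h5] at h1
    linarith
  have e1 := hI2 {i0} (Finset.singleton_subset_iff.2 hI0)
  have e2 := sumF hF {i0} (m := m) Wm hD
  rw [Finset.sum_singleton] at e1 e2
  have e3 := stepFold hF (Wm i0) (Wf i0) hD (hPx i0) (f0 a0)
  have e4 : ‖a0‖ * (volume (W i0)).toReal ≤ (∫ x in W i0, ‖D x‖) + ((∫ x in W i0, ‖D x - P x‖) + (∫ x in W i0, ‖P x - a0‖)) := by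
    have h1 := c_le (Wf i0) (hPx i0) a0
    have h2 := p_le (D := D) (P := P) hD.integrableOn (hPx i0)
    linarith
  have e5 : κ * (‖a0‖ * (volume (W i0)).toReal) ≤ (κ / 50 + 9 * η) * ‖P c0‖ * (volume (W i0)).toReal := by
    linarith
  have e6 : κ * (‖P c0‖ / 2 * (volume (W i0)).toReal) ≤ κ * (‖a0‖ * (volume (W i0)).toReal) := by gcongr
  have e7 : (κ / 2) * (‖P c0‖ * (volume (W i0)).toReal) ≤ (κ / 50 + 9 * η) * (‖P c0‖ * (volume (W i0)).toReal) := by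
    linarith
  have e8 : 0 < ‖P c0‖ * (volume (W i0)).toReal := by positivity
  have e9 := le_of_mul_le_mul_right e7 e8
  have e10 : η ≤ κ / 10 ^ 12 := by
    refine hη1.trans ?_
    gcongr
    nlinarith
  linarith

end Pool.Agent.H43.UP
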