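import Pool.Agent.H43.UP.Tel

/-!
# THEOREM UP, module Ray: `D` and the first return operator

`e` bounds `∫ ‖D - F D‖`; `δ N = ∫_V ‖RR^N D‖ → 0` (`tel0`).
(A1) `∫_V ‖D‖ ≤ ∫ ‖F (1_V D)‖ + e + δ N` (`dec`, `tn_le`), let `N → ∞`.
(A2) Let `X = ⋃ i, W i` (measurable, countable union). Points of `V \ X` never return (`cov`), so `TN N (1_(V \ X) D) = 0` (`tn_nr`), `TN N D = TN N (1_X D)`, `∫_V ‖D‖ ≤ ∫_X ‖D‖ + e + δ N`: `∫_(V \ X) ‖D‖ ≤ e`.
The finite unions `S_I` exhaust `X` (`MeasureTheory.tendsto_setIntegral_of_monotone` along finsets, or `hasSum_integral_iUnion` over the countable type `ι` and a finite partial sum): `∫_(X \ S_I) ‖D‖ ≤ e` for a finite `I ∋ i0`. So `∫_(V \ S) ‖D‖ ≤ 2 e`.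
(A3) for `N ≥ max m i` (`i ∈ I`) with `δ N ≤ e`: `TN N D = ∑_(i ∈ I) F^[m i] (1_(W i) D) + TN N (1_(V \ S) D)`, `∫_V ‖D - ∑ ..‖ ≤ e + δ N + 2 e ≤ 4 e`.
(A4) `1_V D = ∑_I g_i + r`, `∫ ‖r‖ ≤ 5 e` (`g_i = F^[m i] (1_(W i) D)` vanishes outside `V`: `it_supp`, `ret`); (A1) and `∫ ‖F (∑_(I \ I') g_i)‖ ≤ ∑_(I \ I') ∫_(W i) ‖D‖ = ∫_S ‖D‖ - ∫_(S') ‖D‖ ≤ ∫_V ‖D‖ - ∫_(S') ‖D‖`.
-/

set_option autoImplicit false

open Filter Topology Polynomial Metric Set MeasureTheory

namespace Pool.Agent.H43.UP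

variable {F : (ℂ → ℂ) → ℂ → ℂ} {b : Polynomial ℂ} {g : ℂ → ℂ} {V : Set ℂ}

private theorem ray_tri (hF : TO F b g) (hV : MeasurableSet V) {D : ℂ → ℂ} (hD : Integrable D) (N : ℕ) :
    ∫ x in V, ‖D x‖ ≤ (∫ x in V, ‖D x - TN F V N D x‖) + ∫ x, ‖TN F V N D x‖ := by
  have hT := tn_int hF hV hD N
  have h1 : ∫ x in V, ‖D x‖ ≤ ∫ x in V, (‖D x - TN F V N D x‖ + ‖TN F V N D x‖) := by
    refine integral_mono hD.norm.integrableOn ((hD.sub hT).norm.integrableOn.add hT.norm.integrableOn) fun x => ?_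
    have h := norm_add_le (D x - TN F V N D x) (TN F V N D x)
    rw [sub_add_cancel] at h
    exact h
  have h2 : ∫ x in V, (‖D x - TN F V N D x‖ + ‖TN F V N D x‖) =
      (∫ x in V, ‖D x - TN F V N D x‖) + ∫ x in V, ‖TN F V N D x‖ :=
    integral_add (hD.sub hT).norm.integrableOn hT.norm.integrableOn
  have h3 : ∫ x in V, ‖TN F V N D x‖ ≤ ∫ x, ‖TN F V N D x‖ :=
    setIntegral_le_integral hT.norm (Filter.Eventually.of_forall fun x => norm_nonneg _)
  linarith

theorem ray_A1 (hF : TO F b g) (hV : MeasurableSet V) {D : ℂ → ℂ} (hD : Integrable D) {e : ℝ} (he : ∫ x, ‖D x - F D x‖ ≤ e) :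
    ∫ x in V, ‖D x‖ ≤ (∫ x, ‖F (V.indicator D) x‖) + e := by
  have h0 := tel0 hF hV hD
  have h1 : Tendsto (fun N => (∫ x, ‖F (V.indicator D) x‖) + e + ∫ x in V, ‖(RR F V)^[N] D x‖) atTop
      (𝓝 ((∫ x, ‖F (V.indicator D) x‖) + e + 0)) := h0.const_add _
  rw [add_zero] at h1
  refine ge_of_tendsto' h1 fun N => ?_
  have h2 := ray_tri hF hV hD N
  have h3 := dec hF hV hD N
  have h4 := tn_le hF hV hD N
  linarith

private theorem ray_ind (N : ℕ) (φ : ℂ → ℂ) : TN F V N (V.indicator φ) = TN F V N φ := by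
  unfold TN
  rw [Set.indicator_indicator, Set.inter_self]

private theorem ray_zero (hF : TO F b g) (N : ℕ) : TN F V N (fun _ => 0) = fun _ => 0 := by
  have h := tn_add (V := V) hF N (fun _ => 0) (fun _ => 0)
  simp only [add_zero] at h
  funext z
  have h1 := congrFun h z
  exact left_eq_add.1 h1

private theorem ray_sum (hF : TO F b g) {ι : Type} (N : ℕ) (I : Finset ι) (φ : ι → ℂ → ℂ) :
    TN F V N (fun z => ∑ i ∈ I, φ i z) = fun z => ∑ i ∈ I, TN F V N (φ i) z := by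
  classical
  induction I using Finset.induction_on with
  | empty =>
    simp only [Finset.sum_empty]
    exact ray_zero hF N
  | insert i I hi ih =>
    have h := tn_add (V := V) hF N (φ i) (fun z => ∑ i ∈ I, φ i z)
    rw [ih] at h
    simp only [Finset.sum_insert hi]
    exact h

private theorem ray_fi (hF : TO F b g) {S : Set ℂ} (hS : MeasurableSet S) {D : ℂ → ℂ} (hD : Integrable D) (n : ℕ) :
    ∫ x, ‖F^[n] (S.indicator D) x‖ ≤ ∫ x in S, ‖D x‖ := by
  have h := (it_int hF (hD.indicator hS) n).2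
  have h1 : ∫ x, ‖S.indicator D x‖ = ∫ x in S, ‖D x‖ := by
    rw [← integral_indicator hS]
    refine integral_congr_ae (Filter.Eventually.of_forall fun x => ?_)
    exact norm_indicator_eq_indicator_norm _ _
  rw [h1] at h
  exact h

private theorem ray_ts (hF : TO F b g) (hV : MeasurableSet V) {S : Set ℂ} (hS : MeasurableSet S) (hSV : S ⊆ V)
    {D : ℂ → ℂ} (hD : Integrable D) (N : ℕ) :
    ∫ x, ‖TN F V N (S.indicator D) x‖ ≤ ∫ x in S, ‖D x‖ := by
  have h := tn_le hF hV (hD.indicator hS) N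
  rw [Set.indicator_indicator, Set.inter_eq_right.2 hSV] at h
  exact h.trans (ray_fi hF hS hD 1)

private theorem ray_dj {ι : Type} {W : ι → Set ℂ} (Wm : ∀ i, MeasurableSet (W i)) (Wd : ∀ i j, i ≠ j → Disjoint (W i) (W j))
    {D : ℂ → ℂ} (hD : Integrable D) (I : Finset ι) :
    ∑ i ∈ I, ∫ x in W i, ‖D x‖ = ∫ x in ⋃ i ∈ I, W i, ‖D x‖ := by
  symm
  refine integral_biUnion_finset I (fun i _ => Wm i) ?_ fun i _ => hD.norm.integrableOn
  intro i _ j _ hij
  exact Wd i j hij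

theorem ray {ι : Type} [Countable ι] (hF : TO F b g) (hV : MeasurableSet V) {W : ι → Set ℂ} {m : ι → ℕ} (i0 : ι)
    (Wm : ∀ i, MeasurableSet (W i)) (WV : ∀ i, W i ⊆ V) (Wd : ∀ i j, i ≠ j → Disjoint (W i) (W j)) (m0 : ∀ i, 0 < m i)
    (nr : ∀ i, ∀ z ∈ W i, ∀ j, 0 < j → j < m i → g^[j] z ∉ V) (ret : ∀ i, ∀ z ∈ W i, g^[m i] z ∈ V)
    (cov : ∀ z ∈ V, ∀ n, 0 < n → (∀ j < n, b.eval (g^[j] z) ≠ 0) → g^[n] z ∈ V → ∃ i, z ∈ W i)
    {D : ℂ → ℂ} (hD : Integrable D) {e : ℝ} (he0 : 0 < e) (he : ∫ x, ‖D x - F D x‖ ≤ e) :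
    ∃ I : Finset ι, i0 ∈ I ∧ ∫ x in V, ‖D x - ∑ i ∈ I, F^[m i] ((W i).indicator D) x‖ ≤ 5 * e ∧
      ∀ I' ⊆ I, ∑ i ∈ I', ∫ x in W i, ‖D x‖ ≤ (∫ x, ‖F (fun x => ∑ i ∈ I', F^[m i] ((W i).indicator D) x) x‖) + 7 * e := by
  classical
  -- (A2)
  have hXm : MeasurableSet (⋃ i, W i) := MeasurableSet.iUnion Wm
  have hXV : (⋃ i, W i) ⊆ V := Set.iUnion_subset WV
  have hA2 : ∫ x in V, ‖D x‖ ≤ e + ∫ x in ⋃ i, W i, ‖D x‖ := by
    have h0 := tel0 hF hV hD
    have h1 : Tendsto (fun N => e + (∫ x in ⋃ i, W i, ‖D x‖) + ∫ x in V, ‖(RR F V)^[N] D x‖) atTop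
        (𝓝 (e + (∫ x in ⋃ i, W i, ‖D x‖) + 0)) := h0.const_add _
    rw [add_zero] at h1
    refine ge_of_tendsto' h1 fun N => ?_
    have h2 := ray_tri hF hV hD N
    have h3 := dec hF hV hD N
    have h4 : TN F V N D = TN F V N ((⋃ i, W i).indicator D) := by
      have h5 := tn_nr hF (S := V \ ⋃ i, W i) Set.sdiff_subset
        (fun z hz n hn hf hg => by
          obtain ⟨i, hi⟩ := cov z hz.1 n hn hf hg
          exact hz.2 (Set.mem_iUnion.2 ⟨i, hi⟩)) D N
      have h6 := tn_add (V := V) hF N ((⋃ i, W i).indicator D) ((V \ ⋃ i, W i).indicator D)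
      rw [h5] at h6
      rw [← ray_ind]
      have h7 : V.indicator D = fun z => (⋃ i, W i).indicator D z + (V \ ⋃ i, W i).indicator D z := by
        funext z
        by_cases hz : z ∈ ⋃ i, W i
        · rw [Set.indicator_of_mem (hXV hz), Set.indicator_of_mem hz,
            Set.indicator_of_notMem (fun h => h.2 hz), add_zero]
        · by_cases hz' : z ∈ V
          · rw [Set.indicator_of_mem hz', Set.indicator_of_notMem hz,
              Set.indicator_of_mem (show z ∈ V \ ⋃ i, W i from ⟨hz', hz⟩), zero_add]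
          · rw [Set.indicator_of_notMem hz', Set.indicator_of_notMem hz,
              Set.indicator_of_notMem (fun h => hz' h.1), add_zero]
      rw [h7, h6]
      funext z
      simp
    have h8 := ray_ts hF hV hXm hXV hD N
    rw [← h4] at h8
    linarith
  have hsum : HasSum (fun i => ∫ x in W i, ‖D x‖) (∫ x in ⋃ i, W i, ‖D x‖) :=
    hasSum_integral_iUnion Wm (fun i j hij => Wd i j hij) hD.norm.integrableOn
  obtain ⟨I, hI0, hIe⟩ : ∃ I : Finset ι, i0 ∈ I ∧ (∫ x in ⋃ i, W i, ‖D x‖) < (∑ i ∈ I, ∫ x in W i, ‖D x‖) + e := by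
    have h1 : ∀ᶠ I : Finset ι in atTop, (∫ x in ⋃ i, W i, ‖D x‖) - e < ∑ i ∈ I, ∫ x in W i, ‖D x‖ :=
      hsum.eventually_const_lt (by linarith)
    have h2 : ∀ᶠ I : Finset ι in atTop, i0 ∈ I := by
      filter_upwards [eventually_ge_atTop ({i0} : Finset ι)] with I hI
      exact hI (Finset.mem_singleton_self i0)
    obtain ⟨I, h3, h4⟩ := (h1.and h2).exists
    exact ⟨I, h4, by linarith⟩
  have hSm : MeasurableSet (⋃ i ∈ I, W i) := Finset.measurableSet_biUnion I fun i _ => Wm i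
  have hSV : (⋃ i ∈ I, W i) ⊆ V := Set.iUnion₂_subset fun i _ => WV i
  have hsI := ray_dj Wm Wd hD I
  have hVS : ∫ x in V \ ⋃ i ∈ I, W i, ‖D x‖ ≤ 2 * e := by
    have h1 := setIntegral_sdiff (μ := volume) (f := fun x => ‖D x‖) hSm hD.norm.integrableOn hSV
    rw [h1, ← hsI]
    linarith
  have hIV : ∑ i ∈ I, ∫ x in W i, ‖D x‖ ≤ ∫ x in V, ‖D x‖ := by
    rw [hsI]
    exact setIntegral_mono_set hD.norm.integrableOn (Filter.Eventually.of_forall fun x => norm_nonneg _)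
      hSV.eventuallyLE
  have hgi : ∀ i, Integrable (F^[m i] ((W i).indicator D)) := fun i => (it_int hF (hD.indicator (Wm i)) _).1
  have hGi : ∀ J : Finset ι, Integrable (fun x => ∑ i ∈ J, F^[m i] ((W i).indicator D) x) := fun J =>
    integrable_finsetSum J fun i _ => hgi i
  -- (A3)
  have hA3 : ∫ x in V, ‖D x - ∑ i ∈ I, F^[m i] ((W i).indicator D) x‖ ≤ 4 * e := by
    obtain ⟨N, hN1, hN2⟩ : ∃ N, (∀ i ∈ I, m i ≤ N) ∧ ∫ x in V, ‖(RR F V)^[N] D x‖ < e := by
      have h1 := (tel0 hF hV hD).eventually_lt_const he0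
      have h2 : ∀ᶠ N : ℕ in atTop, ∀ i ∈ I, m i ≤ N := by
        filter_upwards [eventually_ge_atTop (I.sup m)] with N hN i hi
        exact (Finset.le_sup hi).trans hN
      exact (h2.and h1).exists
    have h3 := dec hF hV hD N
    have h4 : TN F V N D = fun z => ∑ i ∈ I, F^[m i] ((W i).indicator D) z +
        TN F V N ((V \ ⋃ i ∈ I, W i).indicator D) z := by
      rw [← ray_ind]
      have h7 : V.indicator D = fun z => ∑ i ∈ I, (W i).indicator D z + (V \ ⋃ i ∈ I, W i).indicator D z := by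
        funext z
        by_cases hz : z ∈ ⋃ i ∈ I, W i
        · obtain ⟨i, hi, hzi⟩ := Set.mem_iUnion₂.1 hz
          rw [Set.indicator_of_mem (hSV hz), Set.indicator_of_notMem (fun h => h.2 hz), add_zero,
            Finset.sum_eq_single_of_mem i hi (fun j _ hj => Set.indicator_of_notMem (fun h =>
              Set.disjoint_left.1 (Wd j i hj) h hzi) _), Set.indicator_of_mem hzi]
        · rw [Finset.sum_eq_zero (fun i hi => Set.indicator_of_notMem (fun h =>
            hz (Set.mem_iUnion₂.2 ⟨i, hi, h⟩)) _), zero_add]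
          by_cases hz' : z ∈ V
          · rw [Set.indicator_of_mem hz', Set.indicator_of_mem (show z ∈ V \ ⋃ i ∈ I, W i from ⟨hz', hz⟩)]
          · rw [Set.indicator_of_notMem hz', Set.indicator_of_notMem (fun h => hz' h.1)]
      rw [h7, tn_add hF N, ray_sum hF N]
      funext z
      simp only
      congr 1
      refine Finset.sum_congr rfl fun i hi => ?_
      rw [tn_ret hF (WV i) (m0 i) (nr i) (ret i) D (hN1 i hi)]
    have h5 := ray_ts hF hV (hV.diff hSm) Set.sdiff_subset hD N (S := V \ ⋃ i ∈ I, W i)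
    have hTi : Integrable (TN F V N ((V \ ⋃ i ∈ I, W i).indicator D)) :=
      tn_int hF hV (hD.indicator (hV.diff hSm)) N
    have hTD := tn_int hF hV hD N
    have h6 : ∫ x in V, ‖D x - ∑ i ∈ I, F^[m i] ((W i).indicator D) x‖ ≤
        ∫ x in V, (‖D x - TN F V N D x‖ + ‖TN F V N ((V \ ⋃ i ∈ I, W i).indicator D) x‖) := by
      refine integral_mono (hD.sub (hGi I)).norm.integrableOn
        ((hD.sub hTD).norm.integrableOn.add hTi.norm.integrableOn) fun x => ?_
      have h := norm_add_le (D x - TN F V N D x) (TN F V N ((V \ ⋃ i ∈ I, W i).indicator D) x)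
      have h' : D x - TN F V N D x + TN F V N ((V \ ⋃ i ∈ I, W i).indicator D) x =
          D x - ∑ i ∈ I, F^[m i] ((W i).indicator D) x := by
        rw [h4]
        ring
      rw [h'] at h
      exact h
    have h6' : ∫ x in V, (‖D x - TN F V N D x‖ + ‖TN F V N ((V \ ⋃ i ∈ I, W i).indicator D) x‖) =
        (∫ x in V, ‖D x - TN F V N D x‖) + ∫ x in V, ‖TN F V N ((V \ ⋃ i ∈ I, W i).indicator D) x‖ :=
      integral_add (hD.sub hTD).norm.integrableOn hTi.norm.integrableOn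
    rw [h6'] at h6
    have h8 : ∫ x in V, ‖TN F V N ((V \ ⋃ i ∈ I, W i).indicator D) x‖ ≤
        ∫ x, ‖TN F V N ((V \ ⋃ i ∈ I, W i).indicator D) x‖ :=
      setIntegral_le_integral hTi.norm (Filter.Eventually.of_forall fun x => norm_nonneg _)
    linarith
  refine ⟨I, hI0, by linarith, fun I' hI' => ?_⟩
  -- (A4)
  have hA1 := ray_A1 hF hV hD he
  have hdec : V.indicator D = fun z => ((∑ i ∈ I', F^[m i] ((W i).indicator D) z) +
      ((∑ i ∈ I \ I', F^[m i] ((W i).indicator D) z) +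
      (V.indicator D z - ∑ i ∈ I, F^[m i] ((W i).indicator D) z))) := by
    funext z
    rw [← Finset.sum_sdiff hI']
    ring
  have hFd : F (V.indicator D) = fun z => F (fun x => ∑ i ∈ I', F^[m i] ((W i).indicator D) x) z +
      (F (fun x => ∑ i ∈ I \ I', F^[m i] ((W i).indicator D) x) z +
      F (fun x => V.indicator D x - ∑ i ∈ I, F^[m i] ((W i).indicator D) x) z) := by
    conv_lhs => rw [hdec]
    rw [hF.add, hF.add]
  have hr : Integrable (fun x => V.indicator D x - ∑ i ∈ I, F^[m i] ((W i).indicator D) x) :=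
    (hD.indicator hV).sub (hGi I)
  have h1 : ∫ x, ‖F (V.indicator D) x‖ ≤ (∫ x, ‖F (fun x => ∑ i ∈ I', F^[m i] ((W i).indicator D) x) x‖) +
      ((∫ x, ‖F (fun x => ∑ i ∈ I \ I', F^[m i] ((W i).indicator D) x) x‖) +
      ∫ x, ‖F (fun x => V.indicator D x - ∑ i ∈ I, F^[m i] ((W i).indicator D) x) x‖) := by
    have k1 : ∫ x, (‖F (fun x => ∑ i ∈ I \ I', F^[m i] ((W i).indicator D) x) x‖ +
        ‖F (fun x => V.indicator D x - ∑ i ∈ I, F^[m i] ((W i).indicator D) x) x‖) =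
        (∫ x, ‖F (fun x => ∑ i ∈ I \ I', F^[m i] ((W i).indicator D) x) x‖) +
        ∫ x, ‖F (fun x => V.indicator D x - ∑ i ∈ I, F^[m i] ((W i).indicator D) x) x‖ :=
      integral_add (hF.int _ (hGi _)).norm (hF.int _ hr).norm
    have k2 : ∫ x, (‖F (fun x => ∑ i ∈ I', F^[m i] ((W i).indicator D) x) x‖ +
        (‖F (fun x => ∑ i ∈ I \ I', F^[m i] ((W i).indicator D) x) x‖ +
        ‖F (fun x => V.indicator D x - ∑ i ∈ I, F^[m i] ((W i).indicator D) x) x‖)) =
        (∫ x, ‖F (fun x => ∑ i ∈ I', F^[m i] ((W i).indicator D) x) x‖) +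
        ∫ x, (‖F (fun x => ∑ i ∈ I \ I', F^[m i] ((W i).indicator D) x) x‖ +
        ‖F (fun x => V.indicator D x - ∑ i ∈ I, F^[m i] ((W i).indicator D) x) x‖) :=
      integral_add (hF.int _ (hGi _)).norm ((hF.int _ (hGi _)).norm.add (hF.int _ hr).norm)
    rw [← k1, ← k2]
    refine integral_mono (hF.int _ (hD.indicator hV)).norm
      ((hF.int _ (hGi _)).norm.add ((hF.int _ (hGi _)).norm.add (hF.int _ hr).norm)) fun x => ?_
    have k3 : F (V.indicator D) x = F (fun x => ∑ i ∈ I', F^[m i] ((W i).indicator D) x) x +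
      (F (fun x => ∑ i ∈ I \ I', F^[m i] ((W i).indicator D) x) x +
      F (fun x => V.indicator D x - ∑ i ∈ I, F^[m i] ((W i).indicator D) x) x) := congrFun hFd x
    show ‖F (V.indicator D) x‖ ≤ ‖F (fun x => ∑ i ∈ I', F^[m i] ((W i).indicator D) x) x‖ +
        (‖F (fun x => ∑ i ∈ I \ I', F^[m i] ((W i).indicator D) x) x‖ +
        ‖F (fun x => V.indicator D x - ∑ i ∈ I, F^[m i] ((W i).indicator D) x) x‖)
    rw [k3]
    refine (norm_add_le _ _).trans ?_
    exact add_le_add le_rfl (norm_add_le _ _)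
  have h2 : ∫ x, ‖F (fun x => ∑ i ∈ I \ I', F^[m i] ((W i).indicator D) x) x‖ ≤
      ∑ i ∈ I \ I', ∫ x in W i, ‖D x‖ := by
    refine (hF.le _ (hGi _)).trans ?_
    have h3 : ∫ x, ‖∑ i ∈ I \ I', F^[m i] ((W i).indicator D) x‖ ≤
        ∫ x, ∑ i ∈ I \ I', ‖F^[m i] ((W i).indicator D) x‖ :=
      integral_mono (hGi _).norm (integrable_finsetSum _ fun i _ => (hgi i).norm) fun x => norm_sum_le _ _
    refine h3.trans ?_
    rw [integral_finsetSum _ fun i _ => (hgi i).norm]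
    exact Finset.sum_le_sum fun i _ => ray_fi hF (Wm i) hD (m i)
  have h4 : ∫ x, ‖F (fun x => V.indicator D x - ∑ i ∈ I, F^[m i] ((W i).indicator D) x) x‖ ≤ 4 * e := by
    refine (hF.le _ hr).trans ?_
    have h5 : ∫ x, ‖V.indicator D x - ∑ i ∈ I, F^[m i] ((W i).indicator D) x‖ =
        ∫ x in V, ‖D x - ∑ i ∈ I, F^[m i] ((W i).indicator D) x‖ := by
      rw [← integral_indicator hV]
      refine integral_congr_ae (Filter.Eventually.of_forall fun x => ?_)
      show ‖V.indicator D x - ∑ i ∈ I, F^[m i] ((W i).indicator D) x‖ =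
        V.indicator (fun x => ‖D x - ∑ i ∈ I, F^[m i] ((W i).indicator D) x‖) x
      by_cases hx : x ∈ V
      · rw [Set.indicator_of_mem hx, Set.indicator_of_mem hx]
      · rw [Set.indicator_of_notMem hx, Set.indicator_of_notMem hx]
        have h6 : ∑ i ∈ I, F^[m i] ((W i).indicator D) x = 0 := by
          refine Finset.sum_eq_zero fun i _ => ?_
          by_contra hne
          obtain ⟨y, hy1, hy2, hy3⟩ := it_supp hF (m i) _ hne
          have hyW : y ∈ W i := Set.mem_of_indicator_ne_zero hy1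
          exact hx (hy3 ▸ ret i y hyW)
        rw [h6, sub_zero, norm_zero]
    rw [h5]
    exact hA3
  have h7 : (∑ i ∈ I \ I', ∫ x in W i, ‖D x‖) + (∑ i ∈ I', ∫ x in W i, ‖D x‖) = ∑ i ∈ I, ∫ x in W i, ‖D x‖ :=
    Finset.sum_sdiff hI'
  linarith

end Pool.Agent.H43.UP
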