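import Pool.Agent.H43.UP.TP
import Pool.Agent.H66.UP.KD
import Pool.Agent.H18.UP.BAS

/-!
# THEOREM UP, section II: the function `D`, definitions

`So x N Φ = ∑_(i < N) Φ (g^i x) / (g^i)'(x)`. `LC v q2 z2 n N Φ`: the linear combination of the values of `Φ` at the poles of `D`: `v = g c0`, `n = k2 - 1`. `DS`: the function `D` (kernel `q`), `px V r x w`: the kernel without the pole if `x ∈ V`; so `DS .. (px V r)` is `P`.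
`Ob`: the data of the orbits and their sizes (from `Cen`, module S2A), `n' = m0 - k2`.
-/

set_option autoImplicit false

open Filter Topology Polynomial Metric Set MeasureTheory

namespace Pool.Agent.H43.UP

open Pool.Agent.H61.TT Pool.Agent.H57.CP Pool.Agent.H78.NS Pool.Agent.H18.UP

/-- sums along an orbit -/
noncomputable def So (a b : Polynomial ℂ) (x : ℂ) (N : ℕ) (Φ : ℂ → ℂ) : ℂ :=
  ∑ i ∈ Finset.range N, (tD a b i x)⁻¹ * Φ ((gg a b)^[i] x)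

/-- the ratio `(v_n - q2) / (z2 - q2)` -/
noncomputable def Tq (a b : Polynomial ℂ) (v q2 z2 : ℂ) (n : ℕ) : ℂ := ((gg a b)^[n] v - q2) / (z2 - q2)

/-- the linear combination -/
noncomputable def LC (a b : Polynomial ℂ) (v q2 z2 : ℂ) (n N : ℕ) (Φ : ℂ → ℂ) : ℂ :=
  So a b v n Φ + (tD a b n v)⁻¹ * (1 - Tq a b v q2 z2 n) * Φ q2 + Tq a b v q2 z2 n * (tD a b n v)⁻¹ * So a b z2 N Φ

/-- the function `D` with the kernel `q` -/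
noncomputable def DS (a b : Polynomial ℂ) (v q2 z2 : ℂ) (n N : ℕ) (q : ℂ → ℂ → ℂ) (w : ℂ) : ℂ :=
  LC a b v q2 z2 n N fun x => q x w

open Classical in
/-- the kernel without its pole in `V` -/
noncomputable def px (V : Set ℂ) (r : ℂ → ℂ → ℂ) (x w : ℂ) : ℂ := (if x ∈ V then 0 else 1 / (w - x)) + r x w

/-- the orbits and their sizes: `v = g c0`, `n = k2 - 1`, `n' = m0 - k2` -/
structure Ob (a b : Polynomial ℂ) (J V C0 : Set ℂ) (c0 : ℂ) (ρ M Kc R : ℝ) (n n' p : ℕ) (q2 z2 α : ℂ) (t1 s1 t2 : ℝ) : Prop where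
  vJ : ∀ k ≤ n, (gg a b)^[k] (gg a b c0) ∈ J
  vb : ∀ k < n, b.eval ((gg a b)^[k] (gg a b c0)) ≠ 0
  vd : ∀ k < n, dg a b ((gg a b)^[k] (gg a b c0)) ≠ 0
  vn : tD a b n (gg a b c0) ≠ 0
  vV : ∀ k < n, (gg a b)^[k] (gg a b c0) ∉ V
  qJ : q2 ∈ J
  qc : Cr a b q2
  cV : c0 ∈ V
  zJ : ∀ i, (gg a b)^[i] z2 ∈ J
  zb : ∀ i, b.eval ((gg a b)^[i] z2) ≠ 0
  zd : ∀ i, dg a b ((gg a b)^[i] z2) ≠ 0
  zV : ∀ i < n', (gg a b)^[i] z2 ∉ V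
  zα : (gg a b)^[n'] z2 = α
  αJ : α ∈ J
  pp : 0 < p
  αp : (gg a b)^[p] α = α
  αV : α ∈ V
  αn : ∀ j, 0 < j → j < p → (gg a b)^[j] α ∉ V
  αm : 2 ≤ ‖tD a b p α‖
  cas : (q2 ∉ V ∧ q2 ≠ c0) ∨ (q2 = c0 ∧ t2 = ρ)
  Rv : ‖(gg a b)^[n] (gg a b c0)‖ ≤ R
  Rq : ‖q2‖ ≤ R
  Rz : ‖z2‖ ≤ R
  Rα : ‖α‖ ≤ R
  hM : 1 ≤ M
  hKM : Kc ≤ M
  hK : 1 ≤ Kc
  t2p : 0 < t2
  ve : M * ‖(gg a b)^[n] (gg a b c0) - q2‖ ≤ t2
  zl : t2 ≤ Kc * ‖z2 - q2‖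
  zu : ‖z2 - q2‖ ≤ Kc * t2
  B : ‖(tD a b n (gg a b c0))⁻¹‖ * t2 ≤ Kc * t1 ^ 2
  be : ‖(tD a b n' z2)⁻¹‖ * ρ ≤ Kc * t2
  hρ : 0 < ρ
  hρ1 : ρ ≤ 1
  t1p : 0 < t1
  ts : t1 ≤ s1
  sρ : M * s1 ≤ ρ
  α1 : ρ ≤ Kc * ‖α - c0‖
  Vs : V ⊆ ball c0 (2 * ρ)
  CV : C0 ⊆ V
  Cs : C0 ⊆ ball c0 s1

end Pool.Agent.H43.UP
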