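import Pool.Agent.H43.UP.Kob
import Pool.Agent.H18.UP.BAS

/-!
# THEOREM UP, module Sat: folded return domains are symmetric at the first fold

PROOF. `W1 = gg^[k] '' W` (`PBr.inv`; `W ⊆ ψ '' ball q s`), so `W1` is preconnected (`R.con`, `gg^[k]` is continuous on `W`: `g_diff`, the orbits of points of `W` are finite up to `m ≥ k` by `R.ret`, `mem_pre`). `τ(W1) := {x ∈ ball q r | - χ x ∈ χ '' W1}`.
`χ` is injective and holomorphic on `ball q r`, so an open map there; the restriction `ball q r → ℂ` is injective, continuous and open: `IsPreconnected.preimage_of_isOpenMap` for the preconnected set `- χ '' W1`, which is in the range: `univ_cover` (H80/AJ/Cover): `ball 0 (r ‖deriv χ q‖ / 16) ⊆ χ '' ball q r`, and `‖χ x‖ ≤ 2 ‖deriv χ q‖ s` for `x ∈ ball q s` (`kob2` of module Kob with `w' = q`; `64 CK s ≤ r`).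
`S = ψ '' τ(W1)`: preconnected, contains `ψ q` (`χ q = 0`), and `S ⊆ pre^[m] V`: `x' ∈ τ(W1)`, `- χ x' = χ x`, `x ∈ W1`: `gg x' = gg x` (`sq`), `b x' ≠ 0`, `gg^[k] (ψ x') = x'`, so the orbit of `ψ x'` is finite up to `m` and `gg^[m] (ψ x') = gg^[m - k - 1] (gg x') = gg^[m] (ψ x) ∈ V` (`mem_pre`, `pre_add`). `R.cmp` with `z = ψ q ∈ W`: `S ⊆ W`. So `x' ∈ W1`.
Now `u ∈ W1`, `u' ∈ ball q r`, `gg u' = gg u`: `χ u' ^ 2 = χ u ^ 2`, so `χ u' = χ u` (`u' = u`) or `χ u' = - χ u` (`u' ∈ τ(W1)`).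
-/

set_option autoImplicit false

open Filter Topology Polynomial Metric Set MeasureTheory

namespace Pool.Agent.H43.UP

open Pool.Agent.H61.TT Pool.Agent.H57.CP Pool.Agent.H78.NS Pool.Agent.H18.UP Pool.Agent.H80.AJ

private theorem sat_om {χ : ℂ → ℂ} {q : ℂ} {r : ℝ} (hr : 0 < r) (hd : DifferentiableOn ℂ χ (ball q r))
    (hi : InjOn χ (ball q r)) : IsOpenMap ((ball q r).restrict χ) := by
  have hA : AnalyticOnNhd ℂ χ (ball q r) := hd.analyticOnNhd isOpen_ball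
  rcases hA.is_constant_or_isOpen (convex_ball q r).isPreconnected with ⟨w, hw⟩ | h
  · exfalso
    have h1 : q ∈ ball q r := mem_ball_self hr
    have h2 : q + ((r / 2 : ℝ) : ℂ) ∈ ball q r := by
      rw [mem_ball, dist_eq_norm, add_sub_cancel_left, Complex.norm_real, Real.norm_of_nonneg (by positivity)]
      linarith
    have h3 := hi h1 h2 ((hw _ h1).trans (hw _ h2).symm)
    have h4 : ((r / 2 : ℝ) : ℂ) = 0 := left_eq_add.1 h3
    rw [Complex.ofReal_eq_zero] at h4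
    linarith
  · intro O hO
    rw [isOpen_induced_iff] at hO
    obtain ⟨O', hO', rfl⟩ := hO
    have h1 : (ball q r).restrict χ '' (Subtype.val ⁻¹' O') = χ '' (ball q r ∩ O') := by
      ext w
      constructor
      · rintro ⟨⟨x, hx⟩, hx2, rfl⟩
        exact ⟨x, ⟨hx, hx2⟩, rfl⟩
      · rintro ⟨x, ⟨hx, hx2⟩, rfl⟩
        exact ⟨⟨x, hx⟩, hx2, rfl⟩
    rw [h1]
    exact h _ inter_subset_left (isOpen_ball.inter hO')

private theorem sat_bd {χ : ℂ → ℂ} {q : ℂ} {r s : ℝ} (hr : 0 < r) (hs0 : 0 < s) (hd : DifferentiableOn ℂ χ (ball q r))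
    (hi : InjOn χ (ball q r)) (h0 : χ q = 0) (hs : 64 * CK * s ≤ r) {x : ℂ} (hx : x ∈ ball q s) :
    - χ x ∈ χ '' ball q r := by
  have hCK := one_le_CK
  have h1 : 64 * s ≤ r := by nlinarith
  have hD : 0 < ‖deriv χ q‖ := deriv_ne hr hd hi (mem_closedBall_self (by positivity))
  have h2 := kob2 hr (by linarith : s ≤ r / 2) hd hi hx (mem_ball_self hs0)
  have h3 : CK * (s / r) ≤ 1 / 64 := by
    rw [mul_div_assoc', div_le_iff₀ hr]
    linarith
  have h4 : ‖x - q‖ < s := by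
    rw [← dist_eq_norm]
    exact hx
  rw [h0, sub_zero] at h2
  have h5 : CK * (s / r) * ‖deriv χ q‖ * ‖x - q‖ ≤ 1 / 64 * ‖deriv χ q‖ * ‖x - q‖ := by
    gcongr
  have h6 : ‖χ x‖ ≤ ‖χ x - deriv χ q * (x - q)‖ + ‖deriv χ q * (x - q)‖ := by
    have := norm_add_le (χ x - deriv χ q * (x - q)) (deriv χ q * (x - q))
    rwa [sub_add_cancel] at this
  rw [norm_mul] at h6
  have h7 : ‖deriv χ q‖ * ‖x - q‖ < ‖deriv χ q‖ * s := mul_lt_mul_of_pos_left h4 hD
  have h8 : ‖deriv χ q‖ * (64 * s) ≤ ‖deriv χ q‖ * r := mul_le_mul_of_nonneg_left h1 hD.le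
  apply univ_cover hr hd hi
  rw [mem_ball, dist_eq_norm, h0, sub_zero, norm_neg]
  nlinarith

theorem satur {a b : Polynomial ℂ} {q : ℂ} {r s L : ℝ} {χ ψ : ℂ → ℂ} {V W : Set ℂ} {k m : ℕ} (hχ : SqC a b q r χ)
    (hψ : PBr a b k q r ψ) (hs : 64 * CK * s ≤ r) (R : Ret a b V L m W) (hkm : k < m) (hW : W ⊆ ψ '' ball q s)
    (hq : ψ q ∈ W) : ∀ u ∈ ball q r, ψ u ∈ W → ∀ u' ∈ ball q r, gg a b u' = gg a b u → ψ u' ∈ W := by
  have hr : 0 < r := hχ.hr
  have hs0 : 0 < s := by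
    obtain ⟨x, hx, -⟩ := hW hq
    exact lt_of_le_of_lt dist_nonneg hx
  have hsr : s ≤ r := by
    have hCK := one_le_CK
    nlinarith
  have hsub : ball q s ⊆ ball q r := ball_subset_ball hsr
  have hqr : q ∈ ball q r := mem_ball_self hr
  obtain ⟨W1, hW1⟩ : ∃ W1 : Set ℂ, W1 = (gg a b)^[k] '' W := ⟨_, rfl⟩
  have hW1s : W1 ⊆ ball q s := by
    rw [hW1]
    rintro _ ⟨z, hz, rfl⟩
    obtain ⟨x, hx, rfl⟩ := hW hz
    rw [hψ.inv x (hsub hx)]
    exact hx
  have hmem : ∀ x ∈ ball q r, ψ x ∈ W ↔ x ∈ W1 := by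
    intro x hx
    constructor
    · intro h
      rw [hW1]
      exact ⟨ψ x, h, hψ.inv x hx⟩
    · intro h
      rw [hW1] at h
      obtain ⟨z, hz, h2⟩ := h
      obtain ⟨y, hy, rfl⟩ := hW hz
      rw [hψ.inv y (hsub hy)] at h2
      rw [← h2]
      exact hz
  have hpre : ∀ z ∈ W, ∀ i < m, b.eval ((gg a b)^[i] z) ≠ 0 := fun z hz =>
    (Pool.Agent.H3.NC.mem_pre.1 (R.ret z hz)).1
  have hW1c : IsPreconnected W1 := by
    rw [hW1]
    refine R.con.image _ fun z hz => ?_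
    have h1 : z ∈ (pre a b)^[k] univ :=
      Pool.Agent.H3.NC.mem_pre.2 ⟨fun i hi => hpre z hz i (by omega), mem_univ _⟩
    exact (g_diff h1).continuousAt.continuousWithinAt
  obtain ⟨N, hN⟩ : ∃ N : Set ℂ, N = (fun z => - z) '' (χ '' W1) := ⟨_, rfl⟩
  have hNc : IsPreconnected N := by
    rw [hN]
    refine (hW1c.image χ ?_).image _ continuous_neg.continuousOn
    exact hχ.diff.continuousOn.mono (hW1s.trans hsub)
  have hNr : N ⊆ range ((ball q r).restrict χ) := by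
    rw [hN]
    rintro _ ⟨_, ⟨x, hx, rfl⟩, rfl⟩
    obtain ⟨y, hy, h1⟩ := sat_bd hr hs0 hχ.diff hχ.inj hχ.zero hs (hW1s hx)
    exact ⟨⟨y, hy⟩, h1⟩
  have hpc := hNc.preimage_of_isOpenMap (f := (ball q r).restrict χ) (injOn_iff_injective.1 hχ.inj)
    (sat_om hr hχ.diff hχ.inj) hNr
  obtain ⟨S, hS⟩ : ∃ S : Set ℂ, S = (fun x : ball q r => ψ x) '' ((ball q r).restrict χ ⁻¹' N) := ⟨_, rfl⟩
  have hSc : IsPreconnected S := by
    rw [hS]
    refine hpc.image _ ?_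
    exact (continuousOn_iff_continuous_restrict.1 hψ.diff.continuousOn).continuousOn
  have hSm : ∀ x' ∈ ball q r, ∀ x ∈ W1, - χ x' = χ x → ψ x' ∈ S := by
    intro x' hx' x hx h
    rw [hS]
    refine ⟨⟨x', hx'⟩, ?_, rfl⟩
    rw [mem_preimage, hN]
    exact ⟨χ x, ⟨x, hx, rfl⟩, by
      change - χ x = χ x'
      rw [← h, neg_neg]⟩
  have hqS : ψ q ∈ S := by
    refine hSm q hqr q ((hmem q hqr).1 hq) ?_
    rw [hχ.zero, neg_zero]
  have hSW : S ⊆ W := by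
    refine R.cmp (ψ q) hq S hSc hqS ?_
    rw [hS]
    rintro _ ⟨⟨x', hx'⟩, hx2, rfl⟩
    rw [mem_preimage, hN] at hx2
    obtain ⟨_, ⟨x, hx, rfl⟩, h1⟩ := hx2
    change - χ x = χ x' at h1
    have hxr := hsub (hW1s hx)
    have hgg : gg a b x' = gg a b x := by
      rw [hχ.sq x' hx', hχ.sq x hxr, ← h1, neg_sq]
    have hxW : ψ x ∈ W := (hmem x hxr).2 hx
    have hit : ∀ i, k < i → (gg a b)^[i] (ψ x') = (gg a b)^[i] (ψ x) := by
      intro i hi
      obtain ⟨j, rfl⟩ := Nat.exists_eq_add_of_lt hi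
      have h2 : k + j + 1 = j + (k + 1) := by omega
      have h3 : ∀ z, (gg a b)^[k + j + 1] z = (gg a b)^[j] (gg a b ((gg a b)^[k] z)) := fun z => by
        rw [h2, Function.iterate_add_apply, Function.iterate_succ_apply' (gg a b) k]
      rw [h3, h3, hψ.inv x' hx', hψ.inv x hxr, hgg]
    change ψ x' ∈ (pre a b)^[m] V
    rw [Pool.Agent.H3.NC.mem_pre]
    constructor
    · intro i hi
      rcases lt_trichotomy i k with h2 | h2 | h2
      · exact hψ.fin x' hx' i h2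
      · rw [h2, hψ.inv x' hx']
        exact hχ.fin x' hx'
      · rw [hit i h2]
        exact hpre _ hxW i hi
    · rw [hit m hkm]
      exact (Pool.Agent.H3.NC.mem_pre.1 (R.ret _ hxW)).2
  intro u hu huW u' hu' he
  rw [hχ.sq u' hu', hχ.sq u hu] at he
  have h1 : χ u' ^ 2 = χ u ^ 2 := add_left_cancel he
  rcases sq_eq_sq_iff_eq_or_eq_neg.1 h1 with h2 | h2
  · rw [hχ.inj hu' hu h2]
    exact huW
  · apply hSW
    refine hSm u' hu' u ((hmem u hu).1 huW) ?_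
    rw [h2, neg_neg]

end Pool.Agent.H43.UP
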